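import Pool.Agent.H73.D2.Tlj

/-!
# The letters of `TL` for a general target over a frame

`FrD`: the frame `c 0 .. c (r - 1)` (the part of 73's `Wdat` which does not see the target), `TgD`: a
target given by its value and velocity at the samples, its own path (any degree) along the line, the
closed chart `A1` of the window, the chart `A2` of the ball, the closed gradient. The estimates at one
sample: `fr_pos`, `tg_bd`, `tg_val`, `tg_vel`, `tg_cl`.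
-/

set_option autoImplicit false

namespace Pool.V1E

open Finset Real MvPolynomial
open Pool.KA Pool.KSAT Pool.PB Pool.GEN Pool.D2R Pool.D2G30 Pool.ISO Pool.CHT Pool.CHX
open Pool.PB.Trl (rt rt_mem t_rt)

/-- **The frame.** -/
structure FrD {m J : ℕ} (F : Fam m J) (c : ℕ → Fin m) (r D MB q₀ Q x : ℕ)
    (s : ℕ → ℕ) (qe : Fin r → ℕ) (o gf g2 : ℕ → ℕ) (B : F.Ω → Prop)
    (Gf G2 : PtT F → ℕ → MvPolynomial (Option (Fin m)) ℝ)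
    (Hf : LnT F → ℕ → MvPolynomial (Option (Fin m)) ℝ) : Prop where
  hc : Set.InjOn c (Set.Iio r)
  o1 : o 1 = o 0 + q₀
  o2 : o 2 = o 1 + Q
  oJ : o 2 ≤ J
  dG0 : ∀ y l, (Gf y l).totalDegree ≤ D
  pG0 : ∀ y l, DepC c l (Gf y l)
  dG2 : ∀ y l, (G2 y l).totalDegree ≤ D
  pG2 : ∀ y l, DepC c l (G2 y l)
  dH0 : ∀ s l, (Hf s l).totalDegree ≤ D
  cl0 : ∀ ω, B ω → ∀ l < r, Gf (ptr F J ω) l = Hf (slam F (o 0) ω) l
  own0 : ∀ ω, B ω → ∀ l < r, ∀ τ ∈ Set.Icc (0 : ℝ) 1,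
    |(dv (o 0) (fun s _ => Hf s l) (c l) (slam F (o 0) ω)).eval τ| ≤ 2 ^ x / 2 ^ gf l
  box0 : ∀ ω, B ω → ∀ l < r, ∀ b, NBx c (G2 (ptr F J ω)) g2 (o 2) (F.t ω) l b →
    |eval b (Gf (ptr F J ω) l) + (F.x ω (c l) - eval (bt F ω) (Gf (ptr F J ω) l)) -
      eval b (G2 (ptr F J ω) l)| ≤ 2 ^ x / 2 ^ g2 l
  n0 : ∀ j < r, s j ≤ gf j + q₀ + x
  n2a : ∀ j < r, g2 j ≤ s j + Q + x
  n2b : ∀ j < r, s j + Q ≤ g2 j + x
  QM : Q ≤ MB
  q0M : MB + Q ≤ q₀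
  qeM : ∀ i, MB + Q ≤ qe i

/-- The frame vector of a sample, in the direction `i`. -/
noncomputable def fvec {m J : ℕ} (F : Fam m J) (c : ℕ → Fin m) (s : ℕ → ℕ) (r : ℕ)
    (Gf : PtT F → ℕ → MvPolynomial (Option (Fin m)) ℝ) (ω : F.Ω) (i : Fin r) :
    Option (Fin m) → ℝ :=
  vec c s (trn r (Gf (ptr F J ω))) (yp c s r (trn r (Gf (ptr F J ω))) (bt F ω)) (some i)

/-- **The target.** -/
structure TgD {m J : ℕ} (F : Fam m J) (c : ℕ → Fin m) (r D D₁ MB Q x : ℕ)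
    (s : ℕ → ℕ) (o g2 : ℕ → ℕ) (B : F.Ω → Prop)
    (Gf G2 : PtT F → ℕ → MvPolynomial (Option (Fin m)) ℝ)
    (y yd : F.Ω → ℝ) (np : LnT F → Polynomial ℝ)
    (A1 A2 : PtT F → MvPolynomial (Option (Fin m)) ℝ)
    (R1 : LnT F → MvPolynomial (Option (Fin m)) ℝ) (Θ : LnT F → Fin r → Polynomial ℝ) :
    Prop where
  dnp : ∀ L, (np L).natDegree ≤ D₁
  vnp : ∀ ω, B ω → (np (slam F (o 1) ω)).eval (rt F (o 1) ω) = y ω
  wnp : ∀ ω, B ω → (Polynomial.derivative (np (slam F (o 1) ω))).eval (rt F (o 1) ω) =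
    1 / 2 ^ o 1 * yd ω
  dA1 : ∀ y, (A1 y).totalDegree ≤ D
  pA1 : ∀ y, DepC c r (A1 y)
  dA2 : ∀ y, (A2 y).totalDegree ≤ D
  pA2 : ∀ y, DepC c r (A2 y)
  dR1 : ∀ s, (R1 s).totalDegree ≤ D
  cl1 : ∀ ω, B ω → A1 (ptr F J ω) = R1 (slam F (o 1) ω)
  box1 : ∀ ω, B ω → ∃ κ : ℝ, |κ| ≤ 2 ^ x / 2 ^ s r ∧
    ∀ b, NBx c (G2 (ptr F J ω)) g2 (o 2) (F.t ω) r b →
      |eval b (A1 (ptr F J ω)) + κ - eval b (A2 (ptr F J ω))| ≤ 2 ^ x / 2 ^ (s r + Q)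
  own1 : ∀ ω, B ω → ∀ τ ∈ Set.Icc (0 : ℝ) 1,
    |(np (slam F (o 1) ω) - MvPolynomial.aeval (lc (o 1) (slam F (o 1) ω))
      (R1 (slam F (o 1) ω))).eval τ| ≤ 2 ^ x / 2 ^ s r
  pos2 : ∀ ω, B ω → |y ω - eval (bt F ω) (A2 (ptr F J ω))| ≤ 2 ^ x / 2 ^ (s r + MB)
  vel2 : ∀ ω, B ω → |yd ω - dd (A2 (ptr F J ω)) (bt F ω) (bd F ω)| ≤
    2 ^ x * 2 ^ o 2 / 2 ^ (s r + MB)
  dT : ∀ L i, (Θ L i).natDegree ≤ D₁
  clo : ∀ ω, B ω → ∀ i : Fin r, |(Θ (slam F (o 1) ω) i).eval (rt F (o 1) ω) -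
    2 ^ s r * dd (A2 (ptr F J ω) - A1 (ptr F J ω)) (bt F ω) (fvec F c s r Gf ω i)| ≤
    2 ^ x / 2 ^ (MB - Q)

/-- The own path minus the closed chart. -/
noncomputable def nT {m J : ℕ} (F : Fam m J) (s : ℕ → ℕ) (r w : ℕ) (np : LnT F → Polynomial ℝ)
    (R1 : LnT F → MvPolynomial (Option (Fin m)) ℝ) (L : LnT F) : Polynomial ℝ :=
  Polynomial.C (2 ^ s r) * (np L - MvPolynomial.aeval (lc w L) (R1 L))

section fr

variable {m J : ℕ} {F : Fam m J} {c : ℕ → Fin m} {r D D₁ MB q₀ Q x : ℕ}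
  {s : ℕ → ℕ} {qe : Fin r → ℕ} {o gf g2 : ℕ → ℕ} {B : F.Ω → Prop}
  {Gf G2 : PtT F → ℕ → MvPolynomial (Option (Fin m)) ℝ}
  {Hf : LnT F → ℕ → MvPolynomial (Option (Fin m)) ℝ}
  {y yd : F.Ω → ℝ} {np : LnT F → Polynomial ℝ}
  {A1 A2 : PtT F → MvPolynomial (Option (Fin m)) ℝ}
  {R1 : LnT F → MvPolynomial (Option (Fin m)) ℝ} {Θ : LnT F → Fin r → Polynomial ℝ}

/-- The frame of the line is the frame of the point. -/
theorem FrD.fr (W : FrD F c r D MB q₀ Q x s qe o gf g2 B Gf G2 Hf) {ω : F.Ω} (hω : B ω) :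
    frH F r q₀ Hf (slam F (o 1) ω) = trn r (Gf (ptr F J ω)) := by
  have h1 : co q₀ (slam F (o 1) ω) = slam F (o 0) ω := by
    have h2 := co_slam F (w := o 0) (a := o 1) (by rw [W.o1]; omega)
      (by have := W.oJ; have := W.o2; omega) ω
    rwa [W.o1, Nat.add_sub_cancel_left, ← W.o1] at h2
  funext l
  unfold frH trn
  split_ifs with hl
  · rw [h1, W.cl0 ω hω l hl]
  · rfl

/-- The corner. -/
theorem FrD.crn (W : FrD F c r D MB q₀ Q x s qe o gf g2 B Gf G2 Hf)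
    (ω : F.Ω) : crF F c s r (o 1) Q Gf ω =
      fun i => ⌊2 ^ Q * yp c s r (trn r (Gf (ptr F J ω))) (bt F ω) (some i)⌋ := by
  have h1J : o 1 ≤ J := by have := W.oJ; have := W.o2; omega
  funext i
  unfold crF cL
  rw [hL_yp h1J]

/-- **The value.** -/
theorem tg_val (W : FrD F c r D MB q₀ Q x s qe o gf g2 B Gf G2 Hf)
    (X : TgD F c r D D₁ MB Q x s o g2 B Gf G2 y yd np A1 A2 R1 Θ) {ω : F.Ω} (hω : B ω) :
    |(nT F s r (o 1) np R1 (slam F (o 1) ω)).eval (rt F (o 1) ω) -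
      eval (frc c s r Q (trn r (Gf (ptr F J ω))) (bt F ω)) (PfR c s r Q (bt F ω none)
        (fun i => ⌊2 ^ Q * yp c s r (trn r (Gf (ptr F J ω))) (bt F ω) (some i)⌋)
        (trn r (Gf (ptr F J ω))) (A2 (ptr F J ω) - A1 (ptr F J ω)))| ≤ 2 ^ x / 2 ^ MB := by
  have h1J : o 1 ≤ J := by have := W.oJ; have := W.o2; omega
  have e : (fun o' => (lc (o 1) (slam F (o 1) ω) o').eval (rt F (o 1) ω)) = bt F ω :=
    funext fun o' => eval_lc F h1J ω o'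
  have hR : DepC c r (A2 (ptr F J ω) - A1 (ptr F J ω)) := fun b b' h0 h1 => by
    rw [map_sub, map_sub, X.pA2 _ b b' h0 h1, X.pA1 _ b b' h0 h1]
  rw [pf_frc W.hc (trn_dep (W.pG0 _)) (bt F ω) hR]
  unfold nT
  rw [Polynomial.eval_mul, Polynomial.eval_C, Polynomial.eval_sub, Pool.D2G30.eval_aev, e,
    X.vnp ω hω, ← X.cl1 ω hω, map_sub]
  have e1 : 2 ^ s r * (y ω - eval (bt F ω) (A1 (ptr F J ω))) -
      2 ^ s r * (eval (bt F ω) (A2 (ptr F J ω)) - eval (bt F ω) (A1 (ptr F J ω))) =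
      2 ^ s r * (y ω - eval (bt F ω) (A2 (ptr F J ω))) := by
    ring
  rw [e1, abs_mul, abs_of_pos (show (0 : ℝ) < 2 ^ s r by positivity)]
  refine (mul_le_mul_of_nonneg_left (X.pos2 ω hω) (by positivity)).trans (le_of_eq ?_)
  rw [pow_add]
  field_simp

/-- **The velocity.** -/
theorem tg_vel (W : FrD F c r D MB q₀ Q x s qe o gf g2 B Gf G2 Hf)
    (X : TgD F c r D D₁ MB Q x s o g2 B Gf G2 y yd np A1 A2 R1 Θ) {ω : F.Ω} (hω : B ω) :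
    |(Polynomial.derivative (nT F s r (o 1) np R1 (slam F (o 1) ω))).eval (rt F (o 1) ω) -
      (eval (frc c s r Q (trn r (Gf (ptr F J ω))) (bt F ω)) (PgR c s r (o 1) Q (bt F ω none)
        (fun i => ⌊2 ^ Q * yp c s r (trn r (Gf (ptr F J ω))) (bt F ω) (some i)⌋)
        (trn r (Gf (ptr F J ω))) (A2 (ptr F J ω) - A1 (ptr F J ω)) 0) +
      ∑ i : Fin r, (Polynomial.derivative (hL c s r (o 1) (trn r (Gf (ptr F J ω)))
        (slam F (o 1) ω) (some i))).eval (rt F (o 1) ω) *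
        eval (frc c s r Q (trn r (Gf (ptr F J ω))) (bt F ω)) (PgR c s r (o 1) Q (bt F ω none)
        (fun i => ⌊2 ^ Q * yp c s r (trn r (Gf (ptr F J ω))) (bt F ω) (some i)⌋)
        (trn r (Gf (ptr F J ω))) (A2 (ptr F J ω) - A1 (ptr F J ω)) i.succ))| ≤
      2 ^ x / 2 ^ (MB - Q) := by
  have h1J : o 1 ≤ J := by have := W.oJ; have := W.o2; omega
  have hR : DepC c r (A2 (ptr F J ω) - A1 (ptr F J ω)) := fun b b' h0 h1 => by
    rw [map_sub, map_sub, X.pA2 _ b b' h0 h1, X.pA1 _ b b' h0 h1]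
  -- the right side
  have h1 := der_own (s := s) (P := trn r (Gf (ptr F J ω))) W.hc (trn_dep (W.pG0 _)) h1J ω hR
  rw [Fintype.sum_option] at h1
  have e1 : (Polynomial.derivative (hL c s r (o 1) (trn r (Gf (ptr F J ω)))
      (slam F (o 1) ω) none)).eval (rt F (o 1) ω) = 1 / 2 ^ o 1 := by
    show (Polynomial.derivative (lc (o 1) (slam F (o 1) ω) none)).eval _ = _
    rw [der_lc, Polynomial.eval_C]
    show 1 / 2 ^ o 1 * 1 = _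
    ring
  have e2 : (fun o' => (hL c s r (o 1) (trn r (Gf (ptr F J ω))) (slam F (o 1) ω) o').eval
      (rt F (o 1) ω)) = yp c s r (trn r (Gf (ptr F J ω))) (bt F ω) :=
    funext fun o' => hL_yp h1J _ ω o'
  rw [e1, e2] at h1
  rw [pg0_frc]
  simp only [pgs_frc]
  have e3 : (2 ^ s r * (eval (yp c s r (trn r (Gf (ptr F J ω))) (bt F ω)) (pderiv none
      (pull c s (trn r (Gf (ptr F J ω))) r (A2 (ptr F J ω) - A1 (ptr F J ω)))) *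
        (1 / 2 ^ o 1)) +
      ∑ i : Fin r, (Polynomial.derivative (hL c s r (o 1) (trn r (Gf (ptr F J ω)))
        (slam F (o 1) ω) (some i))).eval (rt F (o 1) ω) * (2 ^ s r *
        eval (yp c s r (trn r (Gf (ptr F J ω))) (bt F ω)) (pderiv (some i)
          (pull c s (trn r (Gf (ptr F J ω))) r (A2 (ptr F J ω) - A1 (ptr F J ω)))))) =
      2 ^ s r * (1 / 2 ^ o 1 * dd (A2 (ptr F J ω) - A1 (ptr F J ω)) (bt F ω) (bd F ω)) := by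
    rw [h1, mul_add, Finset.mul_sum]
    congr 1
    refine Finset.sum_congr rfl fun i _ => ?_
    ring
  rw [e3, dd_sub]
  -- the left side
  have e4 : (Polynomial.derivative (nT F s r (o 1) np R1 (slam F (o 1) ω))).eval (rt F (o 1) ω) =
      2 ^ s r * (1 / 2 ^ o 1 * yd ω -
        1 / 2 ^ o 1 * dd (A1 (ptr F J ω)) (bt F ω) (bd F ω)) := by
    unfold nT
    rw [Polynomial.derivative_C_mul, Polynomial.eval_mul, Polynomial.eval_C,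
      Polynomial.derivative_sub, Polynomial.eval_sub, X.wnp ω hω,
      dd_own h1J ω (R1 (slam F (o 1) ω)), ← X.cl1 ω hω]
  rw [e4]
  have e5 : 2 ^ s r * (1 / 2 ^ o 1 * yd ω -
        1 / 2 ^ o 1 * dd (A1 (ptr F J ω)) (bt F ω) (bd F ω)) -
      2 ^ s r * (1 / 2 ^ o 1 * (dd (A2 (ptr F J ω)) (bt F ω) (bd F ω) -
        dd (A1 (ptr F J ω)) (bt F ω) (bd F ω))) =
      2 ^ s r * (1 / 2 ^ o 1) * (yd ω -
        dd (A2 (ptr F J ω)) (bt F ω) (bd F ω)) := by ring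
  rw [e5, abs_mul, abs_of_pos (show (0 : ℝ) < 2 ^ s r * (1 / 2 ^ o 1) by positivity)]
  refine (mul_le_mul_of_nonneg_left (X.vel2 ω hω) (by positivity)).trans (le_of_eq ?_)
  have h2 : (2 : ℝ) ^ o 2 = 2 ^ o 1 * 2 ^ Q := by rw [W.o2, pow_add]
  have h3 : (2 : ℝ) ^ MB = 2 ^ Q * 2 ^ (MB - Q) := by
    rw [← pow_add]
    congr 1
    have := W.QM
    omega
  rw [h2, pow_add, h3]
  field_simp

/-- **The closed gradient.** -/
theorem tg_cl (W : FrD F c r D MB q₀ Q x s qe o gf g2 B Gf G2 Hf)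
    (X : TgD F c r D D₁ MB Q x s o g2 B Gf G2 y yd np A1 A2 R1 Θ) {ω : F.Ω} (hω : B ω)
    (i : Fin r) : |(Θ (slam F (o 1) ω) i).eval (rt F (o 1) ω) -
      eval (frc c s r Q (trn r (Gf (ptr F J ω))) (bt F ω)) (PgR c s r (o 1) Q (bt F ω none)
        (fun i => ⌊2 ^ Q * yp c s r (trn r (Gf (ptr F J ω))) (bt F ω) (some i)⌋)
        (trn r (Gf (ptr F J ω))) (A2 (ptr F J ω) - A1 (ptr F J ω)) i.succ)| ≤
      2 ^ x / 2 ^ (MB - Q) := by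
  have hPp : ∀ l, DepC c l (trn r (Gf (ptr F J ω)) l) := trn_dep (W.pG0 _)
  obtain ⟨q0, q1⟩ := hp_yp (s := s) W.hc hPp (bt F ω)
  have hd2 : DepC c r (A2 (ptr F J ω) - A1 (ptr F J ω)) := fun b b' h0 h1 => by
    rw [map_sub, map_sub, X.pA2 _ b b' h0 h1, X.pA1 _ b b' h0 h1]
  have e4 : eval (frc c s r Q (trn r (Gf (ptr F J ω))) (bt F ω)) (PgR c s r (o 1) Q
        (bt F ω none) (fun i => ⌊2 ^ Q * yp c s r (trn r (Gf (ptr F J ω))) (bt F ω) (some i)⌋)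
        (trn r (Gf (ptr F J ω))) (A2 (ptr F J ω) - A1 (ptr F J ω)) i.succ) =
      2 ^ s r * dd (A2 (ptr F J ω) - A1 (ptr F J ω)) (bt F ω) (fvec F c s r Gf ω i) := by
    rw [pgs_frc, pd_pull, dd_pt hd2 q0 q1]
    rfl
  rw [e4]
  exact X.clo ω hω i

end fr

/-- **The chart of the ball and its gradient in the tube.** -/
theorem tg_bd (D r : ℕ) : ∃ C : ℕ, ∀ {m J : ℕ} {F : Fam m J} {c : ℕ → Fin m}
    {D₁ MB q₀ Q x : ℕ} {s : ℕ → ℕ} {qe : Fin r → ℕ} {o gf g2 : ℕ → ℕ} {B : F.Ω → Prop}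
    {Gf G2 : PtT F → ℕ → MvPolynomial (Option (Fin m)) ℝ}
    {Hf : LnT F → ℕ → MvPolynomial (Option (Fin m)) ℝ}
    {y yd : F.Ω → ℝ} {np : LnT F → Polynomial ℝ}
    {A1 A2 : PtT F → MvPolynomial (Option (Fin m)) ℝ}
    {R1 : LnT F → MvPolynomial (Option (Fin m)) ℝ} {Θ : LnT F → Fin r → Polynomial ℝ},
    FrD F c r D MB q₀ Q x s qe o gf g2 B Gf G2 Hf →
    TgD F c r D D₁ MB Q x s o g2 B Gf G2 y yd np A1 A2 R1 Θ → ∀ ω, B ω →
    ∀ X : Fin r → ℝ, (∀ i, 0 ≤ X i) → (∀ i, X i ≤ 1) →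
    |eval X (PfR c s r Q (bt F ω none) (fun i => ⌊2 ^ Q * yp c s r (trn r (Gf (ptr F J ω)))
      (bt F ω) (some i)⌋) (trn r (Gf (ptr F J ω))) (A2 (ptr F J ω) - A1 (ptr F J ω)))| ≤
      2 ^ (C * (x + 1)) ∧
    |eval X (PgR c s r (o 1) Q (bt F ω none) (fun i => ⌊2 ^ Q * yp c s r
      (trn r (Gf (ptr F J ω))) (bt F ω) (some i)⌋) (trn r (Gf (ptr F J ω)))
      (A2 (ptr F J ω) - A1 (ptr F J ω)) 0)| ≤ 2 ^ (C * (x + 1)) ∧
    ∀ i : Fin r, |eval X (PgR c s r (o 1) Q (bt F ω none) (fun i => ⌊2 ^ Q * yp c s r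
      (trn r (Gf (ptr F J ω))) (bt F ω) (some i)⌋) (trn r (Gf (ptr F J ω)))
      (A2 (ptr F J ω) - A1 (ptr F J ω)) i.succ)| ≤ 2 ^ (C * (x + 1)) := by
  obtain ⟨C₁, htb⟩ := tub_bd D r
  refine ⟨2 * C₁ + 3, ?_⟩
  intro m J F c D₁ MB q₀ Q x s qe o gf g2 B Gf G2 Hf y yd np A1 A2 R1 Θ W T ω hω X hX0 hX1
  obtain ⟨P, hP⟩ : ∃ P, P = trn r (Gf (ptr F J ω)) := ⟨_, rfl⟩
  rw [← hP]
  have hPd : ∀ l, (P l).totalDegree ≤ D := fun l => by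
    rw [hP]
    exact trn_deg (W.dG0 _) l
  have hPp : ∀ l, DepC c l (P l) := fun l => by
    rw [hP]
    exact trn_dep (W.pG0 _) l
  have hPe : ∀ l < r, P l = Gf (ptr F J ω) l := fun l hl => by
    rw [hP]
    exact trn_eq hl
  obtain ⟨κ₁, hκ, hb1⟩ := T.box1 ω hω
  obtain ⟨M₁, hM₁⟩ : ∃ M₁ : ℝ, M₁ = 2 ^ x / 2 ^ (s r + Q) := ⟨_, rfl⟩
  have hM10 : 0 ≤ M₁ := by rw [hM₁]; positivity
  have hMs : 2 ^ s r * M₁ * 2 ^ Q = 2 ^ x := by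
    rw [hM₁, pow_add]
    field_simp
  have hMs' : 2 ^ s r * M₁ ≤ 2 ^ x := by
    rw [← hMs]
    exact le_mul_of_one_le_right (by positivity) (one_le_pow₀ (by norm_num))
  obtain ⟨f1, f2, f3⟩ := htb (c := c) (s := s) (w := o 1) (Q := Q) (a := o 2) (p := x)
    (q := x) (t := bt F ω none) (M := M₁) (M₀ := 2 ^ x / 2 ^ s r) (κ₁ := κ₁) (P := P)
    (Gb := G2 (ptr F J ω)) (κ := fun l => F.x ω (c l) - eval (bt F ω) (P l)) (gb := g2)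
    (A := A2 (ptr F J ω)) (Pd := A1 (ptr F J ω))
    (k := fun i => ⌊2 ^ Q * yp c s r P (bt F ω) (some i)⌋) W.hc (W.dG2 _) (W.pG2 _) hPd hPp
    (T.pA2 _) (T.pA1 _) (T.dA2 _) (T.dA1 _) hM10 (fun l hl => W.n2a l hl)
    (fun l hl => W.n2b l hl) (fun l hl b hb => by
      rw [hPe l hl]
      exact W.box0 ω hω l hl b hb) (fun b hb => by
      rw [hM₁]
      exact hb1 b hb) hκ (fun i => rfl) X hX0 hX1
  have hC0 : (0 : ℝ) ≤ 2 ^ (C₁ * (x + x + 1)) := by positivity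
  have hY : (2 : ℝ) ^ (C₁ * (x + x + 1)) * 2 ^ x + 2 ^ x ≤ 2 ^ ((2 * C₁ + 3) * (x + 1)) := by
    have h1 : C₁ * (x + x + 1) ≤ 2 * C₁ * (x + 1) := by nlinarith
    have h2 : (2 : ℝ) ^ (C₁ * (x + x + 1)) * 2 ^ x ≤ 2 ^ (2 * C₁ * (x + 1) + x) := by
      rw [← pow_add]
      exact pow_le_pow_right₀ (by norm_num) (by omega)
    have h3 : (2 : ℝ) ^ x ≤ 2 ^ (2 * C₁ * (x + 1) + x) :=
      pow_le_pow_right₀ (by norm_num) (by omega)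
    have h5 : (2 : ℝ) ^ (2 * C₁ * (x + 1) + x) * 2 ≤ 2 ^ ((2 * C₁ + 3) * (x + 1)) := by
      rw [← pow_succ]
      refine pow_le_pow_right₀ (by norm_num) ?_
      nlinarith
    linarith
  have hx1 : (0 : ℝ) < 2 ^ x := by positivity
  refine ⟨f1.trans ?_, f2.trans ?_, fun i => (f3 i).trans ?_⟩
  · rw [mul_add]
    have h1 : 2 ^ s r * (2 ^ (C₁ * (x + x + 1)) * M₁) ≤ 2 ^ (C₁ * (x + x + 1)) * 2 ^ x := by
      calc 2 ^ s r * (2 ^ (C₁ * (x + x + 1)) * M₁) =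
          2 ^ (C₁ * (x + x + 1)) * (2 ^ s r * M₁) := by ring
        _ ≤ _ := mul_le_mul_of_nonneg_left hMs' hC0
    have h2 : 2 ^ s r * (2 ^ x / 2 ^ s r) = (2 : ℝ) ^ x := by field_simp
    linarith
  · have h2 : (2 : ℝ) ^ o 2 = 2 ^ o 1 * 2 ^ Q := by rw [W.o2, pow_add]
    have h1 : 2 ^ s r / 2 ^ o 1 * (2 ^ (C₁ * (x + x + 1)) * M₁ * 2 ^ o 2) =
        2 ^ (C₁ * (x + x + 1)) * (2 ^ s r * M₁ * 2 ^ Q) := by
      rw [h2]
      field_simp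
    rw [h1, hMs]
    linarith
  · have h1 : 2 ^ s r * (2 ^ (C₁ * (x + x + 1)) * M₁ * 2 ^ Q) =
        2 ^ (C₁ * (x + x + 1)) * (2 ^ s r * M₁ * 2 ^ Q) := by ring
    rw [h1, hMs]
    linarith

/-- **The position and the velocity.** -/
theorem fr_pos (D : ℕ) : ∃ C : ℕ, ∀ {m J : ℕ} {F : Fam m J} {c : ℕ → Fin m}
    {r MB q₀ Q x : ℕ} {s : ℕ → ℕ} {qe : Fin r → ℕ} {o gf g2 : ℕ → ℕ} {B : F.Ω → Prop}
    {Gf G2 : PtT F → ℕ → MvPolynomial (Option (Fin m)) ℝ}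
    {Hf : LnT F → ℕ → MvPolynomial (Option (Fin m)) ℝ},
    FrD F c r D MB q₀ Q x s qe o gf g2 B Gf G2 Hf → ∀ ω, B ω →
    ∀ i : Fin r, |scF F c s r (o 1) q₀ Q qe Gf Hf ω i| ≤ 1 ∧
    |scF F c s r (o 1) q₀ Q qe Gf Hf ω i +
      xL c s r (o 1) Q (frH F r q₀ Hf (slam F (o 1) ω)) (slam F (o 1) ω) i -
      frc c s r Q (trn r (Gf (ptr F J ω))) (bt F ω) i| ≤ 2 ^ (C * (x + 1)) / 2 ^ MB ∧
    |Xe r qe (eL c s r (o 1) qe (frH F r q₀ Hf (slam F (o 1) ω)) (slam F (o 1) ω)) i.succ| ≤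
      2 ^ (C * (x + 1)) ∧
    |(Polynomial.derivative (hL c s r (o 1) (trn r (Gf (ptr F J ω))) (slam F (o 1) ω)
        (some i))).eval (rt F (o 1) ω) -
      Xe r qe (eL c s r (o 1) qe (frH F r q₀ Hf (slam F (o 1) ω)) (slam F (o 1) ω)) i.succ| ≤
      2 ^ (C * (x + 1)) / 2 ^ MB := by
  obtain ⟨C₃, hC₃, hhl⟩ := hL_near D
  obtain ⟨C₄, hC₄⟩ := pow_unbounded_of_one_lt C₃ (one_lt_two (α := ℝ))
  refine ⟨C₄ + 3, ?_⟩
  intro m J F c r MB q₀ Q x s qe o gf g2 B Gf G2 Hf W ω hω i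
  have h1J : o 1 ≤ J := by have := W.oJ; have := W.o2; omega
  have hfr := W.fr hω
  obtain ⟨L, hL'⟩ : ∃ L, L = slam F (o 1) ω := ⟨_, rfl⟩
  have hco : co q₀ L = slam F (o 0) ω := by
    have h2 := co_slam F (w := o 0) (a := o 1) (by rw [W.o1]; omega) h1J ω
    rw [hL']
    rwa [W.o1, Nat.add_sub_cancel_left, ← W.o1] at h2
  have hu := rt_mem F (o 1) ω
  have hfs := hhl (c := c) (s := s) (d := r) (wb := o 0) (q₀ := q₀) (H₀ := Hf) (L := L)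
    (M := 2 ^ x / 2 ^ gf i) (i := i) (W.dH0 _ _) (fun τ hτ => by
      rw [hco]
      exact W.own0 ω hω i i.2 τ hτ) (rt F (o 1) ω) hu
  rw [← W.o1, hL', hfr] at hfs
  obtain ⟨a1, a2, a3⟩ := hfs
  have hfs0 := (hhl (c := c) (s := s) (d := r) (wb := o 0) (q₀ := q₀) (H₀ := Hf) (L := L)
    (M := 2 ^ x / 2 ^ gf i) (i := i) (W.dH0 _ _) (fun τ hτ => by
      rw [hco]
      exact W.own0 ω hω i i.2 τ hτ) 0 ⟨le_rfl, zero_le_one⟩).1
  rw [← W.o1, hL', hfr] at hfs0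
  rw [hfr]
  obtain ⟨Λ, hΛ⟩ : ∃ Λ : ℝ, Λ = C₃ * (2 ^ s i * (2 ^ x / 2 ^ gf i) / 2 ^ q₀) := ⟨_, rfl⟩
  rw [← hΛ] at a1 a2 a3 hfs0
  have hΛ1 : Λ ≤ 2 ^ (C₄ + x + x) := by
    have h2 : (2 : ℝ) ^ s i / 2 ^ (gf i + q₀) ≤ 2 ^ x := p2_div (W.n0 i i.2)
    have e1 : Λ = C₃ * (2 ^ x * (2 ^ s i / 2 ^ (gf i + q₀))) := by
      rw [hΛ, pow_add]
      field_simp
    have e2 : (2 : ℝ) ^ (C₄ + x + x) = 2 ^ C₄ * (2 ^ x * 2 ^ x) := by
      rw [pow_add, pow_add, mul_assoc]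
    rw [e1, e2]
    exact mul_le_mul hC₄.le (mul_le_mul_of_nonneg_left h2 (by positivity)) (by positivity)
      (by positivity)
  have hΛ0 : 0 ≤ Λ := (abs_nonneg _).trans a1
  have hq0 : Λ / 2 ^ q₀ ≤ 2 ^ (C₄ + x + x) / 2 ^ (MB + Q) :=
    div_le_div₀ (by positivity) hΛ1 (by positivity) (pow_le_pow_right₀ (by norm_num) W.q0M)
  have hqe : (1 : ℝ) / 2 ^ qe i ≤ 1 / 2 ^ (MB + Q) :=
    one_div_le_one_div_of_le (by positivity) (pow_le_pow_right₀ (by norm_num) (W.qeM i))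
  have hsum : Λ / 2 ^ q₀ + 1 / 2 ^ qe i ≤ 2 ^ (C₄ + x + x + 1) / 2 ^ (MB + Q) := by
    refine (add_le_add hq0 hqe).trans ?_
    rw [← add_div]
    refine div_le_div_of_nonneg_right ?_ (by positivity)
    have h1 : (1 : ℝ) ≤ 2 ^ (C₄ + x + x) := one_le_pow₀ (by norm_num)
    rw [pow_succ]
    linarith
  have hexp : C₄ + x + x + 2 ≤ (C₄ + 3) * (x + 1) := by nlinarith
  have hY : (2 : ℝ) ^ (C₄ + x + x + 2) ≤ 2 ^ ((C₄ + 3) * (x + 1)) :=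
    pow_le_pow_right₀ (by norm_num) hexp
  -- the position
  have hpn := pos_near (Q := Q) (qe := qe i) hu a3
    (sr := scF F c s r (o 1) q₀ Q qe Gf Hf ω i) (by
      unfold scF sC
      rw [hfr]
      rfl)
  have hfrc : frc c s r Q (trn r (Gf (ptr F J ω))) (bt F ω) i =
      Int.fract (2 ^ Q * (hL c s r (o 1) (trn r (Gf (ptr F J ω))) (slam F (o 1) ω)
        (some i)).eval (rt F (o 1) ω)) := by
    rw [hL_yp h1J]
    rfl
  rw [hfrc]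
  have hXe : Xe r qe (eL c s r (o 1) qe (trn r (Gf (ptr F J ω))) (slam F (o 1) ω)) i.succ =
      ((⌊2 ^ qe i * (Polynomial.derivative (hL c s r (o 1) (trn r (Gf (ptr F J ω)))
        (slam F (o 1) ω) (some i))).eval 0⌋ : ℤ) : ℝ) / 2 ^ qe i := rfl
  rw [hXe]
  obtain ⟨v0, hv0⟩ : ∃ v0 : ℝ, v0 = (Polynomial.derivative (hL c s r (o 1)
    (trn r (Gf (ptr F J ω))) (slam F (o 1) ω) (some i))).eval 0 := ⟨_, rfl⟩
  rw [← hv0] at a2 hfs0 ⊢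
  have hv : |((⌊2 ^ qe i * v0⌋ : ℤ) : ℝ) / 2 ^ qe i - v0| ≤ 1 / 2 ^ qe i := by
    have h1 := Int.floor_le ((2 : ℝ) ^ qe i * v0)
    have h2 := Int.lt_floor_add_one ((2 : ℝ) ^ qe i * v0)
    have hp : (0 : ℝ) < 2 ^ qe i := by positivity
    have e1 : ((⌊2 ^ qe i * v0⌋ : ℤ) : ℝ) / 2 ^ qe i - v0 =
        (((⌊2 ^ qe i * v0⌋ : ℤ) : ℝ) - 2 ^ qe i * v0) / 2 ^ qe i := by
      field_simp
    rw [e1, abs_div, abs_of_pos hp]
    refine div_le_div_of_nonneg_right ?_ hp.le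
    rw [abs_le]
    constructor <;> linarith
  refine ⟨hpn.1, ?_, ?_, ?_⟩
  · refine hpn.2.trans ?_
    calc 2 * (2 ^ Q * (Λ / 2 ^ q₀ + 1 / 2 ^ qe i)) ≤
        2 * (2 ^ Q * (2 ^ (C₄ + x + x + 1) / 2 ^ (MB + Q))) := by
          refine mul_le_mul_of_nonneg_left (mul_le_mul_of_nonneg_left hsum (by positivity))
            (by norm_num)
      _ = 2 ^ (C₄ + x + x + 2) / 2 ^ MB := by
          rw [pow_add 2 MB Q, pow_succ 2 (C₄ + x + x + 1)]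
          field_simp
      _ ≤ _ := div_le_div_of_nonneg_right hY (by positivity)
  · have h1 : |((⌊2 ^ qe i * v0⌋ : ℤ) : ℝ) / 2 ^ qe i| ≤ |v0| + 1 / 2 ^ qe i := by
      have := abs_sub_abs_le_abs_sub (((⌊2 ^ qe i * v0⌋ : ℤ) : ℝ) / 2 ^ qe i) v0
      linarith
    have h2 : (1 : ℝ) / 2 ^ qe i ≤ 1 := by
      rw [div_le_one (by positivity)]
      exact one_le_pow₀ (by norm_num)
    have h3 : (1 : ℝ) ≤ 2 ^ (C₄ + x + x) := one_le_pow₀ (by norm_num)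
    have h4 : (2 : ℝ) ^ (C₄ + x + x) * 2 ≤ 2 ^ ((C₄ + 3) * (x + 1)) := by
      rw [← pow_succ]
      exact pow_le_pow_right₀ (by norm_num) (by omega)
    linarith
  · rw [abs_sub_comm] at hv
    have h1 : |(Polynomial.derivative (hL c s r (o 1) (trn r (Gf (ptr F J ω)))
        (slam F (o 1) ω) (some i))).eval (rt F (o 1) ω) -
        ((⌊2 ^ qe i * v0⌋ : ℤ) : ℝ) / 2 ^ qe i| ≤ Λ / 2 ^ q₀ + 1 / 2 ^ qe i := by
      have := abs_add_le ((Polynomial.derivative (hL c s r (o 1) (trn r (Gf (ptr F J ω)))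
        (slam F (o 1) ω) (some i))).eval (rt F (o 1) ω) - v0)
        (v0 - ((⌊2 ^ qe i * v0⌋ : ℤ) : ℝ) / 2 ^ qe i)
      rw [sub_add_sub_cancel] at this
      linarith
    refine h1.trans (hsum.trans ?_)
    have h2 : (2 : ℝ) ^ (C₄ + x + x + 1) ≤ 2 ^ ((C₄ + 3) * (x + 1)) :=
      pow_le_pow_right₀ (by norm_num) (by omega)
    exact div_le_div₀ (by positivity) h2 (by positivity)
      (pow_le_pow_right₀ (by norm_num) (by omega))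

end Pool.V1E
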