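import Pool.Agent.H69.NE.Sb

/-!
# The data of the target `N - C (u - H₁ᵤ)`

`NvD`: four windows, frame `c 0 .. c (r - 1)`, the coordinate `u = c r`, the coordinate
`N = c (r + 1)`, a polynomial `C` of the frame which is near the derivatives in the direction `u` of
the charts of `N`. `NvD.frd`: the frame. `shf_b`: a chart against the chart of a ball.
-/

set_option autoImplicit false

namespace Pool.V1E

open Finset Real MvPolynomial
open Pool.KA Pool.KSAT Pool.PB Pool.GEN Pool.D2R Pool.D2G30 Pool.ISO Pool.CHT Pool.CHX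
open Pool.PB.Trl (rt rt_mem t_rt)

/-- **The data of the target `N - C (u - H₁ᵤ)`**: `s r` are the digits of `N`, `su` the digits of
`u` at the window `o 1`. -/
structure NvD {m J : ℕ} (F : Fam m J) (c : ℕ → Fin m) (r D n M ar MB q₀ Q x p e su : ℕ)
    (s : ℕ → ℕ) (qe : Fin r → ℕ) (o : ℕ → ℕ) (z g gc gT g₀ : ℕ → ℕ → ℕ) (B : F.Ω → Prop)
    (G T : ℕ → PtT F → ℕ → MvPolynomial (Option (Fin m)) ℝ)
    (H TH : ℕ → LnT F → ℕ → MvPolynomial (Option (Fin m)) ℝ)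
    (Ht CL : LnT F → MvPolynomial (Option (Fin m)) ℝ)
    (Cp : PtT F → MvPolynomial (Option (Fin m)) ℝ) : Prop where
  hc : Set.InjOn c (Set.Iio (r + 2))
  bal : BalE F c (r + 1) n M ar o z g gc gT g₀ (2 ^ x) B G T
  n3 : 3 ≤ n
  o1 : o 1 = o 0 + q₀
  o2 : o 2 = o 1 + Q
  o3 : o 2 ≤ o 3
  oa : o 3 ≤ ar
  oJ : o 3 ≤ J
  z02 : ∃ q ≤ M, z 0 q = o 2 - o 0
  z03 : ∃ q ≤ M, z 0 q = o 3 - o 0
  z12 : ∃ q ≤ M, z 1 q = o 2 - o 1
  z23 : ∃ q ≤ M, z 2 q = o 3 - o 2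
  dG : ∀ k y l, (G k y l).totalDegree ≤ D
  pG : ∀ k y l, DepC c l (G k y l)
  dH : ∀ k s l, (H k s l).totalDegree ≤ D
  pH : ∀ k s l, DepC c l (H k s l)
  dt : ∀ s, (Ht s).totalDegree ≤ D
  pt : ∀ s, DepC c (r + 1) (Ht s)
  ch1 : ChOK F c (r + 2) (fun _ => D) (o 1) (o 1) e (g₀ 1) B (G 1) (H 1)
  ch2 : ChOK F c (r + 2) (fun _ => D) (o 2) (o 2) e (g₀ 2) B (G 2) (H 2)
  ch3 : ChOK F c (r + 2) (fun _ => D) (o 3) (o 3) e (g₀ 3) B (G 3) (H 3)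
  thin : ChOK F c (r + 1) (fun _ => D) ar (o 3) e (gT 3) B (T 3) (TH 3)
  ro : ROut1 F c (r + 1) (o 1) (o 3) (ar - o 3) (g₀ 3) (gT 3) p (2 ^ x) B (G 3) (H 3) (T 3)
    (TH 3) Ht
  hT : ∀ j < r, ∀ y, T 3 y j = Gno (c j) J J (fun y => G 3 y j) y
  hTH : ∀ j < r, ∀ s, TH 3 s j = Hno (c j) (fun s => H 3 s j) s
  cl0 : ∀ ω, B ω → ∀ l < r, G 0 (ptr F J ω) l = H 0 (slam F (o 0) ω) l
  cl1 : ∀ ω, B ω → ∀ l ≤ r + 1, G 1 (ptr F J ω) l = H 1 (slam F (o 1) ω) l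
  own0 : ∀ ω, B ω → ∀ l < r, ∀ τ ∈ Set.Icc (0 : ℝ) 1,
    |(dv (o 0) (fun s _ => H 0 s l) (c l) (slam F (o 0) ω)).eval τ| ≤ 2 ^ x / 2 ^ g₀ 0 l
  own1 : ∀ ω, B ω → ∀ l ≤ r + 1, ∀ τ ∈ Set.Icc (0 : ℝ) 1,
    |(dv (o 1) (fun s _ => H 1 s l) (c l) (slam F (o 1) ω)).eval τ| ≤ 2 ^ x / 2 ^ g₀ 1 l
  vel2 : ∀ ω, B ω → ∀ l ≤ r + 1,
    |bd F ω (some (c l)) - dd (G 2 (ptr F J ω) l) (bt F ω) (bd F ω)| ≤
      2 ^ x * 2 ^ o 2 / 2 ^ g₀ 2 l
  n0 : ∀ j < r, s j ≤ g₀ 0 j + q₀ + x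
  n1d : ∀ j < r, g₀ 1 j ≤ s j + x
  n1f : ∀ j < r, g₀ 1 j ≤ g 1 j + x
  n2a : ∀ j < r, g₀ 2 j ≤ s j + Q + x
  n2b : ∀ j < r, s j + Q ≤ g₀ 2 j + x
  n2c : ∀ j < r, g₀ 2 j ≤ g 0 j + (o 2 - o 0) + x
  n3a : ∀ j < r, g₀ 3 j ≤ g 0 j + (o 3 - o 0) + x
  n3b : ∀ j < r, g₀ 3 j ≤ s j + (o 3 - o 1) + x
  n3c : ∀ j < r, gT 3 j ≤ g₀ 3 j + (ar - o 3) + x
  u0 : g₀ 1 r ≤ su + x
  u1 : su ≤ g 1 r + x
  u1' : su ≤ g₀ 1 r + x
  u2 : su + Q ≤ g₀ 2 r + x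
  u2' : g₀ 2 r ≤ g 2 r + x
  u3 : g₀ 2 r + (o 3 - o 2) ≤ g₀ 3 r + x
  u4 : g₀ 3 r + (ar - o 3) ≤ gc 3 r + x
  u5 : gc 3 r ≤ gT 3 r + x
  m1 : s r ≤ g 1 (r + 1) + x
  m1' : s r ≤ g₀ 1 (r + 1) + x
  m2 : s r + MB ≤ g₀ 2 (r + 1) + x
  m2' : s r + MB ≤ g 2 (r + 1) + x
  m3 : s r + (o 3 - o 1) + (MB - Q) ≤ g₀ 3 (r + 1) + x
  mp : s r + (ar - o 1) + (MB - Q) ≤ p + x
  QM : Q ≤ MB
  q0M : MB + Q ≤ q₀
  qeM : ∀ i, MB + Q ≤ qe i
  dCL : ∀ L, (CL L).totalDegree ≤ D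
  dCp : ∀ y, (Cp y).totalDegree ≤ D
  pCL : ∀ L, DepC c r (CL L)
  pCp : ∀ y, DepC c r (Cp y)
  clC : ∀ ω, B ω → Cp (ptr F J ω) = CL (slam F (o 1) ω)
  hC1 : ∀ ω, B ω → ∀ b, NBx c (G 1 (ptr F J ω)) (g₀ 1) (o 1) (F.t ω) (r + 1) b →
    |eval b (pderiv (some (c r)) (G 1 (ptr F J ω) (r + 1))) - eval b (Cp (ptr F J ω))| ≤
      2 ^ (su + x) / 2 ^ s r
  hC2 : ∀ ω, B ω → ∀ b, NBx c (G 2 (ptr F J ω)) (g₀ 2) (o 2) (F.t ω) (r + 1) b →
    |eval b (pderiv (some (c r)) (G 2 (ptr F J ω) (r + 1))) - eval b (Cp (ptr F J ω))| ≤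
      2 ^ (g₀ 2 r + x) / 2 ^ (s r + MB)
  hCt : ∀ ω, B ω → |eval (bt F ω) (pderiv (some (c r)) (Ht (slam F (o 1) ω))) -
    eval (bt F ω) (Cp (ptr F J ω))| ≤ 2 ^ (su + x) / 2 ^ (s r + (MB - Q))

section one

variable {m J : ℕ} {F : Fam m J}

theorem bt_none' (ω : F.Ω) : bt F ω none = F.t ω := rfl

theorem bt_some' (ω : F.Ω) (k : Fin m) : bt F ω (some k) = F.x ω k := rfl

/-- The sample is in the natural boxes. -/
theorem bt_box {c : ℕ → Fin m} {R i a w e : ℕ} {K : ℕ → ℕ} {g : ℕ → ℕ} {B : F.Ω → Prop}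
    {G : PtT F → ℕ → MvPolynomial (Option (Fin m)) ℝ}
    {H : LnT F → ℕ → MvPolynomial (Option (Fin m)) ℝ} (h : ChOK F c R K a w e g B G H)
    (hi : i ≤ R) {ω : F.Ω} (hω : B ω) (a' : ℕ) : NBx c (G (ptr F J ω)) g a' (F.t ω) i (bt F ω) := by
  refine ⟨?_, fun l hl => h.pos ω hω l (by omega)⟩
  rw [bt_none', sub_self, abs_zero]
  positivity

/-- The next coordinate on the chart. -/
theorem box_up {c : ℕ → Fin m} {r : ℕ} (hc : Set.InjOn c (Set.Iio (r + 1)))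
    {G : ℕ → MvPolynomial (Option (Fin m)) ℝ} (hG : ∀ l, DepC c l (G l)) {g : ℕ → ℕ} {a : ℕ}
    {t : ℝ} {b : Option (Fin m) → ℝ} (hb : NBx c G g a t r b) {v : ℝ}
    (hv : |v - eval b (G r)| ≤ 1 / 2 ^ g r) : NBx c G g a t (r + 1) (up (c r) b v) := by
  have hne : ∀ l < r, c l ≠ c r := fun l hl he => by
    have := hc (Set.mem_Iio.2 (show l < r + 1 by omega)) (Set.mem_Iio.2 (Nat.lt_succ_self r)) he
    omega
  have he : ∀ l ≤ r, eval (up (c r) b v) (G l) = eval b (G l) := fun l hl =>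
    hG l _ _ (up_none _ _ _) fun i hi => up_ne (hne i (by omega)) _ _
  refine ⟨by rw [up_none]; exact hb.1, fun l hl => ?_⟩
  rw [he l (by omega)]
  rcases Nat.lt_or_ge l r with h | h
  · rw [up_ne (hne l h)]
    exact hb.2 l h
  · have : l = r := by omega
    subst this
    rw [up_self]
    exact hv

/-- Polynomials of the first coordinates do not see the next one. -/
theorem eval_up {c : ℕ → Fin m} {r : ℕ} (hc : Set.InjOn c (Set.Iio (r + 1)))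
    {R : MvPolynomial (Option (Fin m)) ℝ} (hR : DepC c r R) (b : Option (Fin m) → ℝ) (v : ℝ) :
    eval (up (c r) b v) R = eval b R :=
  hR _ _ (up_none _ _ _) fun l hl => up_ne (fun he => by
    have := hc (Set.mem_Iio.2 (show l < r + 1 by omega)) (Set.mem_Iio.2 (Nat.lt_succ_self r)) he
    omega) _ _

/-- The point of the own line in its window. -/
theorem ptw_time {w : ℕ} (hw : w ≤ J) (ω : F.Ω) {τ : ℝ} (hτ : τ ∈ Set.Icc (0 : ℝ) 1) :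
    |ptw F w ω τ none - F.t ω| ≤ 1 / 2 ^ w := by
  have h1 : ∀ u : ℝ, ptw F w ω u none = ((slam F w ω).2.2 : ℝ) / 2 ^ w + 1 / 2 ^ w * u := by
    intro u
    show (Polynomial.C _ + Polynomial.C _ * Polynomial.X).eval u = _
    simp only [Polynomial.eval_add, Polynomial.eval_mul, Polynomial.eval_C, Polynomial.eval_X]
  have h2 : F.t ω = ((slam F w ω).2.2 : ℝ) / 2 ^ w + 1 / 2 ^ w * rt F w ω := by
    rw [← h1, ptw_rt F hw]
    rfl
  have h3 := rt_mem F w ω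
  rw [h1, h2]
  have e1 : ((slam F w ω).2.2 : ℝ) / 2 ^ w + 1 / 2 ^ w * τ -
      (((slam F w ω).2.2 : ℝ) / 2 ^ w + 1 / 2 ^ w * rt F w ω) =
      1 / 2 ^ w * (τ - rt F w ω) := by ring
  rw [e1, abs_mul, abs_of_pos (show (0 : ℝ) < 1 / 2 ^ w by positivity)]
  refine mul_le_of_le_one_right (by positivity) ?_
  rw [abs_le]
  constructor <;> linarith [hτ.1, hτ.2, h3.1, h3.2]

/-- **A chart against the chart of a ball**, shifted to the sample. -/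
theorem shf_b {c : ℕ → Fin m} {R n M ar x e k k' q D l : ℕ} {o : ℕ → ℕ}
    {z g gc gT g₀ : ℕ → ℕ → ℕ} {B : F.Ω → Prop}
    {G T : ℕ → PtT F → ℕ → MvPolynomial (Option (Fin m)) ℝ}
    {H : ℕ → LnT F → ℕ → MvPolynomial (Option (Fin m)) ℝ}
    (hB : BalE F c R n M ar o z g gc gT g₀ (2 ^ x) B G T) (hk : k ≤ n) (hk' : k' ≤ n) (hq : q ≤ M)
    (ho : o k ≤ o k') (hz : z k q = o k' - o k)
    (hch : ChOK F c (R + 1) (fun _ => D) (o k') (o k') e (g₀ k') B (G k') (H k')) {ω : F.Ω}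
    (hω : B ω) (hl : l ≤ R) {b : Option (Fin m) → ℝ}
    (hb : NBx c (G k' (ptr F J ω)) (g₀ k') (o k') (F.t ω) l b) :
    |eval b (G k (ptr F J ω) l) + (F.x ω (c l) - eval (bt F ω) (G k (ptr F J ω) l)) -
      eval b (G k' (ptr F J ω) l)| ≤
      2 ^ (x + 2) / 2 ^ min (g k l + (o k' - o k)) (g₀ k' l) := by
  obtain ⟨κ', hκ'⟩ : ∃ κ' : ℝ, ∀ b, eval b (Gno (c l) J J (fun y => G k y l) (ptr F J ω)) =
      eval b (G k (ptr F J ω) l) + κ' := by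
    refine ⟨((ptr F J ω).1 (c l) : ℝ) / 2 ^ J -
      eval (bho J J (ptr F J ω)) (G k (ptr F J ω) l), fun b => ?_⟩
    unfold Gno
    rw [map_add, eval_C]
  have h1 := hB.bal k hk k' hk' q hq ho hz ω hω l hl b hb
  have h2 := hB.bal k hk k' hk' q hq ho hz ω hω l hl (bt F ω) (bt_box hch (by omega) hω _)
  have h3 := hch.pos ω hω l (by omega)
  rw [hκ'] at h1 h2
  have h4 : (1 : ℝ) / 2 ^ g₀ k' l ≤ 2 ^ x / 2 ^ min (g k l + (o k' - o k)) (g₀ k' l) :=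
    div_le_div₀ (by positivity) (one_le_pow₀ (by norm_num)) (by positivity)
      (pow_le_pow_right₀ (by norm_num) (min_le_right _ _))
  have e1 : eval b (G k (ptr F J ω) l) + (F.x ω (c l) - eval (bt F ω) (G k (ptr F J ω) l)) -
      eval b (G k' (ptr F J ω) l) =
      (eval b (G k (ptr F J ω) l) + κ' - eval b (G k' (ptr F J ω) l)) -
      (eval (bt F ω) (G k (ptr F J ω) l) + κ' - eval (bt F ω) (G k' (ptr F J ω) l)) +
      (F.x ω (c l) - eval (bt F ω) (G k' (ptr F J ω) l)) := by ring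
  rw [e1]
  refine (abs_add_le _ _).trans ((add_le_add ((abs_sub _ _).trans (add_le_add h1 h2))
    (h3.trans h4)).trans ?_)
  rw [pow_add]
  have h5 : (0 : ℝ) ≤ 2 ^ x / 2 ^ min (g k l + (o k' - o k)) (g₀ k' l) := by positivity
  have e2 : (2 : ℝ) ^ x * 2 ^ 2 / 2 ^ min (g k l + (o k' - o k)) (g₀ k' l) =
      4 * (2 ^ x / 2 ^ min (g k l + (o k' - o k)) (g₀ k' l)) := by ring
  rw [e2]
  linarith

end one

section nv

variable {m J : ℕ} {F : Fam m J} {c : ℕ → Fin m} {r D n M ar MB q₀ Q x p e su : ℕ}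
  {s : ℕ → ℕ} {qe : Fin r → ℕ} {o : ℕ → ℕ} {z g gc gT g₀ : ℕ → ℕ → ℕ} {B : F.Ω → Prop}
  {G T : ℕ → PtT F → ℕ → MvPolynomial (Option (Fin m)) ℝ}
  {H TH : ℕ → LnT F → ℕ → MvPolynomial (Option (Fin m)) ℝ}
  {Ht CL : LnT F → MvPolynomial (Option (Fin m)) ℝ}
  {Cp : PtT F → MvPolynomial (Option (Fin m)) ℝ}

theorem NvD.hc1 (W : NvD F c r D n M ar MB q₀ Q x p e su s qe o z g gc gT g₀ B G T H TH Ht CL Cp) :
    Set.InjOn c (Set.Iio (r + 1)) := W.hc.mono fun y hy => by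
  rw [Set.mem_Iio] at hy ⊢
  omega

theorem NvD.hcr (W : NvD F c r D n M ar MB q₀ Q x p e su s qe o z g gc gT g₀ B G T H TH Ht CL Cp) :
    Set.InjOn c (Set.Iio r) := W.hc.mono fun y hy => by
  rw [Set.mem_Iio] at hy ⊢
  omega

/-- Powers of two. -/
theorem p2_le {a b k : ℕ} (h : a ≤ b + k) : (1 : ℝ) / 2 ^ b ≤ 2 ^ k / 2 ^ a := by
  rw [div_le_div_iff₀ (by positivity) (by positivity), one_mul, ← pow_add, Nat.add_comm k b]
  exact pow_le_pow_right₀ (by norm_num) h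

theorem p2_le' {a b k j : ℕ} (h : a + j ≤ b + k) : (2 : ℝ) ^ j / 2 ^ b ≤ 2 ^ k / 2 ^ a := by
  rw [div_le_div_iff₀ (by positivity) (by positivity), ← pow_add, ← pow_add]
  exact pow_le_pow_right₀ (by norm_num) (by omega)

/-- **The frame.** -/
theorem NvD.frd (W : NvD F c r D n M ar MB q₀ Q x p e su s qe o z g gc gT g₀ B G T H TH Ht CL Cp)
    {D' x' : ℕ} (hD : D ≤ D') (hx : 2 * x + 2 ≤ x') :
    FrD F c r D' MB q₀ Q x' s qe o (g₀ 0) (g₀ 2) B (G 0) (G 2) (H 0) where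
  hc := W.hcr
  o1 := W.o1
  o2 := W.o2
  oJ := W.o3.trans W.oJ
  dG0 := fun y l => (W.dG 0 y l).trans hD
  pG0 := W.pG 0
  dG2 := fun y l => (W.dG 2 y l).trans hD
  pG2 := W.pG 2
  dH0 := fun y l => (W.dH 0 y l).trans hD
  cl0 := W.cl0
  own0 := fun ω hω l hl τ hτ => (W.own0 ω hω l hl τ hτ).trans
    (div_le_div_of_nonneg_right (pow_le_pow_right₀ (by norm_num) (by omega)) (by positivity))
  box0 := fun ω hω l hl b hb => by
    obtain ⟨q, hq, hz⟩ := W.z02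
    have h1 := shf_b W.bal (Nat.zero_le n) (show 2 ≤ n by have := W.n3; omega) hq
      (by have := W.o1; have := W.o2; omega) hz W.ch2 hω (show l ≤ r + 1 by omega) hb
    refine h1.trans (p2_le' ?_)
    have := W.n2c l hl
    rcases le_total (g 0 l + (o 2 - o 0)) (g₀ 2 l) with h | h
    · rw [min_eq_left h]
      omega
    · rw [min_eq_right h]
      omega
  n0 := fun j hj => by have := W.n0 j hj; omega
  n2a := fun j hj => by have := W.n2a j hj; omega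
  n2b := fun j hj => by have := W.n2b j hj; omega
  QM := W.QM
  q0M := W.q0M
  qeM := W.qeM

/-! ### The letters -/

/-- The closed chart of `N - C (u - H₁ᵤ)`, or the chart with `u` on its chart. -/
noncomputable def nA1 (c : ℕ → Fin m) (r : ℕ) (P : ℕ → MvPolynomial (Option (Fin m)) ℝ) :
    MvPolynomial (Option (Fin m)) ℝ := sb (c r) (P r) (P (r + 1))

/-- The polynomial `N - C (u - H₁ᵤ)` of a ball. -/
noncomputable def nf (c : ℕ → Fin m) (r : ℕ) (P P₁ : ℕ → MvPolynomial (Option (Fin m)) ℝ)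
    (K : MvPolynomial (Option (Fin m)) ℝ) : MvPolynomial (Option (Fin m)) ℝ :=
  P (r + 1) - K * (X (some (c r)) - P₁ r)

/-- The chart of the ball. -/
noncomputable def nA2 (c : ℕ → Fin m) (r : ℕ) (P P₁ : ℕ → MvPolynomial (Option (Fin m)) ℝ)
    (K : MvPolynomial (Option (Fin m)) ℝ) : MvPolynomial (Option (Fin m)) ℝ :=
  sb (c r) (P r) (P (r + 1)) - K * (P r - P₁ r)

section alg

variable {P P₁ : ℕ → MvPolynomial (Option (Fin m)) ℝ} {K : MvPolynomial (Option (Fin m)) ℝ}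

theorem eval_nf (b : Option (Fin m) → ℝ) : eval b (nf c r P P₁ K) =
    eval b (P (r + 1)) - eval b K * (b (some (c r)) - eval b (P₁ r)) := by
  unfold nf
  rw [map_sub, map_mul, map_sub, eval_X]

theorem eval_nA1 (b : Option (Fin m) → ℝ) : eval b (nA1 c r P) =
    eval (up (c r) b (eval b (P r))) (P (r + 1)) := eval_sb _ _ _ _

theorem eval_nf_up (hc : Set.InjOn c (Set.Iio (r + 1))) (hP₁ : DepC c r (P₁ r)) (hK : DepC c r K)
    (b : Option (Fin m) → ℝ) (v : ℝ) : eval (up (c r) b v) (nf c r P P₁ K) =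
    eval (up (c r) b v) (P (r + 1)) - eval b K * (v - eval b (P₁ r)) := by
  rw [eval_nf, up_self, eval_up hc hP₁, eval_up hc hK]

theorem eval_nA2 (hc : Set.InjOn c (Set.Iio (r + 1))) (hP₁ : DepC c r (P₁ r)) (hK : DepC c r K)
    (b : Option (Fin m) → ℝ) : eval b (nA2 c r P P₁ K) =
    eval (up (c r) b (eval b (P r))) (nf c r P P₁ K) := by
  rw [eval_nf_up hc hP₁ hK]
  unfold nA2
  rw [map_sub, eval_sb, map_mul, map_sub]

theorem pd_nf (hc : Set.InjOn c (Set.Iio (r + 1))) (hP₁ : DepC c r (P₁ r)) (hK : DepC c r K)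
    (b : Option (Fin m) → ℝ) : eval b (pderiv (some (c r)) (nf c r P P₁ K)) =
    eval b (pderiv (some (c r)) (P (r + 1))) - eval b K := by
  have hne : ∀ l < r, c l ≠ c r := fun l hl he => by
    have := hc (Set.mem_Iio.2 (show l < r + 1 by omega)) (Set.mem_Iio.2 (Nat.lt_succ_self r)) he
    omega
  unfold nf
  simp only [map_sub, map_add, map_mul, pderiv_mul, pderiv_X_self, map_one]
  rw [pd_zero hP₁ hne, pd_zero hK hne]
  ring

theorem dep_nf (hP : ∀ l, DepC c l (P l)) (hP₁ : DepC c r (P₁ r)) (hK : DepC c r K) :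
    DepC c (r + 1) (nf c r P P₁ K) := by
  intro b b' h0 h1
  rw [eval_nf, eval_nf, hP (r + 1) b b' h0 h1, hP₁ b b' h0 fun l hl => h1 l (by omega),
    hK b b' h0 fun l hl => h1 l (by omega), h1 r (Nat.lt_succ_self r)]

theorem dep_nA1 (hc : Set.InjOn c (Set.Iio (r + 1))) (hP : ∀ l, DepC c l (P l)) :
    DepC c r (nA1 c r P) := dep_sb hc (hP r) (hP (r + 1))

theorem dep_nA2 (hc : Set.InjOn c (Set.Iio (r + 1))) (hP : ∀ l, DepC c l (P l))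
    (hP₁ : DepC c r (P₁ r)) (hK : DepC c r K) : DepC c r (nA2 c r P P₁ K) := by
  intro b b' h0 h1
  unfold nA2
  rw [map_sub, map_sub, dep_sb hc (hP r) (hP (r + 1)) b b' h0 h1, map_mul, map_mul, map_sub,
    map_sub, hK b b' h0 h1, hP r b b' h0 h1, hP₁ b b' h0 h1]

theorem deg_nf (hP : ∀ l, (P l).totalDegree ≤ D) (hP₁ : (P₁ r).totalDegree ≤ D)
    (hK : K.totalDegree ≤ D) : (nf c r P P₁ K).totalDegree ≤ 2 * D + 1 := by
  unfold nf
  refine (totalDegree_sub _ _).trans (max_le ((hP _).trans (by omega)) ?_)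
  refine (totalDegree_mul _ _).trans ?_
  have h1 : (X (some (c r)) - P₁ r : MvPolynomial (Option (Fin m)) ℝ).totalDegree ≤ D + 1 :=
    (totalDegree_sub _ _).trans (max_le (by rw [totalDegree_X]; omega) (hP₁.trans (by omega)))
  omega

theorem deg_nA1 (hP : ∀ l, (P l).totalDegree ≤ D) :
    (nA1 c r P).totalDegree ≤ (D + 1) * (D + 1) :=
  (deg_sb (hP r) (hP (r + 1))).trans (Nat.mul_le_mul_right _ (Nat.le_succ D))

theorem deg_nA2 (hP : ∀ l, (P l).totalDegree ≤ D) (hP₁ : (P₁ r).totalDegree ≤ D)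
    (hK : K.totalDegree ≤ D) : (nA2 c r P P₁ K).totalDegree ≤ (D + 1) * (D + 1) := by
  unfold nA2
  refine (totalDegree_sub _ _).trans (max_le ((deg_sb (hP r) (hP (r + 1))).trans
    (Nat.mul_le_mul_right _ (Nat.le_succ D))) ?_)
  refine (totalDegree_mul _ _).trans ?_
  have h1 : (P r - P₁ r : MvPolynomial (Option (Fin m)) ℝ).totalDegree ≤ D :=
    (totalDegree_sub _ _).trans (max_le (hP r) hP₁)
  nlinarith

end alg

end nv

end Pool.V1E
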