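import Pool.Agent.H69.NE.Nvg

/-!
# The deterministic part of `TL` for the target `N - C (u - H₁ᵤ)`
-/

set_option autoImplicit false

namespace Pool.V1E

open Finset Real MvPolynomial
open Pool.KA Pool.KSAT Pool.PB Pool.GEN Pool.D2R Pool.D2G30 Pool.ISO Pool.CHT Pool.CHX
open Pool.PB.Trl (rt rt_mem t_rt)

/-- Larger losses: the frame. -/
theorem FrD.mono {m J : ℕ} {F : Fam m J} {c : ℕ → Fin m} {r D MB q₀ Q x x' : ℕ}
    {s : ℕ → ℕ} {qe : Fin r → ℕ} {o gf g2 : ℕ → ℕ} {B : F.Ω → Prop}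
    {Gf G2 : PtT F → ℕ → MvPolynomial (Option (Fin m)) ℝ}
    {Hf : LnT F → ℕ → MvPolynomial (Option (Fin m)) ℝ}
    (W : FrD F c r D MB q₀ Q x s qe o gf g2 B Gf G2 Hf) (h : x ≤ x') :
    FrD F c r D MB q₀ Q x' s qe o gf g2 B Gf G2 Hf where
  hc := W.hc
  o1 := W.o1
  o2 := W.o2
  oJ := W.oJ
  dG0 := W.dG0
  pG0 := W.pG0
  dG2 := W.dG2
  pG2 := W.pG2
  dH0 := W.dH0
  cl0 := W.cl0
  own0 := fun ω hω l hl τ hτ => (W.own0 ω hω l hl τ hτ).trans
    (div_le_div_of_nonneg_right (pow_le_pow_right₀ (by norm_num) h) (by positivity))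
  box0 := fun ω hω l hl b hb => (W.box0 ω hω l hl b hb).trans
    (div_le_div_of_nonneg_right (pow_le_pow_right₀ (by norm_num) h) (by positivity))
  n0 := fun j hj => (W.n0 j hj).trans (by omega)
  n2a := fun j hj => (W.n2a j hj).trans (by omega)
  n2b := fun j hj => (W.n2b j hj).trans (by omega)
  QM := W.QM
  q0M := W.q0M
  qeM := W.qeM

/-- Larger constants. -/
theorem TLd.mono {K d D Q MB N₀ : ℕ} {Y Y' : ℝ} {Ω Λ ζ α ε κ : Type} {B : Ω → Prop}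
    {L : Ω → Λ} {T : Ω → ℕ} {Z : Ω → ζ} {a : Ω → α} {E : Ω → ε} {X : ε → Fin (d + 1) → ℝ}
    {Pf : ζ → MvPolynomial (Fin d) ℝ} {Pg : ζ → Fin (d + 1) → MvPolynomial (Fin d) ℝ}
    {c : Λ → κ} {s : Ω → Fin d → ℝ} {ξ : Λ → Fin d → ℝ} {n : Λ → Polynomial ℝ}
    {Θ : Λ → Fin d → Polynomial ℝ} (h : TLd K d D Q MB N₀ Y B L T Z a E X Pf Pg c s ξ n Θ)
    (hY : Y ≤ Y') : TLd K d D Q MB N₀ Y' B L T Z a E X Pf Pg c s ξ n Θ where
  Tlt := h.Tlt
  ZT := h.ZT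
  Za := h.Za
  aT := h.aT
  LE := h.LE
  Xb := fun ω hω j => (h.Xb ω hω j).trans hY
  dgf := h.dgf
  dgg := h.dgg
  grd := h.grd
  bdf := fun ω hω β => (h.bdf ω hω β).trans hY
  bdg := fun ω hω β j => (h.bdg ω hω β j).trans hY
  s1 := h.s1
  sc := h.sc
  ξ0 := h.ξ0
  ξ1 := h.ξ1
  dgn := h.dgn
  bdn := fun ω hω j => (h.bdn ω hω j).trans hY
  val := fun ω hω => (h.val ω hω).trans (div_le_div_of_nonneg_right hY (by positivity))
  vel := fun ω hω => (h.vel ω hω).trans (div_le_div_of_nonneg_right hY (by positivity))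
  dgΘ := h.dgΘ
  cl := fun ω hω i => (h.cl ω hω i).trans (div_le_div_of_nonneg_right hY (by positivity))

/-- **The deterministic part of `TL` for the target `N - C (u - H₁ᵤ)`.** -/
theorem nv_tld (D r K : ℕ) (hK : 1 ≤ K)
    (hK' : (D + 1) * (D + 1) * ((D + 1) * (D + 1) + 1) ^ r ≤ K) : ∃ C : ℕ,
    ∀ {m J : ℕ} {F : Fam m J} {c : ℕ → Fin m}
    {n M ar MB q₀ Q x p e su : ℕ} {s : ℕ → ℕ} {qe : Fin r → ℕ} {o : ℕ → ℕ}
    {z g gc gT g₀ : ℕ → ℕ → ℕ} {B : F.Ω → Prop}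
    {G T : ℕ → PtT F → ℕ → MvPolynomial (Option (Fin m)) ℝ}
    {H TH : ℕ → LnT F → ℕ → MvPolynomial (Option (Fin m)) ℝ}
    {Ht CL : LnT F → MvPolynomial (Option (Fin m)) ℝ}
    {Cp : PtT F → MvPolynomial (Option (Fin m)) ℝ},
    NvD F c r D n M ar MB q₀ Q x p e su s qe o z g gc gT g₀ B G T H TH Ht CL Cp →
    ∀ {V V' : Type} (v : F.Ω → V) (v' : F.Ω → V') (vL : LnT F → V) (D' : ℕ),
    (D + 1) ^ (r + 4) ≤ D' →
    TLd K r D' Q MB (2 ^ (J - o 1)) (2 ^ (C * (x + 1))) B (slam F (o 1)) (twF F (o 1))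
      (kzF F c s r (o 1) Q v v' (G 0) (fun y => nA1 c r (G 1 y))
        (fun y => nA2 c r (G 2 y) (G 1 y) (Cp y)))
      (kaF F c s r (o 1) Q v (G 0) (fun y => nA1 c r (G 1 y)))
      (fun ω => eL c s r (o 1) qe (frH F r q₀ (H 0) (slam F (o 1) ω)) (slam F (o 1) ω))
      (Xe r qe) (Pfz c s r Q J ((D + 1) * (D + 1))) (Pgz c s r (o 1) Q J ((D + 1) * (D + 1)))
      (ctF F c s r (o 1) q₀ Q qe (H 0) (fun L => nA1 c r (H 1 L)) vL)
      (scF F c s r (o 1) q₀ Q qe (G 0) (H 0))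
      (fun L => xL c s r (o 1) Q (frH F r q₀ (H 0) L) L)
      (nT F s r (o 1) (n1p F c r (o 1) (H 1) CL) (fun L => nA1 c r (H 1 L)))
      (n1T F c s r (o 1) q₀ (H 0) (H 1) Ht CL) := by
  obtain ⟨C₁, htg⟩ := nv_tgd D r
  obtain ⟨C₂, hdet⟩ := tg_det ((D + 1) * (D + 1)) ((D + 1) ^ (r + 4)) r K hK hK'
  refine ⟨C₂ * (C₁ + 3), ?_⟩
  intro m J F c n M ar MB q₀ Q x p e su s qe o z g gc gT g₀ B G T H TH Ht CL Cp W V V' v v' vL D'
    hD'
  have hx : C₁ * (x + 1) ≤ (C₁ + 2) * (x + 1) := Nat.mul_le_mul_right _ (by omega)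
  have T := htg W
  have Fr := W.frd (D' := (D + 1) * (D + 1)) (x' := (C₁ + 2) * (x + 1)) (by nlinarith)
    (by nlinarith)
  have T' : TgD F c r ((D + 1) * (D + 1)) ((D + 1) ^ (r + 4)) MB Q ((C₁ + 2) * (x + 1)) s o (g₀ 2)
      B (G 0) (G 2) (n1y F c r (G 1) Cp) (n1v F c r (G 1) Cp) (n1p F c r (o 1) (H 1) CL)
      (fun y => nA1 c r (G 1 y)) (fun y => nA2 c r (G 2 y) (G 1 y) (Cp y))
      (fun L => nA1 c r (H 1 L)) (n1T F c s r (o 1) q₀ (H 0) (H 1) Ht CL) :=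
    { dnp := T.dnp
      vnp := T.vnp
      wnp := T.wnp
      dA1 := T.dA1
      pA1 := T.pA1
      dA2 := T.dA2
      pA2 := T.pA2
      dR1 := T.dR1
      cl1 := T.cl1
      box1 := fun ω hω => by
        obtain ⟨κ, h1, h2⟩ := T.box1 ω hω
        exact ⟨κ, h1.trans (div_le_div_of_nonneg_right (pow_le_pow_right₀ (by norm_num) hx)
          (by positivity)), fun b hb => (h2 b hb).trans (div_le_div_of_nonneg_right
          (pow_le_pow_right₀ (by norm_num) hx) (by positivity))⟩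
      own1 := fun ω hω τ hτ => (T.own1 ω hω τ hτ).trans
        (div_le_div_of_nonneg_right (pow_le_pow_right₀ (by norm_num) hx) (by positivity))
      pos2 := fun ω hω => (T.pos2 ω hω).trans
        (div_le_div_of_nonneg_right (pow_le_pow_right₀ (by norm_num) hx) (by positivity))
      vel2 := fun ω hω => (T.vel2 ω hω).trans (div_le_div_of_nonneg_right
        (mul_le_mul_of_nonneg_right (pow_le_pow_right₀ (by norm_num) hx) (by positivity))
        (by positivity))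
      dT := T.dT
      clo := fun ω hω i => (T.clo ω hω i).trans
        (div_le_div_of_nonneg_right (pow_le_pow_right₀ (by norm_num) hx) (by positivity)) }
  have hD1 : (D + 1) * (D + 1) ≤ D' := by
    refine le_trans ?_ hD'
    calc (D + 1) * (D + 1) = (D + 1) ^ 2 := by ring
      _ ≤ _ := Nat.pow_le_pow_right (by omega) (by omega)
  have h1 := hdet Fr T' v v' vL D' hD1 hD'
  refine h1.mono ?_
  refine pow_le_pow_right₀ (by norm_num) ?_
  nlinarith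

end Pool.V1E
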