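import Pool.Agent.H69.NE.Nvd
import Pool.Agent.H73.D2.Tlm

/-!
# `NvD` from finitely many windows on one event

`NvC`: the data of the polynomial `C`. `wins_nv`: `NvD` from four of the windows of `Wins` at the
level `r + 1`, the coordinates `c 0 .. c (r - 1)` rough, `c r` rough or thin. `wins_nv2`: the same
with numbers as multiples of `J`.
-/

set_option autoImplicit false

namespace Pool.V1E

open Finset Real MvPolynomial
open Pool.KA Pool.KSAT Pool.PB Pool.GEN Pool.D2R Pool.D2G30 Pool.ISO Pool.CHT Pool.CHX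
open Pool.PB.Trl (rt rt_mem t_rt)
open Pool.K2S (Sub)

/-- **The data of `C`**: a polynomial of the frame which is near the derivatives of the charts of
`N = c (r + 1)` in the direction `u = c r`. `su`, `sn`: the digits of `u` and of `N` at `o 1`. -/
structure NvC {m J : ℕ} (F : Fam m J) (c : ℕ → Fin m) (r D MB Q x su sn : ℕ) (o : ℕ → ℕ)
    (g₀ : ℕ → ℕ → ℕ) (B : F.Ω → Prop)
    (G : ℕ → PtT F → ℕ → MvPolynomial (Option (Fin m)) ℝ)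
    (Ht CL : LnT F → MvPolynomial (Option (Fin m)) ℝ)
    (Cp : PtT F → MvPolynomial (Option (Fin m)) ℝ) : Prop where
  dCL : ∀ L, (CL L).totalDegree ≤ D
  dCp : ∀ y, (Cp y).totalDegree ≤ D
  pCL : ∀ L, DepC c r (CL L)
  pCp : ∀ y, DepC c r (Cp y)
  clC : ∀ ω, B ω → Cp (ptr F J ω) = CL (slam F (o 1) ω)
  hC1 : ∀ ω, B ω → ∀ b, NBx c (G 1 (ptr F J ω)) (g₀ 1) (o 1) (F.t ω) (r + 1) b →
    |eval b (pderiv (some (c r)) (G 1 (ptr F J ω) (r + 1))) - eval b (Cp (ptr F J ω))| ≤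
      2 ^ (su + x) / 2 ^ sn
  hC2 : ∀ ω, B ω → ∀ b, NBx c (G 2 (ptr F J ω)) (g₀ 2) (o 2) (F.t ω) (r + 1) b →
    |eval b (pderiv (some (c r)) (G 2 (ptr F J ω) (r + 1))) - eval b (Cp (ptr F J ω))| ≤
      2 ^ (g₀ 2 r + x) / 2 ^ (sn + MB)
  hCt : ∀ ω, B ω → |eval (bt F ω) (pderiv (some (c r)) (Ht (slam F (o 1) ω))) -
    eval (bt F ω) (Cp (ptr F J ω))| ≤ 2 ^ (su + x) / 2 ^ (sn + (MB - Q))

/-- The data of `C` in `NvD`. -/
theorem NvD.toC {m J : ℕ} {F : Fam m J} {c : ℕ → Fin m} {r D n M ar MB q₀ Q x p e su : ℕ}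
    {s : ℕ → ℕ} {qe : Fin r → ℕ} {o : ℕ → ℕ} {z g gc gT g₀ : ℕ → ℕ → ℕ} {B : F.Ω → Prop}
    {G T : ℕ → PtT F → ℕ → MvPolynomial (Option (Fin m)) ℝ}
    {H TH : ℕ → LnT F → ℕ → MvPolynomial (Option (Fin m)) ℝ}
    {Ht CL : LnT F → MvPolynomial (Option (Fin m)) ℝ}
    {Cp : PtT F → MvPolynomial (Option (Fin m)) ℝ}
    (W : NvD F c r D n M ar MB q₀ Q x p e su s qe o z g gc gT g₀ B G T H TH Ht CL Cp) :
    NvC F c r D MB Q x su (s r) o g₀ B G Ht CL Cp :=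
  ⟨W.dCL, W.dCp, W.pCL, W.pCp, W.clC, W.hC1, W.hC2, W.hCt⟩

/-- Smaller events and larger losses. -/
theorem NvC.mono {m J : ℕ} {F : Fam m J} {c : ℕ → Fin m} {r D MB Q x x' su sn : ℕ} {o : ℕ → ℕ}
    {g₀ : ℕ → ℕ → ℕ} {B B' : F.Ω → Prop}
    {G : ℕ → PtT F → ℕ → MvPolynomial (Option (Fin m)) ℝ}
    {Ht CL : LnT F → MvPolynomial (Option (Fin m)) ℝ}
    {Cp : PtT F → MvPolynomial (Option (Fin m)) ℝ}
    (W : NvC F c r D MB Q x su sn o g₀ B G Ht CL Cp) (hB : Sub B' B) (hx : x ≤ x') :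
    NvC F c r D MB Q x' su sn o g₀ B' G Ht CL Cp where
  dCL := W.dCL
  dCp := W.dCp
  pCL := W.pCL
  pCp := W.pCp
  clC := fun ω hω => W.clC ω (hB ω hω)
  hC1 := fun ω hω b hb => (W.hC1 ω (hB ω hω) b hb).trans (div_le_div_of_nonneg_right
    (pow_le_pow_right₀ (by norm_num) (by omega)) (by positivity))
  hC2 := fun ω hω b hb => (W.hC2 ω (hB ω hω) b hb).trans (div_le_div_of_nonneg_right
    (pow_le_pow_right₀ (by norm_num) (by omega)) (by positivity))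
  hCt := fun ω hω => (W.hCt ω (hB ω hω)).trans (div_le_div_of_nonneg_right
    (pow_le_pow_right₀ (by norm_num) (by omega)) (by positivity))

variable {m J : ℕ}

/-- **The data of the target `N - C (u - H₁ᵤ)` from `Wins`.** -/
theorem wins_nv {F : Fam m J} {c : ℕ → Fin m} {r D Dr N M : ℕ} {R : ℕ → Prop}
    {C₀ a Eb ηm : ℝ} {o ε p' η σ : ℕ → ℝ} {lv be b : ℕ → ℕ → ℝ} {κ : ℝ} {z : ℕ → ℕ → ℕ}
    {B B' : F.Ω → Prop} {gc gT g₀ : ℕ → ℕ → ℕ}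
    {G : ℕ → PtT F → ℕ → MvPolynomial (Option (Fin m)) ℝ}
    {H : ℕ → LnT F → ℕ → MvPolynomial (Option (Fin m)) ℝ}
    {T : ℕ → PtT F → ℕ → MvPolynomial (Option (Fin m)) ℝ}
    {TH : ℕ → LnT F → ℕ → MvPolynomial (Option (Fin m)) ℝ}
    {Gt : ℕ → PtT F → MvPolynomial (Option (Fin m)) ℝ}
    {Ht : ℕ → LnT F → MvPolynomial (Option (Fin m)) ℝ}
    (W : Wins F c (r + 1) D Dr N M R C₀ a Eb ηm o ε p' η σ lv be b κ z B gc gT g₀ G H T TH Gt Ht)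
    (hB : Sub B' B) {CL : LnT F → MvPolynomial (Option (Fin m)) ℝ}
    {Cp : PtT F → MvPolynomial (Option (Fin m)) ℝ}
    {f : ℕ → ℕ} {MB q₀ Q x p su : ℕ} {s : ℕ → ℕ} {qe : Fin r → ℕ} {X : ℝ}
    (WC : NvC F c r D MB Q x su (s r) (fun k => ⌊o (f k) * J⌋₊) (fun k => g₀ (f k)) B'
      (fun k => G (f k)) (Ht (f 1)) CL Cp)
    (hc : Set.InjOn c (Set.Iio (r + 2))) (hf : ∀ k, f k ≤ N) (hR : ∀ l < r, R l)
    (hbe : ¬ R r → lv (f 3) r * J + ((⌊a * J⌋₊ : ℝ) - (⌊o (f 3) * J⌋₊ : ℝ)) ≤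
      be (f 3) r * J + X)
    (hu : C₀ * (ηm * J) ≤ x) (ha : a ≤ 1) (h12 : o (f 1) ≤ o (f 2)) (h23 : o (f 2) ≤ o (f 3))
    (o1 : ⌊o (f 1) * J⌋₊ = ⌊o (f 0) * J⌋₊ + q₀) (o2 : ⌊o (f 2) * J⌋₊ = ⌊o (f 1) * J⌋₊ + Q)
    (z02 : ∃ q ≤ M, z (f 0) q = ⌊o (f 2) * J⌋₊ - ⌊o (f 0) * J⌋₊)
    (z03 : ∃ q ≤ M, z (f 0) q = ⌊o (f 3) * J⌋₊ - ⌊o (f 0) * J⌋₊)
    (z12 : ∃ q ≤ M, z (f 1) q = ⌊o (f 2) * J⌋₊ - ⌊o (f 1) * J⌋₊)
    (z23 : ∃ q ≤ M, z (f 2) q = ⌊o (f 3) * J⌋₊ - ⌊o (f 2) * J⌋₊)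
    (hX0 : 0 ≤ X) (hx : 2 * X + ηm * J + 1 ≤ x)
    (hn : ∀ k ≤ 3, ∀ j < r, |lv (f k) j * J + (⌊o (f 1) * J⌋₊ : ℝ) -
      ((s j : ℝ) + (⌊o (f k) * J⌋₊ : ℝ))| ≤ X)
    (hs1 : (su : ℝ) ≤ lv (f 1) r * J + X) (hs2 : lv (f 1) r * J ≤ (su : ℝ) + X)
    (hu2 : (su : ℝ) + Q ≤ lv (f 2) r * J + X)
    (hu3 : lv (f 2) r * J + ((⌊o (f 3) * J⌋₊ : ℝ) - (⌊o (f 2) * J⌋₊ : ℝ)) ≤
      lv (f 3) r * J + X)
    (hs : (s r : ℝ) ≤ lv (f 1) (r + 1) * J + X)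
    (h2 : (s r : ℝ) + MB ≤ lv (f 2) (r + 1) * J + X)
    (h3 : (s r : ℝ) + ((⌊o (f 3) * J⌋₊ : ℝ) - (⌊o (f 1) * J⌋₊ : ℝ)) + ((MB : ℝ) - Q) ≤
      lv (f 3) (r + 1) * J + X)
    (hp0 : (p : ℝ) + C₀ * (ηm * J) ≤ p' (f 1) * J)
    (hp1 : (p : ℝ) + C₀ * (ηm * J) + ηm * J ≤ lv (f 3) (r + 1) * J +
      ((⌊a * J⌋₊ : ℝ) - (⌊o (f 3) * J⌋₊ : ℝ)))
    (hp : (s r : ℝ) + ((⌊a * J⌋₊ : ℝ) - (⌊o (f 1) * J⌋₊ : ℝ)) + ((MB : ℝ) - Q) ≤ p + X)
    (QM : Q ≤ MB) (q0M : MB + Q ≤ q₀) (qeM : ∀ i, MB + Q ≤ qe i) :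
    NvD F c r D 3 M ⌊a * J⌋₊ MB q₀ Q x p ⌊(Eb + 2 * ηm) * J⌋₊ su s qe
      (fun k => ⌊o (f k) * J⌋₊) (fun k => z (f k)) (fun k l => ⌊b (f k) l * J⌋₊)
      (fun k => gc (f k)) (fun k => gT (f k)) (fun k => g₀ (f k)) B' (fun k => G (f k))
      (fun k => T (f k)) (fun k => H (f k)) (fun k => TH (f k)) (Ht (f 1)) CL Cp := by
  have hJ : (0 : ℝ) ≤ J := Nat.cast_nonneg J
  have hC1 := W.C1
  have hC0 : 0 ≤ C₀ := by linarith
  have hηm0 : 0 ≤ ηm := (W.hη (f 0) (hf 0)).1.trans (W.hη (f 0) (hf 0)).2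
  have hηJ : 0 ≤ ηm * J := mul_nonneg hηm0 hJ
  have hk : ∀ k ≤ N, C₀ * (η k * J) ≤ C₀ * (ηm * J) := fun k hk =>
    mul_le_mul_of_nonneg_left (mul_le_mul_of_nonneg_right (W.hη k hk).2 hJ) hC0
  have hU : ∀ k ≤ N, (2 : ℝ) ^ ⌊C₀ * (η k * J)⌋₊ ≤ 2 ^ x := fun k hk' =>
    pow_le_pow_right₀ (by norm_num) (nat_le ((Nat.floor_le (mul_nonneg hC0
      (mul_nonneg (W.hη k hk').1 hJ))).trans ((hk k hk').trans hu)))
  have hUm : (2 : ℝ) ^ ⌊C₀ * (ηm * J)⌋₊ ≤ 2 ^ x :=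
    pow_le_pow_right₀ (by norm_num) (nat_le ((Nat.floor_le (mul_nonneg hC0 hηJ)).trans hu))
  have hfl : ∀ {i j : ℕ}, o i ≤ o j → ⌊o i * J⌋₊ ≤ ⌊o j * J⌋₊ := fun h =>
    Nat.floor_le_floor (mul_le_mul_of_nonneg_right h hJ)
  have he : ∀ k ≤ N, ⌊(Eb + σ k + η k) * J⌋₊ ≤ ⌊(Eb + 2 * ηm) * J⌋₊ := fun k hk' =>
    Nat.floor_le_floor (mul_le_mul_of_nonneg_right (by
      have := (W.hη k hk').2
      have := (W.hσ k hk').2
      linarith) hJ)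
  have hself : ∀ k ≤ N, ROut1 F c (r + 1) ⌊o k * J⌋₊ ⌊o k * J⌋₊ (⌊a * J⌋₊ - ⌊o k * J⌋₊) (g₀ k)
      (gT k) 0 (2 ^ x) B (G k) (H k) (T k) (TH k) (Ht k) := fun k hk' =>
    (W.row k hk' k hk' le_rfl 0 (by
      have := mul_le_mul_of_nonneg_right (W.hp' k hk') hJ
      rw [Nat.cast_zero, zero_add]
      linarith) (by
      rw [Nat.cast_zero, zero_add]
      exact W.hgr k hk')).mono le_rfl (by positivity) (hU k hk')
  have ho23 : ⌊o (f 2) * J⌋₊ ≤ ⌊o (f 3) * J⌋₊ := hfl h23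
  have ho12 : ⌊o (f 1) * J⌋₊ ≤ ⌊o (f 2) * J⌋₊ := hfl h12
  have hoa : ⌊o (f 3) * J⌋₊ ≤ ⌊a * J⌋₊ :=
    Nat.floor_le_floor (mul_le_mul_of_nonneg_right (W.ho (f 3) (hf 3)).2 hJ)
  have haJ : ⌊a * J⌋₊ ≤ J := by
    have h := Nat.floor_le_floor (mul_le_mul_of_nonneg_right ha hJ)
    rw [one_mul, Nat.floor_natCast] at h
    exact h
  have hgN : ∀ k l, l ≤ r + 1 → (lv (f k) l * J - ηm * J - 1 ≤ (⌊b (f k) l * J⌋₊ : ℝ)) ∧
      ((⌊b (f k) l * J⌋₊ : ℝ) ≤ lv (f k) l * J) ∧ (lv (f k) l * J - ηm * J ≤ (g₀ (f k) l : ℝ)) ∧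
      ((g₀ (f k) l : ℝ) ≤ lv (f k) l * J) ∧
      (lv (f k) l * J - ηm * J + (⌊a * J⌋₊ - ⌊o (f k) * J⌋₊) ≤ (gc (f k) l : ℝ)) ∧
      ((gc (f k) l : ℝ) ≤ lv (f k) l * J + (⌊a * J⌋₊ - ⌊o (f k) * J⌋₊)) := fun k l hl =>
    W.g_num (hf k) hl
  have hnn : ∀ k ≤ 3, ∀ j < r, lv (f k) j * J + (⌊o (f 1) * J⌋₊ : ℝ) ≤
      (s j : ℝ) + (⌊o (f k) * J⌋₊ : ℝ) + X ∧ (s j : ℝ) + (⌊o (f k) * J⌋₊ : ℝ) ≤
      lv (f k) j * J + (⌊o (f 1) * J⌋₊ : ℝ) + X := fun k hk' j hj => by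
    have := abs_le.1 (hn k hk' j hj)
    constructor <;> linarith [this.1, this.2]
  have o1R : (⌊o (f 1) * J⌋₊ : ℝ) = (⌊o (f 0) * J⌋₊ : ℝ) + q₀ := by exact_mod_cast o1
  have o2R : (⌊o (f 2) * J⌋₊ : ℝ) = (⌊o (f 1) * J⌋₊ : ℝ) + Q := by exact_mod_cast o2
  have c02 : ((⌊o (f 2) * J⌋₊ - ⌊o (f 0) * J⌋₊ : ℕ) : ℝ) = (q₀ : ℝ) + Q := by
    rw [Nat.cast_sub (by omega)]
    linarith
  have c03 : ((⌊o (f 3) * J⌋₊ - ⌊o (f 0) * J⌋₊ : ℕ) : ℝ) =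
      (⌊o (f 3) * J⌋₊ : ℝ) - (⌊o (f 0) * J⌋₊ : ℝ) := Nat.cast_sub (by omega)
  have c13 : ((⌊o (f 3) * J⌋₊ - ⌊o (f 1) * J⌋₊ : ℕ) : ℝ) =
      (⌊o (f 3) * J⌋₊ : ℝ) - (⌊o (f 1) * J⌋₊ : ℝ) := Nat.cast_sub (by omega)
  have c23 : ((⌊o (f 3) * J⌋₊ - ⌊o (f 2) * J⌋₊ : ℕ) : ℝ) =
      (⌊o (f 3) * J⌋₊ : ℝ) - (⌊o (f 2) * J⌋₊ : ℝ) := Nat.cast_sub ho23
  have ca3 : ((⌊a * J⌋₊ - ⌊o (f 3) * J⌋₊ : ℕ) : ℝ) =
      (⌊a * J⌋₊ : ℝ) - (⌊o (f 3) * J⌋₊ : ℝ) := Nat.cast_sub hoa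
  have ca1 : ((⌊a * J⌋₊ - ⌊o (f 1) * J⌋₊ : ℕ) : ℝ) =
      (⌊a * J⌋₊ : ℝ) - (⌊o (f 1) * J⌋₊ : ℝ) := Nat.cast_sub (by omega)
  have cMQ : ((MB - Q : ℕ) : ℝ) = (MB : ℝ) - Q := Nat.cast_sub QM
  refine
    { hc := hc
      bal := ⟨fun k hk ω hω => (W.bal.sel (n := 3) (fun k _ => hf k) hUm).inc k hk ω (hB ω hω),
        fun k hk k' hk' q hq h1 h2 ω hω =>
          (W.bal.sel (n := 3) (fun k _ => hf k) hUm).bal k hk k' hk' q hq h1 h2 ω (hB ω hω)⟩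
      n3 := le_rfl
      o1 := o1
      o2 := o2
      o3 := ho23
      oa := hoa
      oJ := hoa.trans haJ
      z02 := z02
      z03 := z03
      z12 := z12
      z23 := z23
      dG := fun k y l => (W.evs (f k) (hf k)).ball.degG y l
      pG := fun k y l => (W.evs (f k) (hf k)).ball.depG y l
      dH := fun k s l => (W.evs (f k) (hf k)).ball.degH s l
      pH := fun k s l => (W.evs (f k) (hf k)).ball.depH s l
      dt := (W.evs (f 1) (hf 1)).dH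
      pt := (W.evs (f 1) (hf 1)).pH
      ch1 := ((W.evs (f 1) (hf 1)).ball.sub hB).mono le_rfl (fun _ => le_rfl) le_rfl
        (he _ (hf 1))
      ch2 := ((W.evs (f 2) (hf 2)).ball.sub hB).mono le_rfl (fun _ => le_rfl) le_rfl
        (he _ (hf 2))
      ch3 := ((W.evs (f 3) (hf 3)).ball.sub hB).mono le_rfl (fun _ => le_rfl) le_rfl
        (he _ (hf 3))
      thin := ?_
      ro := (((W.row (f 1) (hf 1) (f 3) (hf 3) (h12.trans h23) p ((add_le_add le_rfl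
        (hk _ (hf 3))).trans hp0) ?_).mono le_rfl (by positivity) (hU _ (hf 3))).sub hB)
      hT := fun j hj y => ((W.evs (f 3) (hf 3)).rgh j (by omega) (hR j hj)).2.1 y
      hTH := fun j hj s => ((W.evs (f 3) (hf 3)).rgh j (by omega) (hR j hj)).2.2 s
      cl0 := fun ω hω l hl => (W.evs (f 0) (hf 0)).cls ω (hB ω hω) l (by omega)
      cl1 := fun ω hω l hl => (W.evs (f 1) (hf 1)).cls ω (hB ω hω) l (by omega)
      own0 := fun ω hω l hl τ hτ => (hself _ (hf 0)).own ω (hB ω hω) l (by omega) τ hτ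
      own1 := fun ω hω l hl τ hτ => (hself _ (hf 1)).own ω (hB ω hω) l hl τ hτ
      vel2 := fun ω hω l hl => W.vel (hf 2) hu ω ω (hB ω hω) (hB ω hω) rfl l hl
      n0 := fun j hj => nat_le ?_
      n1d := fun j hj => nat_le ?_
      n1f := fun j hj => nat_le ?_
      n2a := fun j hj => nat_le ?_
      n2b := fun j hj => nat_le ?_
      n2c := fun j hj => nat_le ?_
      n3a := fun j hj => nat_le ?_
      n3b := fun j hj => nat_le ?_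
      n3c := fun j hj => nat_le ?_
      u0 := nat_le ?_
      u1 := nat_le ?_
      u1' := nat_le ?_
      u2 := nat_le ?_
      u2' := nat_le ?_
      u3 := nat_le ?_
      u4 := nat_le ?_
      u5 := nat_le ?_
      m1 := nat_le ?_
      m1' := nat_le ?_
      m2 := nat_le ?_
      m2' := nat_le ?_
      m3 := nat_le ?_
      mp := nat_le ?_
      QM := QM
      q0M := q0M
      qeM := qeM
      dCL := WC.dCL
      dCp := WC.dCp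
      pCL := WC.pCL
      pCp := WC.pCp
      clC := WC.clC
      hC1 := WC.hC1
      hC2 := WC.hC2
      hCt := WC.hCt }
  · -- the thin chain
    have h4 := ((W.evs (f 3) (hf 3)).thin.sub hB).mono le_rfl (fun _ => le_rfl) le_rfl
      (he _ (hf 3))
    have h6 : ⌊o (f 3) * J⌋₊ + (⌊a * J⌋₊ - ⌊o (f 3) * J⌋₊) = ⌊a * J⌋₊ := by omega
    rw [h6] at h4
    exact h4
  · -- the side of the deep ball
    have h4 := (hgN 3 (r + 1) le_rfl).2.2.2.2.1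
    have h5 := hk _ (hf 3)
    linarith
  · have h4 := (hgN 0 j (by omega)).2.2.1
    have h5 := hnn 0 (by norm_num) j hj
    push_cast
    linarith [h5.1, h5.2]
  · have h4 := (hgN 1 j (by omega)).2.2.2.1
    have h5 := hnn 1 (by norm_num) j hj
    rw [Nat.cast_add]
    linarith [h5.1, h5.2]
  · have h4 := (hgN 1 j (by omega)).2.2.2.1
    have h5 := (hgN 1 j (by omega)).1
    rw [Nat.cast_add]
    linarith
  · have h4 := (hgN 2 j (by omega)).2.2.2.1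
    have h5 := hnn 2 (by norm_num) j hj
    push_cast
    linarith [h5.1, h5.2]
  · have h4 := (hgN 2 j (by omega)).2.2.1
    have h5 := hnn 2 (by norm_num) j hj
    push_cast
    linarith [h5.1, h5.2]
  · have h4 := (hgN 2 j (by omega)).2.2.2.1
    have h6 := (hgN 0 j (by omega)).1
    have h5 := hnn 2 (by norm_num) j hj
    have h7 := hnn 0 (by norm_num) j hj
    rw [Nat.cast_add, Nat.cast_add, c02]
    linarith [h5.1, h5.2, h7.1, h7.2]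
  · have h4 := (hgN 3 j (by omega)).2.2.2.1
    have h6 := (hgN 0 j (by omega)).1
    have h5 := hnn 3 (by norm_num) j hj
    have h7 := hnn 0 (by norm_num) j hj
    rw [Nat.cast_add, Nat.cast_add, c03]
    linarith [h5.1, h5.2, h7.1, h7.2]
  · have h4 := (hgN 3 j (by omega)).2.2.2.1
    have h5 := hnn 3 (by norm_num) j hj
    rw [Nat.cast_add, Nat.cast_add, c13]
    linarith [h5.1, h5.2]
  · have h4 := (hgN 3 j (by omega)).2.2.1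
    have h6 := ((W.t_num (hf 3) (show j < r + 1 by omega)).1 (hR j hj)).2
    rw [Nat.cast_add, Nat.cast_add, ca3]
    linarith
  · have h4 := (hgN 1 r (by omega)).2.2.2.1
    rw [Nat.cast_add]
    linarith
  · have h4 := (hgN 1 r (by omega)).1
    rw [Nat.cast_add]
    linarith
  · have h4 := (hgN 1 r (by omega)).2.2.1
    rw [Nat.cast_add]
    linarith
  · have h4 := (hgN 2 r (by omega)).2.2.1
    rw [Nat.cast_add, Nat.cast_add]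
    linarith
  · have h4 := (hgN 2 r (by omega)).2.2.2.1
    have h5 := (hgN 2 r (by omega)).1
    rw [Nat.cast_add]
    linarith
  · have h4 := (hgN 2 r (by omega)).2.2.2.1
    have h5 := (hgN 3 r (by omega)).2.2.1
    rw [Nat.cast_add, Nat.cast_add, c23]
    linarith
  · have h4 := (hgN 3 r (by omega)).2.2.2.1
    have h5 := (hgN 3 r (by omega)).2.2.2.2.1
    rw [Nat.cast_add, Nat.cast_add, ca3]
    linarith
  · by_cases hRr : R r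
    · have h4 := ((W.evs (f 3) (hf 3)).rgh r (by omega) hRr).1
      rw [← h4, Nat.cast_add]
      linarith
    · have h4 := ((W.t_num (hf 3) (show r < r + 1 by omega)).2 hRr).1
      have h5 := (hgN 3 r (by omega)).2.2.2.2.2
      have h6 := hbe hRr
      rw [Nat.cast_add]
      linarith
  · have h4 := (hgN 1 (r + 1) le_rfl).1
    rw [Nat.cast_add]
    linarith
  · have h4 := (hgN 1 (r + 1) le_rfl).2.2.1
    rw [Nat.cast_add]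
    linarith
  · have h4 := (hgN 2 (r + 1) le_rfl).2.2.1
    rw [Nat.cast_add, Nat.cast_add]
    linarith
  · have h4 := (hgN 2 (r + 1) le_rfl).1
    rw [Nat.cast_add, Nat.cast_add]
    linarith
  · have h4 := (hgN 3 (r + 1) le_rfl).2.2.1
    rw [Nat.cast_add, Nat.cast_add, Nat.cast_add, c13, cMQ]
    linarith
  · rw [Nat.cast_add, Nat.cast_add, Nat.cast_add, ca1, cMQ]
    linarith

end Pool.V1E
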