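import Pool.Agent.H69.NE.Nvk

/-!
# `NvD` and `TLd` from `Wins`, with real numbers

`wins_nv2`: `NvD` from `Wins` at the level `r + 1`, numbers as multiples of `J`. `wins_nvt`: `NvD`
and the deterministic part of `TL` for the target `N - C (u - H₁ᵤ)`, at all large scales, constant
`2 ^ (δ * Q)`.
-/

set_option autoImplicit false

namespace Pool.V1E

open Finset Real MvPolynomial
open Pool.KA Pool.KSAT Pool.PB Pool.GEN Pool.D2R Pool.D2G30 Pool.ISO Pool.CHT Pool.CHX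
open Pool.PB.Trl (rt rt_mem t_rt)
open Pool.K2S (Sub)

variable {m J : ℕ}

/-- **`NvD` from `Wins`, numbers as multiples of `J`.** -/
theorem wins_nv2 {F : Fam m J} {c : ℕ → Fin m} {r D Dr N M : ℕ} {R : ℕ → Prop}
    {C₀ a Eb ηm : ℝ} {o ε p' η σ : ℕ → ℝ} {lv be b : ℕ → ℕ → ℝ} {κ : ℝ} {z : ℕ → ℕ → ℕ}
    {B B' : F.Ω → Prop} {gc gT g₀ : ℕ → ℕ → ℕ}
    {G : ℕ → PtT F → ℕ → MvPolynomial (Option (Fin m)) ℝ}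
    {H : ℕ → LnT F → ℕ → MvPolynomial (Option (Fin m)) ℝ}
    {T : ℕ → PtT F → ℕ → MvPolynomial (Option (Fin m)) ℝ}
    {TH : ℕ → LnT F → ℕ → MvPolynomial (Option (Fin m)) ℝ}
    {Gt : ℕ → PtT F → MvPolynomial (Option (Fin m)) ℝ}
    {Ht : ℕ → LnT F → MvPolynomial (Option (Fin m)) ℝ}
    (W : Wins F c (r + 1) D Dr N M R C₀ a Eb ηm o ε p' η σ lv be b κ z B gc gT g₀ G H T TH Gt Ht)
    (hB : Sub B' B) {CL : LnT F → MvPolynomial (Option (Fin m)) ℝ}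
    {Cp : PtT F → MvPolynomial (Option (Fin m)) ℝ}
    {f : ℕ → ℕ} {x : ℕ} {s : ℕ → ℕ} {qe : Fin r → ℕ} {ξ mb pr : ℝ}
    (hs : ∀ l < r, s l = ⌊lv (f 1) l * J⌋₊) (hsr : s r = ⌊lv (f 1) (r + 1) * J⌋₊)
    (WC : NvC F c r D ⌊mb * J⌋₊ (⌊o (f 2) * J⌋₊ - ⌊o (f 1) * J⌋₊) x ⌊lv (f 1) r * J⌋₊ (s r)
      (fun k => ⌊o (f k) * J⌋₊) (fun k => g₀ (f k)) B' (fun k => G (f k)) (Ht (f 1)) CL Cp)
    (hc : Set.InjOn c (Set.Iio (r + 2))) (hf : ∀ k, f k ≤ N) (hR : ∀ l < r, R l)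
    (hbe : ¬ R r → lv (f 3) r + (a - o (f 3)) ≤ be (f 3) r + ξ)
    (hx : (C₀ * ηm + 2 * ξ + ηm) * J + 30 ≤ x)
    (ha : a ≤ 1) (h01 : o (f 0) ≤ o (f 1)) (h12 : o (f 1) ≤ o (f 2)) (h23 : o (f 2) ≤ o (f 3))
    (z02 : ∃ q ≤ M, z (f 0) q = ⌊o (f 2) * J⌋₊ - ⌊o (f 0) * J⌋₊)
    (z03 : ∃ q ≤ M, z (f 0) q = ⌊o (f 3) * J⌋₊ - ⌊o (f 0) * J⌋₊)
    (z12 : ∃ q ≤ M, z (f 1) q = ⌊o (f 2) * J⌋₊ - ⌊o (f 1) * J⌋₊)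
    (z23 : ∃ q ≤ M, z (f 2) q = ⌊o (f 3) * J⌋₊ - ⌊o (f 2) * J⌋₊)
    (hξ : 0 ≤ ξ) (hmb : 0 ≤ mb) (hpr : 0 ≤ pr)
    (hn : ∀ k ≤ 3, ∀ j < r, |lv (f k) j - o (f k) - (lv (f 1) j - o (f 1))| ≤ ξ)
    (hu2 : lv (f 1) r + (o (f 2) - o (f 1)) ≤ lv (f 2) r + ξ)
    (hu3 : lv (f 2) r + (o (f 3) - o (f 2)) ≤ lv (f 3) r + ξ)
    (h2 : lv (f 1) (r + 1) + mb ≤ lv (f 2) (r + 1) + ξ)
    (h3 : lv (f 1) (r + 1) + (o (f 3) - o (f 1)) + (mb - (o (f 2) - o (f 1))) ≤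
      lv (f 3) (r + 1) + ξ)
    (hp0 : pr + C₀ * ηm ≤ p' (f 1))
    (hp1 : 2 ≤ (lv (f 3) (r + 1) + (a - o (f 3)) - (pr + C₀ * ηm + ηm)) * J)
    (hp : lv (f 1) (r + 1) + (a - o (f 1)) + (mb - (o (f 2) - o (f 1))) ≤ pr + ξ)
    (hQM : 2 ≤ (mb - (o (f 2) - o (f 1))) * J)
    (hq : 3 ≤ (o (f 1) - o (f 0) - (mb + (o (f 2) - o (f 1)))) * J)
    (qeM : ∀ i, ⌊mb * J⌋₊ + (⌊o (f 2) * J⌋₊ - ⌊o (f 1) * J⌋₊) ≤ qe i) :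
    NvD F c r D 3 M ⌊a * J⌋₊ ⌊mb * J⌋₊ (⌊o (f 1) * J⌋₊ - ⌊o (f 0) * J⌋₊)
      (⌊o (f 2) * J⌋₊ - ⌊o (f 1) * J⌋₊) x ⌊pr * J⌋₊ ⌊(Eb + 2 * ηm) * J⌋₊ ⌊lv (f 1) r * J⌋₊ s qe
      (fun k => ⌊o (f k) * J⌋₊) (fun k => z (f k)) (fun k l => ⌊b (f k) l * J⌋₊)
      (fun k => gc (f k)) (fun k => gT (f k)) (fun k => g₀ (f k)) B' (fun k => G (f k))
      (fun k => T (f k)) (fun k => H (f k)) (fun k => TH (f k)) (Ht (f 1)) CL Cp := by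
  have hJ : (0 : ℝ) ≤ J := Nat.cast_nonneg J
  have hC0 : 0 ≤ C₀ := by linarith [W.C1]
  have hηm0 : 0 ≤ ηm := (W.hη (f 0) (hf 0)).1.trans (W.hη (f 0) (hf 0)).2
  have hηJ : 0 ≤ ηm * J := mul_nonneg hηm0 hJ
  have hξJ : 0 ≤ ξ * J := mul_nonneg hξ hJ
  have hCη : 0 ≤ C₀ * ηm * J := mul_nonneg (mul_nonneg hC0 hηm0) hJ
  have ho0 : ∀ k, 0 ≤ o (f k) * J := fun k => mul_nonneg (W.ho (f k) (hf k)).1 hJ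
  have ha0 : 0 ≤ a * J := mul_nonneg ((W.ho (f 0) (hf 0)).1.trans (W.ho (f 0) (hf 0)).2) hJ
  have hlv : ∀ k l, l ≤ r + 1 → 0 ≤ lv (f k) l * J := fun k l hl =>
    (Nat.cast_nonneg (g₀ (f k) l)).trans (W.g_num (hf k) hl).2.2.2.1
  have fo := fun k => flo (ho0 k)
  have fa := flo ha0
  have fm := flo (mul_nonneg hmb hJ)
  have fp := flo (mul_nonneg hpr hJ)
  have fl01 : ⌊o (f 0) * J⌋₊ ≤ ⌊o (f 1) * J⌋₊ :=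
    Nat.floor_le_floor (mul_le_mul_of_nonneg_right h01 hJ)
  have fl12 : ⌊o (f 1) * J⌋₊ ≤ ⌊o (f 2) * J⌋₊ :=
    Nat.floor_le_floor (mul_le_mul_of_nonneg_right h12 hJ)
  have c12 : ((⌊o (f 2) * J⌋₊ - ⌊o (f 1) * J⌋₊ : ℕ) : ℝ) =
      (⌊o (f 2) * J⌋₊ : ℝ) - (⌊o (f 1) * J⌋₊ : ℝ) := Nat.cast_sub fl12
  have c01 : ((⌊o (f 1) * J⌋₊ - ⌊o (f 0) * J⌋₊ : ℕ) : ℝ) =
      (⌊o (f 1) * J⌋₊ : ℝ) - (⌊o (f 0) * J⌋₊ : ℝ) := Nat.cast_sub fl01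
  have mulJ : ∀ {x y : ℝ}, x ≤ y → x * J ≤ y * J := fun h => mul_le_mul_of_nonneg_right h hJ
  refine wins_nv W hB WC (X := ξ * J + 8) hc hf hR (fun h => ?_) ?_ ha h12 h23 (by omega)
    (by omega) z02 z03 z12 z23 (by linarith) ?_ ?_ ?_ ?_ ?_ ?_ ?_ ?_ ?_ ?_ ?_ ?_ ?_ ?_ qeM
  · have e1 := mulJ (hbe h)
    linarith [fa.1, (fo 3).2]
  · linarith
  · linarith
  · intro k hk j hj
    have e1 := flo (hlv 1 j (by omega))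
    have e2 := mulJ (hn k hk j hj)
    rw [← abs_of_nonneg hJ, ← abs_mul] at e2
    rw [abs_of_nonneg hJ] at e2
    have e3 := abs_le.1 e2
    have e4 := fo k
    have e5 := fo 1
    rw [hs j hj, abs_le]
    constructor <;> linarith [e3.1, e3.2, e1.1, e1.2, e4.1, e4.2, e5.1, e5.2]
  · have e1 := flo (hlv 1 r (by omega))
    linarith [e1.1]
  · have e1 := flo (hlv 1 r (by omega))
    linarith [e1.2]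
  · have e1 := flo (hlv 1 r (by omega))
    have e2 := mulJ hu2
    rw [c12]
    linarith [e1.1, (fo 1).2, (fo 2).1]
  · have e2 := mulJ hu3
    linarith [(fo 2).2, (fo 3).1]
  · have e1 := flo (hlv 1 (r + 1) le_rfl)
    rw [hsr]
    linarith [e1.1]
  · have e1 := flo (hlv 1 (r + 1) le_rfl)
    have e2 := mulJ h2
    rw [hsr]
    linarith [e1.1, fm.1]
  · have e1 := flo (hlv 1 (r + 1) le_rfl)
    have e2 := mulJ h3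
    rw [hsr, c12]
    linarith [e1.1, fm.1, (fo 1).1, (fo 1).2, (fo 2).1, (fo 2).2, (fo 3).1, (fo 3).2]
  · have e2 := mulJ hp0
    linarith [fp.1]
  · linarith [fp.1, fa.1, fa.2, (fo 3).1, (fo 3).2]
  · have e1 := flo (hlv 1 (r + 1) le_rfl)
    have e2 := mulJ hp
    rw [hsr, c12]
    linarith [e1.1, fm.1, (fo 1).1, (fo 1).2, (fo 2).1, (fo 2).2, fa.1, fa.2, fp.1, fp.2]
  · refine nat_le ?_
    rw [c12]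
    linarith [fm.1, fm.2, (fo 1).1, (fo 1).2, (fo 2).1, (fo 2).2]
  · refine nat_le ?_
    rw [Nat.cast_add, c12, c01]
    linarith [fm.1, fm.2, (fo 1).1, (fo 1).2, (fo 2).1, (fo 2).2, (fo 0).1, (fo 0).2]

/-- **`NvD` and the deterministic part of `TL` for the target `N - C (u - H₁ᵤ)`**, at all large
scales. The windows: `o (f 0)` (frame), `o (f 1)` (window), `o (f 2)` (ball), `o (f 3)` (deep).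
`mb`: the digits of the class, `pr`: the digits of the closed row label, `χ`: the loss. -/
theorem wins_nvt (D r K : ℕ) (hK : 1 ≤ K)
    (hK' : (D + 1) * (D + 1) * ((D + 1) * (D + 1) + 1) ^ r ≤ K) : ∃ C' : ℝ, 1 ≤ C' ∧
    ∀ {m : ℕ} {c : ℕ → Fin m} {Dr N M : ℕ} {R : ℕ → Prop} {C₀ a Eb ηm : ℝ}
    {o ε p' η σ : ℕ → ℝ} {lv be : ℕ → ℕ → ℝ} {f : ℕ → ℕ} {ξ χ mb pr δ : ℝ},
    Set.InjOn c (Set.Iio (r + 2)) → (∀ k, f k ≤ N) → (∀ l < r, R l) → a ≤ 1 →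
    o (f 0) ≤ o (f 1) → o (f 1) ≤ o (f 2) → o (f 2) ≤ o (f 3) → 0 ≤ ξ → 0 ≤ mb → 0 ≤ pr →
    0 ≤ δ →
    (¬ R r → lv (f 3) r + (a - o (f 3)) ≤ be (f 3) r + ξ) →
    (∀ k ≤ 3, ∀ j < r, |lv (f k) j - o (f k) - (lv (f 1) j - o (f 1))| ≤ ξ) →
    lv (f 1) r + (o (f 2) - o (f 1)) ≤ lv (f 2) r + ξ →
    lv (f 2) r + (o (f 3) - o (f 2)) ≤ lv (f 3) r + ξ →
    lv (f 1) (r + 1) + mb ≤ lv (f 2) (r + 1) + ξ →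
    lv (f 1) (r + 1) + (o (f 3) - o (f 1)) + (mb - (o (f 2) - o (f 1))) ≤
      lv (f 3) (r + 1) + ξ →
    pr + C₀ * ηm ≤ p' (f 1) →
    pr + C₀ * ηm + ηm < lv (f 3) (r + 1) + (a - o (f 3)) →
    lv (f 1) (r + 1) + (a - o (f 1)) + (mb - (o (f 2) - o (f 1))) ≤ pr + ξ →
    o (f 2) - o (f 1) < mb → mb + (o (f 2) - o (f 1)) < o (f 1) - o (f 0) →
    C₀ * ηm + 2 * ξ + ηm < χ → C' * χ < δ * (o (f 2) - o (f 1)) →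
    ∃ J₀ : ℕ, ∀ J : ℕ, J₀ ≤ J → ∀ (F : Fam m J) (b : ℕ → ℕ → ℝ) (κ : ℝ) (z : ℕ → ℕ → ℕ)
      (B : F.Ω → Prop) (gc gT g₀ : ℕ → ℕ → ℕ)
      (G : ℕ → PtT F → ℕ → MvPolynomial (Option (Fin m)) ℝ)
      (H : ℕ → LnT F → ℕ → MvPolynomial (Option (Fin m)) ℝ)
      (T : ℕ → PtT F → ℕ → MvPolynomial (Option (Fin m)) ℝ)
      (TH : ℕ → LnT F → ℕ → MvPolynomial (Option (Fin m)) ℝ)
      (Gt : ℕ → PtT F → MvPolynomial (Option (Fin m)) ℝ)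
      (Ht : ℕ → LnT F → MvPolynomial (Option (Fin m)) ℝ),
      Wins F c (r + 1) D Dr N M R C₀ a Eb ηm o ε p' η σ lv be b κ z B gc gT g₀ G H T TH Gt Ht →
      (∃ q ≤ M, z (f 0) q = ⌊o (f 2) * J⌋₊ - ⌊o (f 0) * J⌋₊) →
      (∃ q ≤ M, z (f 0) q = ⌊o (f 3) * J⌋₊ - ⌊o (f 0) * J⌋₊) →
      (∃ q ≤ M, z (f 1) q = ⌊o (f 2) * J⌋₊ - ⌊o (f 1) * J⌋₊) →
      (∃ q ≤ M, z (f 2) q = ⌊o (f 3) * J⌋₊ - ⌊o (f 2) * J⌋₊) →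
      ∀ (B' : F.Ω → Prop) (CL : LnT F → MvPolynomial (Option (Fin m)) ℝ)
      (Cp : PtT F → MvPolynomial (Option (Fin m)) ℝ) (s : ℕ → ℕ) (qe : Fin r → ℕ), Sub B' B →
      (∀ l < r, s l = ⌊lv (f 1) l * J⌋₊) → s r = ⌊lv (f 1) (r + 1) * J⌋₊ →
      (∀ i, ⌊mb * J⌋₊ + (⌊o (f 2) * J⌋₊ - ⌊o (f 1) * J⌋₊) ≤ qe i) →
      NvC F c r D ⌊mb * J⌋₊ (⌊o (f 2) * J⌋₊ - ⌊o (f 1) * J⌋₊) ⌊χ * J⌋₊ ⌊lv (f 1) r * J⌋₊ (s r)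
        (fun k => ⌊o (f k) * J⌋₊) (fun k => g₀ (f k)) B' (fun k => G (f k)) (Ht (f 1)) CL Cp →
      NvD F c r D 3 M ⌊a * J⌋₊ ⌊mb * J⌋₊ (⌊o (f 1) * J⌋₊ - ⌊o (f 0) * J⌋₊)
        (⌊o (f 2) * J⌋₊ - ⌊o (f 1) * J⌋₊) ⌊χ * J⌋₊ ⌊pr * J⌋₊ ⌊(Eb + 2 * ηm) * J⌋₊
        ⌊lv (f 1) r * J⌋₊ s qe
        (fun k => ⌊o (f k) * J⌋₊) (fun k => z (f k)) (fun k l => ⌊b (f k) l * J⌋₊)
        (fun k => gc (f k)) (fun k => gT (f k)) (fun k => g₀ (f k)) B' (fun k => G (f k))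
        (fun k => T (f k)) (fun k => H (f k)) (fun k => TH (f k)) (Ht (f 1)) CL Cp ∧
      ∃ Y : ℝ, Y ≤ 2 ^ (δ * ((⌊o (f 2) * J⌋₊ - ⌊o (f 1) * J⌋₊ : ℕ) : ℝ)) ∧
      ∀ {V V' : Type} (v : F.Ω → V) (v' : F.Ω → V') (vL : LnT F → V) (D' : ℕ),
        (D + 1) ^ (r + 4) ≤ D' →
        TLd K r D' (⌊o (f 2) * J⌋₊ - ⌊o (f 1) * J⌋₊) ⌊mb * J⌋₊ (2 ^ (J - ⌊o (f 1) * J⌋₊)) Y B'
          (slam F ⌊o (f 1) * J⌋₊) (twF F ⌊o (f 1) * J⌋₊)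
          (kzF F c s r ⌊o (f 1) * J⌋₊ (⌊o (f 2) * J⌋₊ - ⌊o (f 1) * J⌋₊) v v' (G (f 0))
            (fun y => nA1 c r (G (f 1) y)) (fun y => nA2 c r (G (f 2) y) (G (f 1) y) (Cp y)))
          (kaF F c s r ⌊o (f 1) * J⌋₊ (⌊o (f 2) * J⌋₊ - ⌊o (f 1) * J⌋₊) v (G (f 0))
            (fun y => nA1 c r (G (f 1) y)))
          (fun ω => eL c s r ⌊o (f 1) * J⌋₊ qe (frH F r (⌊o (f 1) * J⌋₊ - ⌊o (f 0) * J⌋₊)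
            (H (f 0)) (slam F ⌊o (f 1) * J⌋₊ ω)) (slam F ⌊o (f 1) * J⌋₊ ω))
          (Xe r qe)
          (Pfz c s r (⌊o (f 2) * J⌋₊ - ⌊o (f 1) * J⌋₊) J ((D + 1) * (D + 1)))
          (Pgz c s r ⌊o (f 1) * J⌋₊ (⌊o (f 2) * J⌋₊ - ⌊o (f 1) * J⌋₊) J ((D + 1) * (D + 1)))
          (ctF F c s r ⌊o (f 1) * J⌋₊ (⌊o (f 1) * J⌋₊ - ⌊o (f 0) * J⌋₊)
            (⌊o (f 2) * J⌋₊ - ⌊o (f 1) * J⌋₊) qe (H (f 0)) (fun L => nA1 c r (H (f 1) L)) vL)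
          (scF F c s r ⌊o (f 1) * J⌋₊ (⌊o (f 1) * J⌋₊ - ⌊o (f 0) * J⌋₊)
            (⌊o (f 2) * J⌋₊ - ⌊o (f 1) * J⌋₊) qe (G (f 0)) (H (f 0)))
          (fun L => xL c s r ⌊o (f 1) * J⌋₊ (⌊o (f 2) * J⌋₊ - ⌊o (f 1) * J⌋₊)
            (frH F r (⌊o (f 1) * J⌋₊ - ⌊o (f 0) * J⌋₊) (H (f 0)) L) L)
          (nT F s r ⌊o (f 1) * J⌋₊ (n1p F c r ⌊o (f 1) * J⌋₊ (H (f 1)) CL)
            (fun L => nA1 c r (H (f 1) L)))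
          (n1T F c s r ⌊o (f 1) * J⌋₊ (⌊o (f 1) * J⌋₊ - ⌊o (f 0) * J⌋₊) (H (f 0)) (H (f 1))
            (Ht (f 1)) CL) := by
  obtain ⟨C₁, htl⟩ := nv_tld D r K hK hK'
  refine ⟨(C₁ : ℝ) + 1, by
    have : (0 : ℝ) ≤ C₁ := Nat.cast_nonneg _
    linarith, ?_⟩
  intro m c Dr N M R C₀ a Eb ηm o ε p' η σ lv be f ξ χ mb pr δ hc hf hR ha h01 h12 h23 hξ hmb
    hpr hδ hbe hn hu2 hu3 h2 h3 hp0 hp1 hp hQM hq hχ hsm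
  -- large scales
  have big : ∀ {x y : ℝ}, 0 < x → ∃ J₀ : ℕ, ∀ J : ℕ, J₀ ≤ J → y ≤ x * J := by
    intro x y hx
    refine ⟨⌈y / x⌉₊, fun J hJ => ?_⟩
    have h1 : y / x ≤ J := (Nat.le_ceil _).trans (by exact_mod_cast hJ)
    rw [div_le_iff₀ hx] at h1
    linarith
  obtain ⟨J₁, hJ₁⟩ := big (x := lv (f 3) (r + 1) + (a - o (f 3)) -
    (pr + C₀ * ηm + ηm)) (y := 2) (by linarith)
  obtain ⟨J₂, hJ₂⟩ := big (x := mb - (o (f 2) - o (f 1))) (y := 2) (by linarith)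
  obtain ⟨J₃, hJ₃⟩ := big (x := o (f 1) - o (f 0) - (mb + (o (f 2) - o (f 1)))) (y := 3)
    (by linarith)
  obtain ⟨J₄, hJ₄⟩ := big (x := δ * (o (f 2) - o (f 1)) - ((C₁ : ℝ) + 1) * χ)
    (y := ((C₁ : ℝ) + 1) + δ) (by linarith)
  obtain ⟨J₅, hJ₅⟩ := big (x := χ - (C₀ * ηm + 2 * ξ + ηm)) (y := 31) (by linarith)
  refine ⟨max (max J₁ J₂) (max J₃ (max J₄ J₅)), ?_⟩
  intro J hJ F b κ z B gc gT g₀ G H T TH Gt Ht W z02 z03 z12 z23 B' CL Cp s qe hB hs hsr hqe WC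
  have j1 := hJ₁ J ((le_max_left _ _).trans ((le_max_left _ _).trans hJ))
  have j2 := hJ₂ J ((le_max_right _ _).trans ((le_max_left _ _).trans hJ))
  have j3 := hJ₃ J ((le_max_left _ _).trans ((le_max_right _ _).trans hJ))
  have j4 := hJ₄ J ((le_max_left _ _).trans ((le_max_right _ _).trans ((le_max_right _ _).trans
    hJ)))
  have j5 := hJ₅ J ((le_max_right _ _).trans ((le_max_right _ _).trans ((le_max_right _ _).trans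
    hJ)))
  have hJ0 : (0 : ℝ) ≤ J := Nat.cast_nonneg J
  have hC0 : 0 ≤ C₀ := by linarith [W.C1]
  have hηm0 : 0 ≤ ηm := (W.hη (f 0) (hf 0)).1.trans (W.hη (f 0) (hf 0)).2
  have hχ0 : 0 ≤ χ := by
    have : 0 ≤ C₀ * ηm := mul_nonneg hC0 hηm0
    linarith
  have fχ := flo (mul_nonneg hχ0 hJ0)
  have hNv := wins_nv2 W hB hs hsr WC hc hf hR hbe (by linarith [fχ.2]) ha h01 h12 h23 z02 z03 z12
    z23 hξ hmb hpr hn hu2 hu3 h2 h3 hp0 j1 hp j2 j3 hqe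
  refine ⟨hNv, 2 ^ (C₁ * (⌊χ * J⌋₊ + 1)), ?_, fun {V V'} v v' vL D' hD' => htl hNv v v' vL D' hD'⟩
  have ho1 : 0 ≤ o (f 1) * J := mul_nonneg (W.ho (f 1) (hf 1)).1 hJ0
  have ho2 : 0 ≤ o (f 2) * J := mul_nonneg (W.ho (f 2) (hf 2)).1 hJ0
  have fv := flo ho1
  have fw := flo ho2
  have fl : ⌊o (f 1) * J⌋₊ ≤ ⌊o (f 2) * J⌋₊ := Nat.floor_le_floor
    (mul_le_mul_of_nonneg_right h12 hJ0)
  rw [← Real.rpow_natCast]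
  refine Real.rpow_le_rpow_of_exponent_le (by norm_num) ?_
  rw [Nat.cast_sub fl]
  push_cast
  have h1 : (C₁ : ℝ) * (⌊χ * J⌋₊ + 1) ≤ (C₁ + 1) * (χ * J + 1) :=
    mul_le_mul (by linarith) (by linarith [fχ.1]) (by positivity) (by positivity)
  have h4 : ((C₁ : ℝ) + 1) * (χ * J + 1) ≤ δ * ((o (f 2) - o (f 1)) * J - 1) := by
    linarith
  refine h1.trans (h4.trans (mul_le_mul_of_nonneg_left ?_ hδ))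
  linarith [fv.1, fw.2]

end Pool.V1E
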