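import Pool.Agent.H69.NE.Nvx

/-!
# The target `N - C (u - H₁ᵤ)`: own path, position, velocity, box

`nv_d1`: the derivative in the direction `u` on larger boxes of the first window. `nv_own`, `nv_pos`,
`nv_vel`, `nv_box`: the fields of `TgD`.
-/

set_option autoImplicit false

namespace Pool.V1E

open Finset Real MvPolynomial
open Pool.KA Pool.KSAT Pool.PB Pool.GEN Pool.D2R Pool.D2G30 Pool.ISO Pool.CHT Pool.CHX
open Pool.PB.Trl (rt rt_mem t_rt)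

theorem uicc_le {v v' w a K : ℝ} (hw : w ∈ Set.uIcc v v') (h : |v - a| ≤ K) (h' : |v' - a| ≤ K) :
    |w - a| ≤ K := by
  rw [abs_le] at h h' ⊢
  rw [Set.mem_uIcc] at hw
  rcases hw with hw | hw
  · constructor <;> linarith [hw.1, hw.2, h.1, h.2, h'.1, h'.2]
  · constructor <;> linarith [hw.1, hw.2, h.1, h.2, h'.1, h'.2]

/-- The first charts do not see the coordinate `c r`. -/
theorem hC1e {m : ℕ} {c : ℕ → Fin m} {r : ℕ} (hc : Set.InjOn c (Set.Iio (r + 1)))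
    {G : ℕ → MvPolynomial (Option (Fin m)) ℝ} (hG : ∀ l, DepC c l (G l)) {l : ℕ} (hl : l ≤ r)
    {b : Option (Fin m) → ℝ} {v : ℝ} : eval (up (c r) b v) (G l) = eval b (G l) :=
  eval_up hc ((hG l).mono hl) b v

section letters

variable {m J : ℕ} (F : Fam m J) (c : ℕ → Fin m) (s : ℕ → ℕ) (r w q₀ : ℕ)
  (G₁ : PtT F → ℕ → MvPolynomial (Option (Fin m)) ℝ)
  (H₀ H₁ : LnT F → ℕ → MvPolynomial (Option (Fin m)) ℝ)
  (Ht CL : LnT F → MvPolynomial (Option (Fin m)) ℝ)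
  (Cp : PtT F → MvPolynomial (Option (Fin m)) ℝ)

/-- The own path. -/
noncomputable def n1p (L : LnT F) : Polynomial ℝ :=
  lc w L (some (c (r + 1))) - MvPolynomial.aeval (lc w L) (CL L) *
    (lc w L (some (c r)) - MvPolynomial.aeval (lc w L) (H₁ L r))

/-- The value. -/
noncomputable def n1y (ω : F.Ω) : ℝ :=
  F.x ω (c (r + 1)) - eval (bt F ω) (Cp (ptr F J ω)) *
    (F.x ω (c r) - eval (bt F ω) (G₁ (ptr F J ω) r))

/-- The velocity. -/
noncomputable def n1v (ω : F.Ω) : ℝ :=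
  bd F ω (some (c (r + 1))) - (dd (Cp (ptr F J ω)) (bt F ω) (bd F ω) *
    (F.x ω (c r) - eval (bt F ω) (G₁ (ptr F J ω) r)) + eval (bt F ω) (Cp (ptr F J ω)) *
    (bd F ω (some (c r)) - dd (G₁ (ptr F J ω) r) (bt F ω) (bd F ω)))

/-- The frame with the closed chart of `u`. -/
noncomputable def frU {m : ℕ} (r : ℕ) (P P' : ℕ → MvPolynomial (Option (Fin m)) ℝ) :
    ℕ → MvPolynomial (Option (Fin m)) ℝ := fun l => if l < r then P l else P' l

/-- The closed gradient. -/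
noncomputable def n1T (L : LnT F) (i : Fin r) : Polynomial ℝ :=
  Polynomial.C (2 ^ s r) * MvPolynomial.aeval
    (hL c s (r + 1) w (frU r (frH F r q₀ H₀ L) (H₁ L)) L)
    (pderiv (some i.castSucc) (pull c s (frU r (frH F r q₀ H₀ L) (H₁ L)) (r + 1)
      (Ht L - CL L * (X (some (c r)) - H₁ L r) - nA1 c r (H₁ L))))

end letters

/-- **The derivative in the direction `u`** on larger boxes of the first window. -/
theorem nv_d1 (D r : ℕ) : ∃ C : ℕ, ∀ {m J : ℕ} {F : Fam m J} {c : ℕ → Fin m}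
    {n M ar MB q₀ Q x p e su : ℕ} {s : ℕ → ℕ} {qe : Fin r → ℕ} {o : ℕ → ℕ}
    {z g gc gT g₀ : ℕ → ℕ → ℕ} {B : F.Ω → Prop}
    {G T : ℕ → PtT F → ℕ → MvPolynomial (Option (Fin m)) ℝ}
    {H TH : ℕ → LnT F → ℕ → MvPolynomial (Option (Fin m)) ℝ}
    {Ht CL : LnT F → MvPolynomial (Option (Fin m)) ℝ}
    {Cp : PtT F → MvPolynomial (Option (Fin m)) ℝ},
    NvD F c r D n M ar MB q₀ Q x p e su s qe o z g gc gT g₀ B G T H TH Ht CL Cp → ∀ ω, B ω →
    ∀ (k : ℕ) (b : Option (Fin m) → ℝ), |b none - F.t ω| ≤ 1 / 2 ^ o 1 →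
    (∀ l ≤ r, |b (some (c l)) - eval b (G 1 (ptr F J ω) l)| ≤ 2 ^ k / 2 ^ g₀ 1 l) →
    |eval b (pderiv (some (c r)) (nf c r (G 1 (ptr F J ω)) (G 1 (ptr F J ω))
      (Cp (ptr F J ω))))| ≤ 2 ^ (C * (k + 1)) * (2 ^ (su + x) / 2 ^ s r) := by
  obtain ⟨c₀, D₁, hD₁, hdil⟩ := nbx_dil (r + 2) (fun _ => 2 * D + 1)
  refine ⟨c₀ + D₁, ?_⟩
  intro m J F c n M ar MB q₀ Q x p e su s qe o z g gc gT g₀ B G T H TH Ht CL Cp W ω hω k b hb0 hb
  refine (hdil (c := c) (i := r + 1) (G := G 1 (ptr F J ω)) (g := g₀ 1) (a := o 1) (t := F.t ω)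
    (M := 2 ^ (su + x) / 2 ^ s r) k (Nat.lt_succ_self _) W.hc1
    (fun l => (W.dG 1 _ l).trans (by omega)) (W.pG 1 _)
    (depC_pderiv (dep_nf (W.pG 1 _) (W.pG 1 _ r) (W.pCp _)) _)
    ((pd_deg _ _).trans (deg_nf (W.dG 1 _) (W.dG 1 _ r) (W.dCp _))) (by positivity)
    (fun b hb => by
      rw [pd_nf W.hc1 (W.pG 1 _ r) (W.pCp _)]
      exact W.hC1 ω hω b hb) b hb0 (fun l hl => hb l (by omega))).trans ?_
  refine mul_le_mul_of_nonneg_right (pow_le_pow_right₀ (by norm_num) ?_) (by positivity)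
  nlinarith

section fields

variable {m J : ℕ} {F : Fam m J} {c : ℕ → Fin m} {r D n M ar MB q₀ Q x p e su : ℕ}
  {s : ℕ → ℕ} {qe : Fin r → ℕ} {o : ℕ → ℕ} {z g gc gT g₀ : ℕ → ℕ → ℕ} {B : F.Ω → Prop}
  {G T : ℕ → PtT F → ℕ → MvPolynomial (Option (Fin m)) ℝ}
  {H TH : ℕ → LnT F → ℕ → MvPolynomial (Option (Fin m)) ℝ}
  {Ht CL : LnT F → MvPolynomial (Option (Fin m)) ℝ}
  {Cp : PtT F → MvPolynomial (Option (Fin m)) ℝ}

/-- The own line on the charts of the first window. -/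
theorem NvD.onc (W : NvD F c r D n M ar MB q₀ Q x p e su s qe o z g gc gT g₀ B G T H TH Ht CL Cp)
    {ω : F.Ω} (hω : B ω) {τ : ℝ} (hτ : τ ∈ Set.Icc (0 : ℝ) 1) {l : ℕ} (hl : l ≤ r + 1) :
    |ptw F (o 1) ω τ (some (c l)) - eval (ptw F (o 1) ω τ) (G 1 (ptr F J ω) l)| ≤
      2 ^ x / 2 ^ g₀ 1 l := by
  have h1 := W.own1 ω hω l hl τ hτ
  unfold dv at h1
  rw [Polynomial.eval_sub, Pool.D2G30.eval_aev] at h1
  rw [W.cl1 ω hω l hl]
  exact h1

/-- The closed chart of the point and of the line. -/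
theorem NvD.clA (W : NvD F c r D n M ar MB q₀ Q x p e su s qe o z g gc gT g₀ B G T H TH Ht CL Cp)
    {ω : F.Ω} (hω : B ω) : nA1 c r (G 1 (ptr F J ω)) = nA1 c r (H 1 (slam F (o 1) ω)) := by
  unfold nA1
  rw [W.cl1 ω hω r (Nat.le_succ r), W.cl1 ω hω (r + 1) le_rfl]

/-- The value. -/
theorem NvD.val (W : NvD F c r D n M ar MB q₀ Q x p e su s qe o z g gc gT g₀ B G T H TH Ht CL Cp)
    {ω : F.Ω} (hω : B ω) :
    (n1p F c r (o 1) (H 1) CL (slam F (o 1) ω)).eval (rt F (o 1) ω) = n1y F c r (G 1) Cp ω := by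
  have h1J : o 1 ≤ J := by have := W.oJ; have := W.o3; have := W.o2; omega
  have e : (fun o' => (lc (o 1) (slam F (o 1) ω) o').eval (rt F (o 1) ω)) = bt F ω :=
    funext fun o' => eval_lc F h1J ω o'
  unfold n1p n1y
  rw [Polynomial.eval_sub, Polynomial.eval_mul, Polynomial.eval_sub, Pool.D2G30.eval_aev,
    Pool.D2G30.eval_aev, e, eval_lc F h1J, eval_lc F h1J, W.clC ω hω,
    W.cl1 ω hω r (Nat.le_succ r)]
  rfl

/-- The derivative of the own path. -/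
theorem NvD.der (W : NvD F c r D n M ar MB q₀ Q x p e su s qe o z g gc gT g₀ B G T H TH Ht CL Cp)
    {ω : F.Ω} (hω : B ω) :
    (Polynomial.derivative (n1p F c r (o 1) (H 1) CL (slam F (o 1) ω))).eval (rt F (o 1) ω) =
      1 / 2 ^ o 1 * n1v F c r (G 1) Cp ω := by
  have h1J : o 1 ≤ J := by have := W.oJ; have := W.o3; have := W.o2; omega
  have e : (fun o' => (lc (o 1) (slam F (o 1) ω) o').eval (rt F (o 1) ω)) = bt F ω :=
    funext fun o' => eval_lc F h1J ω o'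
  unfold n1p n1v
  rw [Polynomial.derivative_sub, Polynomial.derivative_mul, Polynomial.derivative_sub,
    Polynomial.eval_sub, Polynomial.eval_add, Polynomial.eval_mul, Polynomial.eval_mul,
    Polynomial.eval_sub, Polynomial.eval_sub, dd_own h1J, dd_own h1J, der_lc, der_lc,
    Polynomial.eval_C, Polynomial.eval_C, Pool.D2G30.eval_aev, Pool.D2G30.eval_aev, e,
    eval_lc F h1J, W.clC ω hω, W.cl1 ω hω r (Nat.le_succ r)]
  show _ = 1 / 2 ^ o 1 * (bd F ω (some (c (r + 1))) - (_ * (bt F ω (some (c r)) - _) + _))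
  ring

/-- **The position.** -/
theorem NvD.pos (W : NvD F c r D n M ar MB q₀ Q x p e su s qe o z g gc gT g₀ B G T H TH Ht CL Cp)
    {ω : F.Ω} (hω : B ω) : |n1y F c r (G 1) Cp ω -
      eval (bt F ω) (nA2 c r (G 2 (ptr F J ω)) (G 1 (ptr F J ω)) (Cp (ptr F J ω)))| ≤
      2 ^ (x + 1) / 2 ^ (s r + MB) := by
  rw [eval_nA2 W.hc1 (W.pG 1 _ r) (W.pCp _)]
  have hself : up (c r) (bt F ω) (F.x ω (c r)) = bt F ω := up_eq rfl
  have h1 := W.ch2.pos ω hω (r + 1) (Nat.lt_succ_self _)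
  have h2 := W.ch2.pos ω hω r (by omega)
  have h3 := mv_up (k := c r) (R := nf c r (G 2 (ptr F J ω)) (G 1 (ptr F J ω)) (Cp (ptr F J ω)))
    (b := bt F ω) (v := F.x ω (c r)) (v' := eval (bt F ω) (G 2 (ptr F J ω) r))
    (M := 2 ^ (g₀ 2 r + x) / 2 ^ (s r + MB)) (fun w hw => by
      rw [pd_nf W.hc1 (W.pG 1 _ r) (W.pCp _)]
      refine W.hC2 ω hω _ (box_up W.hc1 (W.pG 2 _) (bt_box W.ch2 (by omega) hω _)
        (uicc_le hw h2 ?_))
      rw [sub_self, abs_zero]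
      positivity)
  rw [hself, eval_nf] at h3
  have e1 : n1y F c r (G 1) Cp ω - eval (up (c r) (bt F ω) (eval (bt F ω) (G 2 (ptr F J ω) r)))
      (nf c r (G 2 (ptr F J ω)) (G 1 (ptr F J ω)) (Cp (ptr F J ω))) =
      (F.x ω (c (r + 1)) - eval (bt F ω) (G 2 (ptr F J ω) (r + 1))) +
      (eval (bt F ω) (G 2 (ptr F J ω) (r + 1)) - eval (bt F ω) (Cp (ptr F J ω)) *
        (bt F ω (some (c r)) - eval (bt F ω) (G 1 (ptr F J ω) r)) -
        eval (up (c r) (bt F ω) (eval (bt F ω) (G 2 (ptr F J ω) r)))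
          (nf c r (G 2 (ptr F J ω)) (G 1 (ptr F J ω)) (Cp (ptr F J ω)))) := by
    unfold n1y
    rw [bt_some']
    ring
  rw [e1]
  refine (abs_add_le _ _).trans ((add_le_add h1 h3).trans ?_)
  have h4 : (1 : ℝ) / 2 ^ g₀ 2 (r + 1) ≤ 2 ^ x / 2 ^ (s r + MB) := p2_le W.m2
  have h5 : 2 ^ (g₀ 2 r + x) / 2 ^ (s r + MB) * |F.x ω (c r) -
      eval (bt F ω) (G 2 (ptr F J ω) r)| ≤ 2 ^ x / 2 ^ (s r + MB) := by
    refine (mul_le_mul_of_nonneg_left h2 (by positivity)).trans (le_of_eq ?_)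
    rw [pow_add 2 (g₀ 2 r) x]
    field_simp
  have e2 : (2 : ℝ) ^ (x + 1) / 2 ^ (s r + MB) = 2 ^ x / 2 ^ (s r + MB) +
      2 ^ x / 2 ^ (s r + MB) := by
    rw [pow_succ]
    ring
  rw [e2]
  exact add_le_add h4 h5

end fields

/-- **The own path.** -/
theorem nv_own (D r : ℕ) : ∃ C : ℕ, ∀ {m J : ℕ} {F : Fam m J} {c : ℕ → Fin m}
    {n M ar MB q₀ Q x p e su : ℕ} {s : ℕ → ℕ} {qe : Fin r → ℕ} {o : ℕ → ℕ}
    {z g gc gT g₀ : ℕ → ℕ → ℕ} {B : F.Ω → Prop}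
    {G T : ℕ → PtT F → ℕ → MvPolynomial (Option (Fin m)) ℝ}
    {H TH : ℕ → LnT F → ℕ → MvPolynomial (Option (Fin m)) ℝ}
    {Ht CL : LnT F → MvPolynomial (Option (Fin m)) ℝ}
    {Cp : PtT F → MvPolynomial (Option (Fin m)) ℝ},
    NvD F c r D n M ar MB q₀ Q x p e su s qe o z g gc gT g₀ B G T H TH Ht CL Cp → ∀ ω, B ω →
    ∀ τ ∈ Set.Icc (0 : ℝ) 1, |(n1p F c r (o 1) (H 1) CL (slam F (o 1) ω) -
      MvPolynomial.aeval (lc (o 1) (slam F (o 1) ω)) (nA1 c r (H 1 (slam F (o 1) ω)))).eval τ| ≤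
      2 ^ (C * (x + 1)) / 2 ^ s r := by
  obtain ⟨C₁, hd1⟩ := nv_d1 D r
  refine ⟨C₁ + 3, ?_⟩
  intro m J F c n M ar MB q₀ Q x p e su s qe o z g gc gT g₀ B G T H TH Ht CL Cp W ω hω τ hτ
  have h1J : o 1 ≤ J := by have := W.oJ; have := W.o3; have := W.o2; omega
  obtain ⟨b, hb⟩ : ∃ b, b = ptw F (o 1) ω τ := ⟨_, rfl⟩
  have hbe : (fun o' => (lc (o 1) (slam F (o 1) ω) o').eval τ) = b := by rw [hb]; rfl
  have hbo : ∀ o', (lc (o 1) (slam F (o 1) ω) o').eval τ = b o' := fun o' => by rw [hb]; rfl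
  have hon : ∀ l ≤ r + 1, |b (some (c l)) - eval b (G 1 (ptr F J ω) l)| ≤ 2 ^ x / 2 ^ g₀ 1 l :=
    fun l hl => by
      rw [hb]
      exact W.onc hω hτ hl
  have htime : |b none - F.t ω| ≤ 1 / 2 ^ o 1 := by
    rw [hb]
    exact ptw_time h1J ω hτ
  have hself : up (c r) b (b (some (c r))) = b := up_eq rfl
  have hne : ∀ l < r, c l ≠ c r := fun l hl he => by
    have := W.hc1 (Set.mem_Iio.2 (show l < r + 1 by omega))
      (Set.mem_Iio.2 (Nat.lt_succ_self r)) he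
    omega
  have h3 := mv_up (k := c r) (R := nf c r (G 1 (ptr F J ω)) (G 1 (ptr F J ω)) (Cp (ptr F J ω)))
    (b := b) (v := b (some (c r))) (v' := eval b (G 1 (ptr F J ω) r))
    (M := 2 ^ (C₁ * (x + 1)) * (2 ^ (su + x) / 2 ^ s r)) (fun w hw => by
      refine hd1 W ω hω x _ (by rw [up_none]; exact htime) fun l hl => ?_
      rw [hC1e W.hc1 (W.pG 1 _) hl]
      rcases Nat.lt_or_ge l r with h | h
      · rw [up_ne (hne l h)]
        exact hon l (by omega)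
      · have : l = r := by omega
        subst this
        rw [up_self]
        refine uicc_le hw (hon l (by omega)) ?_
        rw [sub_self, abs_zero]
        positivity)
  rw [hself, eval_nf, eval_nf_up W.hc1 (W.pG 1 _ r) (W.pCp _), sub_self, mul_zero, sub_zero] at h3
  have e1 : (n1p F c r (o 1) (H 1) CL (slam F (o 1) ω) -
      MvPolynomial.aeval (lc (o 1) (slam F (o 1) ω)) (nA1 c r (H 1 (slam F (o 1) ω)))).eval τ =
      (b (some (c (r + 1))) - eval b (G 1 (ptr F J ω) (r + 1))) +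
      (eval b (G 1 (ptr F J ω) (r + 1)) - eval b (Cp (ptr F J ω)) *
        (b (some (c r)) - eval b (G 1 (ptr F J ω) r)) -
        eval (up (c r) b (eval b (G 1 (ptr F J ω) r))) (G 1 (ptr F J ω) (r + 1))) := by
    unfold n1p
    rw [Polynomial.eval_sub, Polynomial.eval_sub, Polynomial.eval_mul, Polynomial.eval_sub,
      Pool.D2G30.eval_aev, Pool.D2G30.eval_aev, Pool.D2G30.eval_aev, hbe, hbo, hbo,
      ← W.clA hω, ← W.clC ω hω, ← W.cl1 ω hω r (Nat.le_succ r), eval_nA1]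
    ring
  rw [e1]
  have h4 := hon (r + 1) le_rfl
  have h5 := hon r (Nat.le_succ r)
  refine (abs_add_le _ _).trans ((add_le_add h4 (h3.trans (mul_le_mul_of_nonneg_left h5
    (by positivity)))).trans ?_)
  have h6 : (2 : ℝ) ^ x / 2 ^ g₀ 1 (r + 1) ≤ 2 ^ (x + x) / 2 ^ s r := p2_le' (by
    have := W.m1'
    omega)
  have h7 : (2 : ℝ) ^ (C₁ * (x + 1)) * (2 ^ (su + x) / 2 ^ s r) * (2 ^ x / 2 ^ g₀ 1 r) ≤
      2 ^ (C₁ * (x + 1) + (x + x + x)) / 2 ^ s r := by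
    have h8 : (2 : ℝ) ^ (su + x) / 2 ^ g₀ 1 r ≤ 2 ^ (x + x) := p2_div (by
      have := W.u1'
      omega)
    calc 2 ^ (C₁ * (x + 1)) * (2 ^ (su + x) / 2 ^ s r) * (2 ^ x / 2 ^ g₀ 1 r) =
        2 ^ (C₁ * (x + 1)) * 2 ^ x * (2 ^ (su + x) / 2 ^ g₀ 1 r) / 2 ^ s r := by ring
      _ ≤ 2 ^ (C₁ * (x + 1)) * 2 ^ x * 2 ^ (x + x) / 2 ^ s r :=
          div_le_div_of_nonneg_right (mul_le_mul_of_nonneg_left h8 (by positivity))
            (by positivity)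
      _ = _ := by
          simp only [pow_add]
          ring
  refine (add_le_add h6 h7).trans ?_
  rw [← add_div]
  refine div_le_div_of_nonneg_right ?_ (by positivity)
  have h8 : (2 : ℝ) ^ (x + x) ≤ 2 ^ (C₁ * (x + 1) + (x + x + x)) :=
    pow_le_pow_right₀ (by norm_num) (by omega)
  calc (2 : ℝ) ^ (x + x) + 2 ^ (C₁ * (x + 1) + (x + x + x)) ≤
      2 ^ (C₁ * (x + 1) + (x + x + x)) * 2 := by linarith
    _ = 2 ^ (C₁ * (x + 1) + (x + x + x) + 1) := by rw [pow_succ]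
    _ ≤ _ := pow_le_pow_right₀ (by norm_num) (by nlinarith)

end Pool.V1E
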