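import Pool.Agent.H69.NE.Nv

/-!
# Vectors of the frame in the windows

`nrm_win`: the natural norm over the charts of a ball of a vector of the frame. `nv_nrm`: the norms in
the windows `o 2`, `o 3`, over the thin boxes, and the thin chart of `u` against the ball chart.
`nv_dd`: the gradients of the charts of `u`. `nv_ht`: the row label of `N` against the ball chart.
-/

set_option autoImplicit false

namespace Pool.V1E

open Finset Real MvPolynomial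
open Pool.KA Pool.KSAT Pool.PB Pool.GEN Pool.D2R Pool.D2G30 Pool.ISO Pool.CHT Pool.CHX
open Pool.PB.Trl (rt rt_mem t_rt)

/-- The norm sees only the first coordinates. -/
theorem nrm_congr {m : ℕ} {c : ℕ → Fin m} {ψ : ℕ → MvPolynomial (Option (Fin m)) ℝ}
    (hψ : ∀ l, DepC c l (ψ l)) {g : ℕ → ℕ} {a r : ℕ} {x V V' : Option (Fin m) → ℝ}
    (h0 : V none = V' none) (h : ∀ l < r, V (some (c l)) = V' (some (c l))) :
    nrm c ψ g a r x V = nrm c ψ g a r x V' := by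
  unfold nrm
  rw [h0]
  congr 1
  refine Finset.sum_congr rfl fun l hl => ?_
  have hl' := Finset.mem_range.1 hl
  rw [h l hl', dd_congr (hψ l) x h0 fun i hi => h i (by omega)]

/-- **The natural norm of a vector of the frame over the charts of a ball.** -/
theorem nrm_win (D r R : ℕ) (hrR : r ≤ R) : ∃ C : ℕ, ∀ {m J : ℕ} {F : Fam m J} {c : ℕ → Fin m}
    {n M a k q e x : ℕ} {s : ℕ → ℕ} {o : ℕ → ℕ} {z : ℕ → ℕ → ℕ} {g gc gT g₀ : ℕ → ℕ → ℕ}
    {B : F.Ω → Prop} {G T : ℕ → PtT F → ℕ → MvPolynomial (Option (Fin m)) ℝ}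
    {H : ℕ → LnT F → ℕ → MvPolynomial (Option (Fin m)) ℝ}, Set.InjOn c (Set.Iio R) →
    BalE F c R n M a o z g gc gT g₀ (2 ^ x) B G T → k ≤ n → q ≤ M → o 0 ≤ o k →
    z 0 q = o k - o 0 → (∀ y l, (G 0 y l).totalDegree ≤ D) → (∀ y l, DepC c l (G 0 y l)) →
    ChOK F c (R + 1) (fun _ => D) (o k) (o k) e (g₀ k) B (G k) (H k) →
    (∀ j < r, g₀ k j ≤ g 0 j + (o k - o 0) + x) → (∀ j < r, g₀ k j ≤ s j + (o k - o 1) + x) →
    ∀ ω, B ω → ∀ V : Option (Fin m) → ℝ, V none = 0 →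
    (∀ j < r, |V (some (c j)) - dd (G 0 (ptr F J ω) j) (bt F ω) V| ≤ 1 / 2 ^ s j) →
    nrm c (G k (ptr F J ω)) (g₀ k) (o k) r (bt F ω) V ≤
      2 ^ (C * (x + 1)) * 2 ^ (o k - o 1) := by
  obtain ⟨C₁, hbd⟩ := bale_dd D R
  refine ⟨(r + 1) * (C₁ + 4), ?_⟩
  intro m J F c n M a k q e x s o z g gc gT g₀ B G T H hc hB hk hq h0k hz hdG hpG hch n1 n2 ω hω
    V hV0 hV
  have hU0 : (0 : ℝ) ≤ 2 ^ x := by positivity
  obtain ⟨Z, hZ⟩ : ∃ Z : ℝ, Z = 2 ^ (C₁ + x + x + 2) := ⟨_, rfl⟩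
  have hZ4 : 4 ≤ Z := by
    rw [hZ]
    calc (4 : ℝ) = 2 ^ 2 := by norm_num
      _ ≤ _ := pow_le_pow_right₀ (by norm_num) (by omega)
  have hZq : Z / 4 = 2 ^ (C₁ + x + x) := by
    rw [hZ, pow_add]
    norm_num
  obtain ⟨W, hW⟩ : ∃ W : ℝ, W = 2 ^ (o k - o 1) := ⟨_, rfl⟩
  have hW0 : 0 < W := by rw [hW]; positivity
  have hN := nrm_fr (c := c) (r := r) (P := G 0 (ptr F J ω)) (G := G k (ptr F J ω))
    (g := g₀ k) (a := o k) (x := bt F ω) (V := V) (W := W) (Z := Z) hW0.le hZ4 hV0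
    (fun j hj => by
      refine (mul_le_mul_of_nonneg_left (hV j hj) (by positivity)).trans ?_
      rw [mul_one_div, div_le_iff₀ (by positivity), hZq, hW]
      have h1 : (2 : ℝ) ^ g₀ k j ≤ 2 ^ (s j + (o k - o 1) + x) :=
        pow_le_pow_right₀ (by norm_num) (n2 j hj)
      refine h1.trans ?_
      rw [← pow_add, ← pow_add]
      exact pow_le_pow_right₀ (by norm_num) (by omega))
    (fun j hj => by
      have h1 := hbd hc hB hU0 (Nat.zero_le n) hk hq h0k hz hdG hpG hch ω hω j (by omega) V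
      refine (mul_le_mul_of_nonneg_left h1 (by positivity)).trans ?_
      rw [← mul_assoc]
      refine mul_le_mul_of_nonneg_right ?_ (nrm_nonneg _ _ _ _ _ _ _)
      rw [mul_div_assoc', div_le_iff₀ (by positivity), hZq]
      have h2 : g₀ k j ≤ min (g 0 j + (o k - o 0)) (g₀ k j) + x := by
        rcases le_total (g 0 j + (o k - o 0)) (g₀ k j) with h | h
        · rw [min_eq_left h]
          exact n1 j hj
        · rw [min_eq_right h]
          omega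
      have h3 : (2 : ℝ) ^ g₀ k j ≤ 2 ^ (min (g 0 j + (o k - o 0)) (g₀ k j) + x) :=
        pow_le_pow_right₀ (by norm_num) h2
      calc (2 : ℝ) ^ g₀ k j * (2 ^ C₁ * 2 ^ x) ≤
          2 ^ (min (g 0 j + (o k - o 0)) (g₀ k j) + x) * (2 ^ C₁ * 2 ^ x) :=
            mul_le_mul_of_nonneg_right h3 (by positivity)
        _ = _ := by
            rw [pow_add, pow_add, pow_add]
            ring)
  rw [← hW]
  refine (hN r le_rfl).trans (mul_le_mul_of_nonneg_right ?_ hW0.le)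
  rw [hZ, ← pow_mul]
  refine pow_le_pow_right₀ (by norm_num) ?_
  have h1 : C₁ + x + x + 2 ≤ (C₁ + 4) * (x + 1) := by nlinarith
  calc (C₁ + x + x + 2) * r ≤ (C₁ + 4) * (x + 1) * (r + 1) := Nat.mul_le_mul h1 (by omega)
    _ = _ := by ring

/-- **Vectors of the frame in the windows.** -/
theorem nv_nrm (D r : ℕ) : ∃ C : ℕ, ∀ {m J : ℕ} {F : Fam m J} {c : ℕ → Fin m}
    {n M ar MB q₀ Q x p e su : ℕ} {s : ℕ → ℕ} {qe : Fin r → ℕ} {o : ℕ → ℕ}
    {z g gc gT g₀ : ℕ → ℕ → ℕ} {B : F.Ω → Prop}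
    {G T : ℕ → PtT F → ℕ → MvPolynomial (Option (Fin m)) ℝ}
    {H TH : ℕ → LnT F → ℕ → MvPolynomial (Option (Fin m)) ℝ}
    {Ht CL : LnT F → MvPolynomial (Option (Fin m)) ℝ}
    {Cp : PtT F → MvPolynomial (Option (Fin m)) ℝ},
    NvD F c r D n M ar MB q₀ Q x p e su s qe o z g gc gT g₀ B G T H TH Ht CL Cp → ∀ ω, B ω →
    ∀ V : Option (Fin m) → ℝ, V none = 0 →
    (∀ j < r, |V (some (c j)) - dd (G 0 (ptr F J ω) j) (bt F ω) V| ≤ 1 / 2 ^ s j) →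
    nrm c (G 2 (ptr F J ω)) (g₀ 2) (o 2) r (bt F ω) V ≤ 2 ^ (C * (x + 1)) * 2 ^ Q ∧
    nrm c (G 3 (ptr F J ω)) (g₀ 3) (o 3) r (bt F ω) V ≤ 2 ^ (C * (x + 1)) * 2 ^ (o 3 - o 1) ∧
    nrm c (TH 3 (slam F (o 3) ω)) (gT 3) ar r (bt F ω) V ≤
      2 ^ (C * (x + 1)) * 2 ^ (ar - o 1) ∧
    |dd (TH 3 (slam F (o 3) ω) r) (bt F ω) V - dd (G 3 (ptr F J ω) r) (bt F ω) V| ≤
      2 ^ (C * (x + 1)) * 2 ^ (o 3 - o 1) / 2 ^ g₀ 3 r := by
  obtain ⟨C₁, hnw⟩ := nrm_win D r (r + 1) (Nat.le_succ r)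
  obtain ⟨C₂, hC₂⟩ := pow_unbounded_of_one_lt ((r : ℝ) + 1) (one_lt_two (α := ℝ))
  obtain ⟨Cb, hCb, hba⟩ := box_all r D D
  obtain ⟨C₃, hC₃⟩ := pow_unbounded_of_one_lt Cb (one_lt_two (α := ℝ))
  refine ⟨C₁ + C₂ + C₃ + 5, ?_⟩
  intro m J F c n M ar MB q₀ Q x p e su s qe o z g gc gT g₀ B G T H TH Ht CL Cp W ω hω V hV0 hV
  obtain ⟨q02, hq02, hz02⟩ := W.z02
  obtain ⟨q03, hq03, hz03⟩ := W.z03
  have hn3 := W.n3
  have ho1 := W.o1
  have ho2 := W.o2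
  have ho3 := W.o3
  have hoa := W.oa
  have e21 : o 2 - o 1 = Q := by omega
  have hN2 := hnw W.hc1 W.bal (show 2 ≤ n by omega) hq02 (by omega) hz02 (W.dG 0) (W.pG 0) W.ch2
    W.n2c (fun j hj => by have := W.n2a j hj; omega) ω hω V hV0 hV
  have hN3 := hnw W.hc1 W.bal (show 3 ≤ n by omega) hq03 (by omega) hz03 (W.dG 0) (W.pG 0) W.ch3
    W.n3a W.n3b ω hω V hV0 hV
  rw [e21] at hN2
  obtain ⟨Y₁, hY₁⟩ : ∃ Y₁ : ℝ, Y₁ = 2 ^ (C₁ * (x + 1)) := ⟨_, rfl⟩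
  rw [← hY₁] at hN2 hN3
  have hY10 : 0 < Y₁ := by rw [hY₁]; positivity
  obtain ⟨Y, hY⟩ : ∃ Y : ℝ, Y = 2 ^ ((C₁ + C₂ + C₃ + 5) * (x + 1)) := ⟨_, rfl⟩
  rw [← hY]
  have hYb : ∀ {k : ℕ}, k ≤ (C₂ + C₃ + 5) * (x + 1) → 2 ^ k * Y₁ ≤ Y := by
    intro k hk
    rw [hY, hY₁, ← pow_add]
    refine pow_le_pow_right₀ (by norm_num) ?_
    calc k + C₁ * (x + 1) ≤ (C₂ + C₃ + 5) * (x + 1) + C₁ * (x + 1) := by omega
      _ = _ := by ring
  have hY1Y : Y₁ ≤ Y := by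
    have := hYb (k := 0) (Nat.zero_le _)
    rwa [pow_zero, one_mul] at this
  have hp2x : (1 : ℝ) ≤ 2 ^ x := one_le_pow₀ (by norm_num)
  obtain ⟨N, hN⟩ : ∃ N : ℝ, N = nrm c (G 3 (ptr F J ω)) (g₀ 3) (o 3) r (bt F ω) V := ⟨_, rfl⟩
  have hN0 : 0 ≤ N := by
    rw [hN]
    exact nrm_nonneg _ _ _ _ _ _ _
  have hNb : N ≤ Y₁ * 2 ^ (o 3 - o 1) := by
    rw [hN]
    exact hN3
  have ha1 : (2 : ℝ) ^ (ar - o 3) * 2 ^ (o 3 - o 1) = 2 ^ (ar - o 1) := by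
    rw [← pow_add]
    congr 1
    omega
  -- the components
  have hcomp : ∀ l < r, |V (some (c l)) - dd (G 3 (ptr F J ω) l) (bt F ω) V| ≤ N / 2 ^ g₀ 3 l :=
    fun l hl => by
      rw [hN]
      exact nrm_comp _ _ _ _ _ _ _ hl
  have hgT : ∀ l < r, (2 : ℝ) ^ gT 3 l ≤ 2 ^ g₀ 3 l * 2 ^ (ar - o 3 + x) := by
    intro l hl
    rw [← pow_add]
    exact pow_le_pow_right₀ (by norm_num) (by have := W.n3c l hl; omega)
  -- the thin boxes of the line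
  have hNT : nrm c (TH 3 (slam F (o 3) ω)) (gT 3) ar r (bt F ω) V ≤
      (r + 1) * (2 * 2 ^ (2 * x) * 2 ^ (ar - o 3) * N) := by
    refine nrm_le (by rw [hV0, abs_zero]; positivity) fun l hl => ?_
    rw [W.hTH l hl]
    have h1 := (W.ro.dif ω hω l (by omega)).1 V
    rw [dd_sub] at h1
    have h1' : |dd (Hno (c l) (fun s => H 3 s l) (slam F (o 3) ω)) (bt F ω) V -
        dd (G 3 (ptr F J ω) l) (bt F ω) V| ≤ 2 ^ x / 2 ^ g₀ 3 l * N :=
      h1.trans (mul_le_mul_of_nonneg_left (by rw [hN]; exact nrm_mono hl.le _ _) (by positivity))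
    have h2 := hcomp l hl
    have e1 : V (some (c l)) - dd (Hno (c l) (fun s => H 3 s l) (slam F (o 3) ω)) (bt F ω) V =
        (V (some (c l)) - dd (G 3 (ptr F J ω) l) (bt F ω) V) -
        (dd (Hno (c l) (fun s => H 3 s l) (slam F (o 3) ω)) (bt F ω) V -
          dd (G 3 (ptr F J ω) l) (bt F ω) V) := by ring
    rw [e1]
    refine (abs_sub _ _).trans ((add_le_add h2 h1').trans ?_)
    rw [le_div_iff₀ (by positivity)]
    have e2 : (N / 2 ^ g₀ 3 l + 2 ^ x / 2 ^ g₀ 3 l * N) * 2 ^ gT 3 l =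
        (1 + 2 ^ x) * N / 2 ^ g₀ 3 l * 2 ^ gT 3 l := by ring
    rw [e2]
    refine (mul_le_mul_of_nonneg_left (hgT l hl) (by positivity)).trans ?_
    have e3 : (1 + 2 ^ x) * N / 2 ^ g₀ 3 l * (2 ^ g₀ 3 l * 2 ^ (ar - o 3 + x)) =
        (1 + 2 ^ x) * 2 ^ x * (2 ^ (ar - o 3) * N) := by
      rw [pow_add]
      field_simp
    have e4 : 2 * 2 ^ (2 * x) * 2 ^ (ar - o 3) * N =
        (2 ^ x + 2 ^ x) * 2 ^ x * (2 ^ (ar - o 3) * N) := by
      rw [two_mul x, pow_add]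
      ring
    rw [e3, e4]
    refine mul_le_mul_of_nonneg_right (mul_le_mul_of_nonneg_right (by linarith) (by positivity))
      (by positivity)
  -- the thin boxes of the point
  have hNP : nrm c (T 3 (ptr F J ω)) (gT 3) ar r (bt F ω) V ≤
      (r + 1) * (2 ^ x * 2 ^ (ar - o 3) * N) := by
    refine nrm_le (by rw [hV0, abs_zero]; positivity) fun l hl => ?_
    rw [W.hT l hl, dd_Gno]
    refine (hcomp l hl).trans ?_
    rw [div_le_div_iff₀ (by positivity) (by positivity)]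
    calc N * 2 ^ gT 3 l ≤ N * (2 ^ g₀ 3 l * 2 ^ (ar - o 3 + x)) :=
          mul_le_mul_of_nonneg_left (hgT l hl) hN0
      _ = _ := by
          rw [pow_add]
          ring
  have hmul : (r + 1 : ℝ) * (2 ^ x * 2 ^ (ar - o 3) * N) ≤
      2 ^ (C₂ + x) * Y₁ * 2 ^ (ar - o 1) := by
    rw [← ha1, pow_add]
    calc (r + 1 : ℝ) * (2 ^ x * 2 ^ (ar - o 3) * N) ≤
        2 ^ C₂ * (2 ^ x * 2 ^ (ar - o 3) * (Y₁ * 2 ^ (o 3 - o 1))) :=
          mul_le_mul hC₂.le (mul_le_mul_of_nonneg_left hNb (by positivity)) (by positivity)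
            (by positivity)
      _ = _ := by ring
  refine ⟨hN2.trans (mul_le_mul_of_nonneg_right hY1Y (by positivity)),
    hN3.trans (mul_le_mul_of_nonneg_right hY1Y (by positivity)), hNT.trans ?_, ?_⟩
  · have e1 : (r + 1 : ℝ) * (2 * 2 ^ (2 * x) * 2 ^ (ar - o 3) * N) =
        2 * 2 ^ x * ((r + 1 : ℝ) * (2 ^ x * 2 ^ (ar - o 3) * N)) := by
      rw [two_mul x, pow_add]
      ring
    rw [e1]
    refine (mul_le_mul_of_nonneg_left hmul (by positivity)).trans ?_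
    have e2 : 2 * 2 ^ x * (2 ^ (C₂ + x) * Y₁ * 2 ^ (ar - o 1)) =
        2 ^ (1 + x + (C₂ + x)) * Y₁ * 2 ^ (ar - o 1) := by
      simp only [pow_add, pow_one]
      ring
    rw [e2]
    exact mul_le_mul_of_nonneg_right (hYb (by nlinarith)) (by positivity)
  · -- the thin chart of `u`
    have hgc : (2 : ℝ) ^ (ar - o 3) * 2 ^ g₀ 3 r ≤ 2 ^ x * 2 ^ gc 3 r := by
      rw [← pow_add, ← pow_add]
      exact pow_le_pow_right₀ (by norm_num) (by have := W.u4; omega)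
    have hbox : ∀ b, NBx c (T 3 (ptr F J ω)) (gT 3) ar (F.t ω) r b →
        |eval b (TH 3 (slam F (o 3) ω) r - Gno (c r) J J (fun y => G 3 y r) (ptr F J ω))| ≤
          2 ^ (x + 1) / 2 ^ gc 3 r := by
      intro b hb
      have h1 := W.thin.agr ω hω r (Nat.lt_succ_self r) b hb
      have h2 := W.bal.inc 3 hn3 ω hω (r + 1) le_rfl (up (c r) b (eval b (T 3 (ptr F J ω) r)))
        (box_up W.hc1 (W.thin.depG _) hb (by rw [sub_self, abs_zero]; positivity)) r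
        (Nat.lt_succ_self r)
      rw [up_self, eval_up W.hc1 (depC_Gno (c r) (fun y => G 3 y r) (ptr F J ω)
        (W.pG 3 _ r))] at h2
      rw [map_sub]
      have h3 : (1 : ℝ) / 2 ^ gT 3 r ≤ 2 ^ x / 2 ^ gc 3 r := p2_le (by have := W.u5; omega)
      have e1 : eval b (TH 3 (slam F (o 3) ω) r) -
          eval b (Gno (c r) J J (fun y => G 3 y r) (ptr F J ω)) =
          (eval b (T 3 (ptr F J ω) r) - eval b (Gno (c r) J J (fun y => G 3 y r) (ptr F J ω))) -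
          (eval b (T 3 (ptr F J ω) r) - eval b (TH 3 (slam F (o 3) ω) r)) := by ring
      rw [e1]
      refine (abs_sub _ _).trans ((add_le_add h2 (h1.trans h3)).trans (le_of_eq ?_))
      rw [pow_succ]
      ring
    have hdep : DepC c r (TH 3 (slam F (o 3) ω) r -
        Gno (c r) J J (fun y => G 3 y r) (ptr F J ω)) := fun b b' h0 h1 => by
      rw [map_sub, map_sub, W.thin.depH _ r b b' h0 h1,
        depC_Gno (c r) (fun y => G 3 y r) (ptr F J ω) (W.pG 3 _ r) b b' h0 h1]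
    have h1 := (hba (c := c) (ψ := T 3 (ptr F J ω)) (Q := TH 3 (slam F (o 3) ω) r -
      Gno (c r) J J (fun y => G 3 y r) (ptr F J ω)) (g := gT 3) (a := ar)
      (M := 2 ^ (x + 1) / 2 ^ gc 3 r) (x := bt F ω) W.hcr (W.thin.degG _) (W.thin.depG _) hdep
      ((totalDegree_sub _ _).trans (max_le (W.thin.degH _ r) (deg_Gno (c r) (fun y => G 3 y r)
        (ptr F J ω) (W.dG 3 _ r)))) (by positivity) (fun b hb => hbox b hb)
      (fun l hl => W.thin.pos ω hω l (by omega))).1 V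
    rw [dd_sub, dd_Gno] at h1
    refine h1.trans ((mul_le_mul_of_nonneg_left (hNP.trans hmul) (by positivity)).trans ?_)
    rw [le_div_iff₀ (by positivity)]
    have e1 : Cb * (2 ^ (x + 1) / 2 ^ gc 3 r) * (2 ^ (C₂ + x) * Y₁ * 2 ^ (ar - o 1)) *
        2 ^ g₀ 3 r = Cb * 2 ^ (x + 1) * 2 ^ (C₂ + x) * Y₁ *
        (2 ^ (ar - o 3) * 2 ^ g₀ 3 r / 2 ^ gc 3 r) * 2 ^ (o 3 - o 1) := by
      rw [← ha1]
      ring
    rw [e1]
    refine mul_le_mul_of_nonneg_right ?_ (by positivity)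
    have h2 : (2 : ℝ) ^ (ar - o 3) * 2 ^ g₀ 3 r / 2 ^ gc 3 r ≤ 2 ^ x := by
      rw [div_le_iff₀ (by positivity)]
      exact hgc
    calc Cb * 2 ^ (x + 1) * 2 ^ (C₂ + x) * Y₁ * (2 ^ (ar - o 3) * 2 ^ g₀ 3 r / 2 ^ gc 3 r) ≤
        2 ^ C₃ * 2 ^ (x + 1) * 2 ^ (C₂ + x) * Y₁ * 2 ^ x := by
          refine mul_le_mul (mul_le_mul_of_nonneg_right (mul_le_mul_of_nonneg_right
            (mul_le_mul_of_nonneg_right hC₃.le (by positivity)) (by positivity)) hY10.le) h2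
            (by positivity) (by positivity)
      _ = 2 ^ (C₃ + (x + 1) + (C₂ + x) + x) * Y₁ := by
          simp only [pow_add, pow_one]
          ring
      _ ≤ Y := hYb (by nlinarith)

end Pool.V1E
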