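import Pool.Agent.H69.NE.Nvw

/-!
# The gradients of the charts of `u` and of the row label of `N`

`nv_dd`.
-/

set_option autoImplicit false

namespace Pool.V1E

open Finset Real MvPolynomial
open Pool.KA Pool.KSAT Pool.PB Pool.GEN Pool.D2R Pool.D2G30 Pool.ISO Pool.CHT Pool.CHX
open Pool.PB.Trl (rt rt_mem t_rt)

/-- **The gradients**: the charts of `u`, and the row label of `N` in the directions natural for the
thin chart of `u`. -/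
theorem nv_dd (D r : ℕ) : ∃ C : ℕ, ∀ {m J : ℕ} {F : Fam m J} {c : ℕ → Fin m}
    {n M ar MB q₀ Q x p e su : ℕ} {s : ℕ → ℕ} {qe : Fin r → ℕ} {o : ℕ → ℕ}
    {z g gc gT g₀ : ℕ → ℕ → ℕ} {B : F.Ω → Prop}
    {G T : ℕ → PtT F → ℕ → MvPolynomial (Option (Fin m)) ℝ}
    {H TH : ℕ → LnT F → ℕ → MvPolynomial (Option (Fin m)) ℝ}
    {Ht CL : LnT F → MvPolynomial (Option (Fin m)) ℝ}
    {Cp : PtT F → MvPolynomial (Option (Fin m)) ℝ},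
    NvD F c r D n M ar MB q₀ Q x p e su s qe o z g gc gT g₀ B G T H TH Ht CL Cp → ∀ ω, B ω →
    ∀ V : Option (Fin m) → ℝ, V none = 0 →
    (∀ j < r, |V (some (c j)) - dd (G 0 (ptr F J ω) j) (bt F ω) V| ≤ 1 / 2 ^ s j) →
    nrm c (G 2 (ptr F J ω)) (g₀ 2) (o 2) r (bt F ω) V ≤ 2 ^ (C * (x + 1)) * 2 ^ Q ∧
    |dd (G 1 (ptr F J ω) r) (bt F ω) V - dd (G 2 (ptr F J ω) r) (bt F ω) V| ≤
      2 ^ (C * (x + 1)) / 2 ^ su ∧
    |dd (TH 3 (slam F (o 3) ω) r) (bt F ω) V - dd (G 2 (ptr F J ω) r) (bt F ω) V| ≤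
      2 ^ (C * (x + 1)) * 2 ^ Q / 2 ^ g₀ 2 r ∧
    |dd (Ht (slam F (o 1) ω)) (bt F ω)
        (up (c r) V (dd (TH 3 (slam F (o 3) ω) r) (bt F ω) V)) -
      dd (G 2 (ptr F J ω) (r + 1)) (bt F ω)
        (up (c r) V (dd (TH 3 (slam F (o 3) ω) r) (bt F ω) V))| ≤
      2 ^ (C * (x + 1)) / 2 ^ (s r + (MB - Q)) := by
  obtain ⟨C₁, hnn⟩ := nv_nrm D r
  obtain ⟨C₂, hbd⟩ := bale_dd D (r + 1)
  refine ⟨2 * C₁ + 2 * C₂ + 8, ?_⟩
  intro m J F c n M ar MB q₀ Q x p e su s qe o z g gc gT g₀ B G T H TH Ht CL Cp W ω hω V hV0 hV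
  obtain ⟨n2, n3, nT, nu⟩ := hnn W ω hω V hV0 hV
  have hn3 := W.n3
  have ho1 := W.o1
  have ho2 := W.o2
  have ho3 := W.o3
  have hoa := W.oa
  have h3J := W.oJ
  have hQM := W.QM
  obtain ⟨q12, hq12, hz12⟩ := W.z12
  obtain ⟨q23, hq23, hz23⟩ := W.z23
  obtain ⟨Y₁, hY₁⟩ : ∃ Y₁ : ℝ, Y₁ = 2 ^ (C₁ * (x + 1)) := ⟨_, rfl⟩
  rw [← hY₁] at n2 n3 nT nu
  have hY10 : 0 < Y₁ := by rw [hY₁]; positivity
  obtain ⟨Y, hY⟩ : ∃ Y : ℝ, Y = 2 ^ ((2 * C₁ + 2 * C₂ + 8) * (x + 1)) := ⟨_, rfl⟩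
  rw [← hY]
  have hYb : ∀ {k : ℕ}, k ≤ (2 * C₂ + 8) * (x + 1) → 2 ^ k * Y₁ ≤ Y := by
    intro k hk
    rw [hY, hY₁, ← pow_add]
    refine pow_le_pow_right₀ (by norm_num) ?_
    calc k + C₁ * (x + 1) ≤ (2 * C₂ + 8) * (x + 1) + 2 * (C₁ * (x + 1)) := by omega
      _ = _ := by ring
  have hY1Y : Y₁ ≤ Y := by
    have := hYb (k := 0) (Nat.zero_le _)
    rwa [pow_zero, one_mul] at this
  have hU0 : (0 : ℝ) ≤ 2 ^ x := by positivity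
  have hx1 : (1 : ℝ) ≤ 2 ^ x := one_le_pow₀ (by norm_num)
  -- the charts of `u` of the windows `o 1`, `o 2`
  have k12 := hbd W.hc1 W.bal hU0 (show 1 ≤ n by omega) (show 2 ≤ n by omega) hq12 (by omega) hz12
    (W.dG 1) (W.pG 1) W.ch2 ω hω r (Nat.le_succ r) V
  have k23 := hbd W.hc1 W.bal hU0 (show 2 ≤ n by omega) (show 3 ≤ n by omega) hq23 (by omega) hz23
    (W.dG 2) (W.pG 2) W.ch3 ω hω r (Nat.le_succ r) V
  have e21 : o 2 - o 1 = Q := by omega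
  rw [e21] at k12
  have hp1 : (2 : ℝ) ^ Q / 2 ^ min (g 1 r + Q) (g₀ 2 r) ≤ 2 ^ x / 2 ^ su := by
    refine p2_le' ?_
    have := W.u1
    have := W.u2
    rcases le_total (g 1 r + Q) (g₀ 2 r) with h | h
    · rw [min_eq_left h]
      omega
    · rw [min_eq_right h]
      omega
  have hp2 : (2 : ℝ) ^ (o 3 - o 1) / 2 ^ min (g 2 r + (o 3 - o 2)) (g₀ 3 r) ≤
      2 ^ (x + Q) / 2 ^ g₀ 2 r := by
    refine p2_le' ?_
    have := W.u2'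
    have := W.u3
    rcases le_total (g 2 r + (o 3 - o 2)) (g₀ 3 r) with h | h
    · rw [min_eq_left h]
      omega
    · rw [min_eq_right h]
      omega
  have hp3 : (2 : ℝ) ^ (o 3 - o 1) / 2 ^ g₀ 3 r ≤ 2 ^ (x + Q) / 2 ^ g₀ 2 r := by
    refine p2_le' ?_
    have := W.u3
    omega
  have f12 : |dd (G 1 (ptr F J ω) r) (bt F ω) V - dd (G 2 (ptr F J ω) r) (bt F ω) V| ≤
      Y / 2 ^ su := by
    refine k12.trans ((mul_le_mul_of_nonneg_left n2 (by positivity)).trans ?_)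
    calc 2 ^ C₂ * 2 ^ x / 2 ^ min (g 1 r + Q) (g₀ 2 r) * (Y₁ * 2 ^ Q) =
        2 ^ C₂ * 2 ^ x * Y₁ * (2 ^ Q / 2 ^ min (g 1 r + Q) (g₀ 2 r)) := by ring
      _ ≤ 2 ^ C₂ * 2 ^ x * Y₁ * (2 ^ x / 2 ^ su) := mul_le_mul_of_nonneg_left hp1 (by positivity)
      _ = 2 ^ (C₂ + x + x) * Y₁ / 2 ^ su := by
          simp only [pow_add]
          ring
      _ ≤ _ := div_le_div_of_nonneg_right (hYb (by nlinarith)) (by positivity)
  have f23 : |dd (G 2 (ptr F J ω) r) (bt F ω) V - dd (G 3 (ptr F J ω) r) (bt F ω) V| ≤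
      2 ^ (C₂ + x + x) * Y₁ * 2 ^ Q / 2 ^ g₀ 2 r := by
    refine k23.trans ((mul_le_mul_of_nonneg_left n3 (by positivity)).trans ?_)
    calc 2 ^ C₂ * 2 ^ x / 2 ^ min (g 2 r + (o 3 - o 2)) (g₀ 3 r) * (Y₁ * 2 ^ (o 3 - o 1)) =
        2 ^ C₂ * 2 ^ x * Y₁ * (2 ^ (o 3 - o 1) / 2 ^ min (g 2 r + (o 3 - o 2)) (g₀ 3 r)) := by ring
      _ ≤ 2 ^ C₂ * 2 ^ x * Y₁ * (2 ^ (x + Q) / 2 ^ g₀ 2 r) :=
          mul_le_mul_of_nonneg_left hp2 (by positivity)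
      _ = _ := by
          simp only [pow_add]
          ring
  have fT2 : |dd (TH 3 (slam F (o 3) ω) r) (bt F ω) V - dd (G 2 (ptr F J ω) r) (bt F ω) V| ≤
      Y * 2 ^ Q / 2 ^ g₀ 2 r := by
    have e1 : dd (TH 3 (slam F (o 3) ω) r) (bt F ω) V - dd (G 2 (ptr F J ω) r) (bt F ω) V =
        (dd (TH 3 (slam F (o 3) ω) r) (bt F ω) V - dd (G 3 (ptr F J ω) r) (bt F ω) V) -
        (dd (G 2 (ptr F J ω) r) (bt F ω) V - dd (G 3 (ptr F J ω) r) (bt F ω) V) := by ring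
    rw [e1]
    have h1 : Y₁ * 2 ^ (o 3 - o 1) / 2 ^ g₀ 3 r ≤ 2 ^ x * Y₁ * 2 ^ Q / 2 ^ g₀ 2 r := by
      calc Y₁ * 2 ^ (o 3 - o 1) / 2 ^ g₀ 3 r = Y₁ * (2 ^ (o 3 - o 1) / 2 ^ g₀ 3 r) := by ring
        _ ≤ Y₁ * (2 ^ (x + Q) / 2 ^ g₀ 2 r) := mul_le_mul_of_nonneg_left hp3 hY10.le
        _ = _ := by
            rw [pow_add]
            ring
    refine (abs_sub _ _).trans ((add_le_add (nu.trans h1) f23).trans ?_)
    have h2 : 2 ^ x * Y₁ + 2 ^ (C₂ + x + x) * Y₁ ≤ Y := by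
      have h3 : (2 : ℝ) ^ x ≤ 2 ^ (C₂ + x + x) := pow_le_pow_right₀ (by norm_num) (by omega)
      have h4 := hYb (k := C₂ + x + x + 1) (by nlinarith)
      rw [pow_succ] at h4
      nlinarith
    calc 2 ^ x * Y₁ * 2 ^ Q / 2 ^ g₀ 2 r + 2 ^ (C₂ + x + x) * Y₁ * 2 ^ Q / 2 ^ g₀ 2 r =
        (2 ^ x * Y₁ + 2 ^ (C₂ + x + x) * Y₁) * (2 ^ Q / 2 ^ g₀ 2 r) := by ring
      _ ≤ Y * (2 ^ Q / 2 ^ g₀ 2 r) := mul_le_mul_of_nonneg_right h2 (by positivity)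
      _ = _ := by ring
  refine ⟨n2.trans (mul_le_mul_of_nonneg_right hY1Y (by positivity)), f12, fT2, ?_⟩
  -- the row label
  obtain ⟨v, hv⟩ : ∃ v : ℝ, v = dd (TH 3 (slam F (o 3) ω) r) (bt F ω) V := ⟨_, rfl⟩
  obtain ⟨U, hU⟩ : ∃ U, U = up (c r) V v := ⟨_, rfl⟩
  rw [← hv, ← hU]
  have hUn : U none = V none := by rw [hU, up_none]
  have hUl : ∀ l < r, U (some (c l)) = V (some (c l)) := fun l hl => by
    rw [hU]
    exact up_ne (fun he => by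
      have := W.hc1 (Set.mem_Iio.2 (show l < r + 1 by omega))
        (Set.mem_Iio.2 (Nat.lt_succ_self r)) he
      omega) _ _
  have hUr : U (some (c r)) = v := by rw [hU, up_self]
  have hdU : ∀ {R : MvPolynomial (Option (Fin m)) ℝ}, DepC c r R →
      dd R (bt F ω) U = dd R (bt F ω) V := fun hR => dd_congr hR _ hUn hUl
  have hnS : ∀ (ψ : ℕ → MvPolynomial (Option (Fin m)) ℝ) (g' : ℕ → ℕ) (a : ℕ),
      (∀ l, DepC c l (ψ l)) → nrm c ψ g' a (r + 1) (bt F ω) U =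
        nrm c ψ g' a r (bt F ω) V + 2 ^ g' r * |v - dd (ψ r) (bt F ω) V| := by
    intro ψ g' a hψ
    rw [← nrm_congr hψ hUn hUl]
    unfold nrm
    rw [Finset.sum_range_succ, add_assoc, hUr, hdU (hψ r)]
  have hNT : nrm c (TH 3 (slam F (o 3) ω)) (gT 3) ar (r + 1) (bt F ω) U ≤
      Y₁ * 2 ^ (ar - o 1) := by
    rw [hnS _ _ _ (W.thin.depH _), hv, sub_self, abs_zero, mul_zero, add_zero]
    exact nT
  have hN3 : nrm c (G 3 (ptr F J ω)) (g₀ 3) (o 3) (r + 1) (bt F ω) U ≤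
      2 * Y₁ * 2 ^ (o 3 - o 1) := by
    rw [hnS _ _ _ (W.pG 3 _), hv]
    have h1 : 2 ^ g₀ 3 r * |dd (TH 3 (slam F (o 3) ω) r) (bt F ω) V -
        dd (G 3 (ptr F J ω) r) (bt F ω) V| ≤ Y₁ * 2 ^ (o 3 - o 1) := by
      rw [le_div_iff₀ (by positivity)] at nu
      linarith
    linarith
  have har : o 3 + (ar - o 3) = ar := by omega
  have d1 : |dd (Ht (slam F (o 1) ω)) (bt F ω) U -
      dd (Hno (c (r + 1)) (fun s => H 3 s (r + 1)) (slam F (o 3) ω)) (bt F ω) U| ≤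
      2 ^ x / 2 ^ p * (Y₁ * 2 ^ (ar - o 1)) := by
    have h1 := W.ro.win ω hω (rt F (o 3) ω) (rt_mem F (o 3) ω) U
    rw [ptw_rt F h3J, dd_sub, har] at h1
    exact h1.trans (mul_le_mul_of_nonneg_left hNT (by positivity))
  have d2 : |dd (Hno (c (r + 1)) (fun s => H 3 s (r + 1)) (slam F (o 3) ω)) (bt F ω) U -
      dd (G 3 (ptr F J ω) (r + 1)) (bt F ω) U| ≤
      2 ^ x / 2 ^ g₀ 3 (r + 1) * (2 * Y₁ * 2 ^ (o 3 - o 1)) := by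
    have h1 := (W.ro.dif ω hω (r + 1) le_rfl).1 U
    rw [dd_sub] at h1
    exact h1.trans (mul_le_mul_of_nonneg_left hN3 (by positivity))
  have d3 : |dd (G 2 (ptr F J ω) (r + 1)) (bt F ω) U -
      dd (G 3 (ptr F J ω) (r + 1)) (bt F ω) U| ≤
      2 ^ C₂ * 2 ^ x / 2 ^ min (g 2 (r + 1) + (o 3 - o 2)) (g₀ 3 (r + 1)) *
        (2 * Y₁ * 2 ^ (o 3 - o 1)) := by
    have h1 := hbd W.hc1 W.bal hU0 (show 2 ≤ n by omega) (show 3 ≤ n by omega) hq23 (by omega) hz23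
      (W.dG 2) (W.pG 2) W.ch3 ω hω (r + 1) le_rfl U
    exact h1.trans (mul_le_mul_of_nonneg_left hN3 (by positivity))
  have g1 : (2 : ℝ) ^ (ar - o 1) / 2 ^ p ≤ 2 ^ x / 2 ^ (s r + (MB - Q)) := by
    refine p2_le' ?_
    have := W.mp
    omega
  have g2 : (2 : ℝ) ^ (o 3 - o 1) / 2 ^ g₀ 3 (r + 1) ≤ 2 ^ x / 2 ^ (s r + (MB - Q)) := by
    refine p2_le' ?_
    have := W.m3
    omega
  have g3 : (2 : ℝ) ^ (o 3 - o 1) / 2 ^ min (g 2 (r + 1) + (o 3 - o 2)) (g₀ 3 (r + 1)) ≤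
      2 ^ x / 2 ^ (s r + (MB - Q)) := by
    refine p2_le' ?_
    have := W.m3
    have := W.m2'
    rcases le_total (g 2 (r + 1) + (o 3 - o 2)) (g₀ 3 (r + 1)) with h | h
    · rw [min_eq_left h]
      omega
    · rw [min_eq_right h]
      omega
  obtain ⟨ι, hι⟩ : ∃ ι : ℝ, ι = 1 / 2 ^ (s r + (MB - Q)) := ⟨_, rfl⟩
  have hι0 : 0 < ι := by rw [hι]; positivity
  have hxι : (2 : ℝ) ^ x / 2 ^ (s r + (MB - Q)) = 2 ^ x * ι := by rw [hι]; ring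
  rw [hxι] at g1 g2 g3
  have d1' : |dd (Ht (slam F (o 1) ω)) (bt F ω) U -
      dd (Hno (c (r + 1)) (fun s => H 3 s (r + 1)) (slam F (o 3) ω)) (bt F ω) U| ≤
      2 ^ (C₂ + x + x + 1) * Y₁ * ι := by
    refine d1.trans ?_
    calc 2 ^ x / 2 ^ p * (Y₁ * 2 ^ (ar - o 1)) = 2 ^ x * Y₁ * (2 ^ (ar - o 1) / 2 ^ p) := by ring
      _ ≤ 2 ^ x * Y₁ * (2 ^ x * ι) := mul_le_mul_of_nonneg_left g1 (by positivity)
      _ = 2 ^ (x + x) * (Y₁ * ι) := by rw [pow_add]; ring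
      _ ≤ 2 ^ (C₂ + x + x + 1) * (Y₁ * ι) := mul_le_mul_of_nonneg_right
          (pow_le_pow_right₀ (by norm_num) (by omega)) (by positivity)
      _ = _ := by ring
  have d2' : |dd (Hno (c (r + 1)) (fun s => H 3 s (r + 1)) (slam F (o 3) ω)) (bt F ω) U -
      dd (G 3 (ptr F J ω) (r + 1)) (bt F ω) U| ≤ 2 ^ (C₂ + x + x + 1) * Y₁ * ι := by
    refine d2.trans ?_
    calc 2 ^ x / 2 ^ g₀ 3 (r + 1) * (2 * Y₁ * 2 ^ (o 3 - o 1)) =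
        2 * 2 ^ x * Y₁ * (2 ^ (o 3 - o 1) / 2 ^ g₀ 3 (r + 1)) := by ring
      _ ≤ 2 * 2 ^ x * Y₁ * (2 ^ x * ι) := mul_le_mul_of_nonneg_left g2 (by positivity)
      _ = 2 ^ (x + x + 1) * (Y₁ * ι) := by rw [pow_succ, pow_add]; ring
      _ ≤ 2 ^ (C₂ + x + x + 1) * (Y₁ * ι) := mul_le_mul_of_nonneg_right
          (pow_le_pow_right₀ (by norm_num) (by omega)) (by positivity)
      _ = _ := by ring
  have d3' : |dd (G 2 (ptr F J ω) (r + 1)) (bt F ω) U -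
      dd (G 3 (ptr F J ω) (r + 1)) (bt F ω) U| ≤ 2 ^ (C₂ + x + x + 1) * Y₁ * ι := by
    refine d3.trans ?_
    calc 2 ^ C₂ * 2 ^ x / 2 ^ min (g 2 (r + 1) + (o 3 - o 2)) (g₀ 3 (r + 1)) *
        (2 * Y₁ * 2 ^ (o 3 - o 1)) = 2 * 2 ^ C₂ * 2 ^ x * Y₁ * (2 ^ (o 3 - o 1) /
          2 ^ min (g 2 (r + 1) + (o 3 - o 2)) (g₀ 3 (r + 1))) := by ring
      _ ≤ 2 * 2 ^ C₂ * 2 ^ x * Y₁ * (2 ^ x * ι) := mul_le_mul_of_nonneg_left g3 (by positivity)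
      _ = _ := by
          simp only [pow_add, pow_one]
          ring
  have e0 : dd (Ht (slam F (o 1) ω)) (bt F ω) U - dd (G 2 (ptr F J ω) (r + 1)) (bt F ω) U =
      (dd (Ht (slam F (o 1) ω)) (bt F ω) U -
        dd (Hno (c (r + 1)) (fun s => H 3 s (r + 1)) (slam F (o 3) ω)) (bt F ω) U) +
      (dd (Hno (c (r + 1)) (fun s => H 3 s (r + 1)) (slam F (o 3) ω)) (bt F ω) U -
        dd (G 3 (ptr F J ω) (r + 1)) (bt F ω) U) -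
      (dd (G 2 (ptr F J ω) (r + 1)) (bt F ω) U -
        dd (G 3 (ptr F J ω) (r + 1)) (bt F ω) U) := by ring
  rw [e0]
  refine (abs_sub _ _).trans ((add_le_add ((abs_add_le _ _).trans (add_le_add d1' d2')) d3').trans
    ?_)
  have h4 := hYb (k := C₂ + x + x + 3) (by nlinarith)
  have e1 : (2 : ℝ) ^ (C₂ + x + x + 3) = 4 * 2 ^ (C₂ + x + x + 1) := by
    rw [show C₂ + x + x + 3 = C₂ + x + x + 1 + 2 by ring, pow_add _ _ 2]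
    ring
  rw [e1] at h4
  have e2 : Y / 2 ^ (s r + (MB - Q)) = Y * ι := by rw [hι]; ring
  rw [e2]
  have h5 : 2 ^ (C₂ + x + x + 1) * Y₁ * ι + 2 ^ (C₂ + x + x + 1) * Y₁ * ι +
      2 ^ (C₂ + x + x + 1) * Y₁ * ι ≤ 4 * 2 ^ (C₂ + x + x + 1) * Y₁ * ι := by
    have : 0 ≤ 2 ^ (C₂ + x + x + 1) * Y₁ * ι := by positivity
    linarith
  exact h5.trans (mul_le_mul_of_nonneg_right h4 hι0.le)

end Pool.V1E
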