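import Pool.Agent.H69.NE.Tg

/-!
# Substitution of one coordinate

`up k b v`: the point `b` with the coordinate `k` replaced by `v`; `sb k G R`: the polynomial `R` with
the coordinate `k` replaced by `G`. `mv_up`: the mean value theorem in the coordinate `k`. `sub_box`:
the oscillation on a small box of a polynomial which is bounded on a natural box.
-/

set_option autoImplicit false

namespace Pool.V1E

open Finset Real MvPolynomial
open Pool.KA Pool.KSAT Pool.PB Pool.GEN Pool.D2R Pool.D2G30 Pool.ISO Pool.CHT Pool.CHX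
open Pool.PB.Trl (rt rt_mem t_rt)

section sb

variable {m : ℕ}

/-- The coordinate `k` replaced by `v`. -/
noncomputable def up (k : Fin m) (b : Option (Fin m) → ℝ) (v : ℝ) : Option (Fin m) → ℝ :=
  fun o => if o = some k then v else b o

/-- The coordinate `k` replaced by the polynomial `G`. -/
noncomputable def sb (k : Fin m) (G R : MvPolynomial (Option (Fin m)) ℝ) :
    MvPolynomial (Option (Fin m)) ℝ := bind₁ (fun o => if o = some k then G else X o) R

theorem up_none (k : Fin m) (b : Option (Fin m) → ℝ) (v : ℝ) : up k b v none = b none := by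
  unfold up
  rw [if_neg (by simp)]

theorem up_self (k : Fin m) (b : Option (Fin m) → ℝ) (v : ℝ) : up k b v (some k) = v := by
  unfold up
  rw [if_pos rfl]

theorem up_ne {k k' : Fin m} (h : k' ≠ k) (b : Option (Fin m) → ℝ) (v : ℝ) :
    up k b v (some k') = b (some k') := by
  unfold up
  rw [if_neg fun h' => h (Option.some_injective _ h')]

theorem up_eq {k : Fin m} {b : Option (Fin m) → ℝ} {v : ℝ} (h : b (some k) = v) :
    up k b v = b := by
  funext o
  unfold up
  split_ifs with h1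
  · rw [h1, h]
  · rfl

theorem eval_sb (k : Fin m) (G R : MvPolynomial (Option (Fin m)) ℝ) (b : Option (Fin m) → ℝ) :
    eval b (sb k G R) = eval (up k b (eval b G)) R := by
  unfold sb
  rw [eval_bind]
  congr 1
  congr 1
  funext o
  unfold up
  split_ifs
  · rfl
  · rw [eval_X]

theorem dd_X (x V : Option (Fin m) → ℝ) (o : Option (Fin m)) : dd (X o) x V = V o := by
  classical
  unfold dd
  rw [Finset.sum_eq_single o]
  · rw [pderiv_X, Pi.single_eq_same, map_one, one_mul]
  · intro o' _ h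
    rw [pderiv_X, Pi.single_eq_of_ne (Ne.symm h), map_zero, zero_mul]
  · intro h
    exact absurd (Finset.mem_univ _) h

theorem dd_C (x V : Option (Fin m) → ℝ) (a : ℝ) : dd (C a) x V = 0 := by
  unfold dd
  refine Finset.sum_eq_zero fun o _ => ?_
  rw [pderiv_C, map_zero, zero_mul]

theorem dd_padd' (P Q : MvPolynomial (Option (Fin m)) ℝ) (x V : Option (Fin m) → ℝ) :
    dd (P + Q) x V = dd P x V + dd Q x V := by
  unfold dd
  rw [← Finset.sum_add_distrib]
  refine Finset.sum_congr rfl fun o _ => ?_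
  rw [map_add, map_add]
  ring

theorem dd_mul (P Q : MvPolynomial (Option (Fin m)) ℝ) (x V : Option (Fin m) → ℝ) :
    dd (P * Q) x V = dd P x V * eval x Q + eval x P * dd Q x V := by
  unfold dd
  rw [Finset.sum_mul, Finset.mul_sum, ← Finset.sum_add_distrib]
  refine Finset.sum_congr rfl fun o _ => ?_
  rw [pderiv_mul, map_add, map_mul, map_mul]
  ring

theorem dd_sb (k : Fin m) (G R : MvPolynomial (Option (Fin m)) ℝ) (b V : Option (Fin m) → ℝ) :
    dd (sb k G R) b V = dd R (up k b (eval b G)) (up k V (dd G b V)) := by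
  classical
  have h1 : ∀ o, eval b (pderiv o (sb k G R)) * V o = ∑ o', eval (up k b (eval b G))
      (pderiv o' R) * (eval b (pderiv o (if o' = some k then G else X o')) * V o) := by
    intro o
    unfold sb
    rw [pd_bind, map_sum, Finset.sum_mul]
    refine Finset.sum_congr rfl fun o' _ => ?_
    rw [map_mul]
    have h2 := eval_sb k G (pderiv o' R) b
    unfold sb at h2
    rw [h2]
    ring
  unfold dd
  rw [Finset.sum_congr rfl fun o _ => h1 o, Finset.sum_comm]
  refine Finset.sum_congr rfl fun o' _ => ?_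
  rw [← Finset.mul_sum]
  congr 1
  unfold up
  split_ifs with h
  · rfl
  · exact dd_X b V o'

theorem deg_sb {k : Fin m} {G R : MvPolynomial (Option (Fin m)) ℝ} {D D' : ℕ}
    (hG : G.totalDegree ≤ D) (hR : R.totalDegree ≤ D') :
    (sb k G R).totalDegree ≤ D' * (D + 1) := by
  unfold sb
  refine (deg_bind _ (K := D + 1) (fun o => ?_) R).trans (Nat.mul_le_mul_right _ hR)
  split_ifs
  · omega
  · rw [totalDegree_X]
    omega

theorem dep_sb {c : ℕ → Fin m} {r : ℕ} (hc : Set.InjOn c (Set.Iio (r + 1)))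
    {G R : MvPolynomial (Option (Fin m)) ℝ} (hG : DepC c r G) (hR : DepC c (r + 1) R) :
    DepC c r (sb (c r) G R) := by
  intro b b' h0 h1
  rw [eval_sb, eval_sb]
  refine hR _ _ (by rw [up_none, up_none, h0]) fun l hl => ?_
  rcases Nat.lt_or_ge l r with h | h
  · have hne : c l ≠ c r := fun he => by
      have := hc (Set.mem_Iio.2 hl) (Set.mem_Iio.2 (Nat.lt_succ_self r)) he
      omega
    rw [up_ne hne, up_ne hne, h1 l h]
  · have : l = r := by omega
    subst this
    rw [up_self, up_self, hG b b' h0 h1]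

/-- **The mean value theorem in one coordinate.** -/
theorem mv_up {k : Fin m} {R : MvPolynomial (Option (Fin m)) ℝ} {b : Option (Fin m) → ℝ}
    {v v' M : ℝ} (h : ∀ w ∈ Set.uIcc v v', |eval (up k b w) (pderiv (some k) R)| ≤ M) :
    |eval (up k b v) R - eval (up k b v') R| ≤ M * |v - v'| := by
  classical
  obtain ⟨g, hg⟩ : ∃ g : Option (Fin m) → Polynomial ℝ, g = fun o =>
      if o = some k then Polynomial.X else Polynomial.C (b o) := ⟨_, rfl⟩
  have hge : ∀ (S : MvPolynomial (Option (Fin m)) ℝ) (w : ℝ),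
      (MvPolynomial.aeval g S).eval w = eval (up k b w) S := by
    intro S w
    rw [Pool.D2G30.eval_aev]
    congr 1
    congr 1
    funext o
    rw [hg]
    unfold up
    show Polynomial.eval w (if o = some k then Polynomial.X else Polynomial.C (b o)) = _
    split_ifs
    · rw [Polynomial.eval_X]
    · rw [Polynomial.eval_C]
  have hder : ∀ w, (Polynomial.derivative (MvPolynomial.aeval g R)).eval w =
      eval (up k b w) (pderiv (some k) R) := by
    intro w
    rw [der_aev, Polynomial.eval_finsetSum, Finset.sum_eq_single (some k)]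
    · rw [Polynomial.eval_mul, hge, hg]
      simp
    · intro o _ ho
      rw [Polynomial.eval_mul, hg]
      simp [ho]
    · intro h'
      exact absurd (Finset.mem_univ _) h'
  have h3 := Convex.norm_image_sub_le_of_norm_deriv_le
    (f := fun x : ℝ => (MvPolynomial.aeval g R : Polynomial ℝ).eval x) (C := M)
    (s := Set.uIcc v v') (x := v') (y := v)
    (fun x _ => (MvPolynomial.aeval g R : Polynomial ℝ).differentiable.differentiableAt)
    (fun x hx => by
      rw [Polynomial.deriv, Real.norm_eq_abs, hder]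
      exact h x hx) (convex_uIcc v v') Set.right_mem_uIcc Set.left_mem_uIcc
  rw [Real.norm_eq_abs, Real.norm_eq_abs] at h3
  have e1 : ∀ w : ℝ, (MvPolynomial.aeval g R : Polynomial ℝ).eval w = eval (up k b w) R :=
    fun w => hge R w
  rwa [e1, e1] at h3

end sb

/-- **The oscillation on a small box.** -/
theorem sub_box (D D' r : ℕ) : ∃ C : ℕ, ∀ {m : ℕ} {c : ℕ → Fin m} {a Q x : ℕ} {t M : ℝ}
    {G : ℕ → MvPolynomial (Option (Fin m)) ℝ} {g : ℕ → ℕ}
    {R : MvPolynomial (Option (Fin m)) ℝ} {b₀ b : Option (Fin m) → ℝ}, Set.InjOn c (Set.Iio r) →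
    (∀ l, (G l).totalDegree ≤ D) → (∀ l, DepC c l (G l)) → DepC c r R → R.totalDegree ≤ D' →
    0 ≤ M → (∀ b, NBx c G g a t r b → |eval b R| ≤ M) → b₀ none = t →
    (∀ l < r, |b₀ (some (c l)) - eval b₀ (G l)| ≤ 2 ^ x / 2 ^ g l) →
    |b none - t| ≤ 1 / 2 ^ (a + Q) →
    (∀ l < r, |(b (some (c l)) - eval b (G l)) - (b₀ (some (c l)) - eval b₀ (G l))| ≤
      2 ^ x / 2 ^ (g l + Q)) →
    |eval b R - eval b₀ R| ≤ 2 ^ (C * (x + 1)) * M / 2 ^ Q := by
  obtain ⟨c₀, D₁, hD₁, hdil⟩ := nbx_dil (r + 1) (fun _ => max D D')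
  obtain ⟨C₁, hC₁, hlip⟩ := Pool.Agent.H40.SLP.lip_one (D' * (D + 1) ^ r)
  obtain ⟨C₂, hC₂⟩ := pow_unbounded_of_one_lt (C₁ + 2) (one_lt_two (α := ℝ))
  refine ⟨c₀ + D₁ + C₂ + 1, ?_⟩
  intro m c a Q x t M G g R b₀ b hc hG hGd hRd hR hM hbox h0 h0l hb0 hbl
  obtain ⟨y₀, hy₀⟩ : ∃ y₀, y₀ = yp c g r G b₀ := ⟨_, rfl⟩
  obtain ⟨y₁, hy₁⟩ : ∃ y₁, y₁ = yp c g r G b := ⟨_, rfl⟩
  obtain ⟨M', hM'⟩ : ∃ M' : ℝ, M' = 2 ^ (c₀ + (x + 1) * D₁) * M := ⟨_, rfl⟩
  have hM'0 : 0 ≤ M' := by rw [hM']; positivity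
  obtain ⟨yy, hyy⟩ : ∃ yy : ℝ → Option (Fin r) → ℝ, yy = fun τ o' => y₀ o' + τ * (y₁ o' - y₀ o') :=
    ⟨_, rfl⟩
  have hQ0 : (0 : ℝ) < 2 ^ Q := by positivity
  have hx0 : (0 : ℝ) < 2 ^ x := by positivity
  have hval : ∀ τ : ℝ, 0 ≤ τ → τ ≤ 2 ^ Q → |eval (yy τ) (pull c g G r R)| ≤ M' := by
    intro τ hτ0 hτ1
    rw [eval_pull, hM']
    refine hdil (m := m) (c := c) (i := r) (G := G) (Q := R) (g := g) (a := a) (t := t) (M := M)
      (x + 1) (Nat.lt_succ_self r) hc (fun l => (hG l).trans (le_max_left _ _)) hGd hRd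
      (hR.trans (le_max_right _ _)) hM hbox _ ?_ ?_
    · unfold hp
      rw [hpt_none, hyy, hy₀, hy₁]
      show |b₀ none + τ * (b none - b₀ none) - t| ≤ _
      rw [h0]
      have e1 : t + τ * (b none - t) - t = τ * (b none - t) := by ring
      rw [e1, abs_mul, abs_of_nonneg hτ0]
      calc τ * |b none - t| ≤ 2 ^ Q * (1 / 2 ^ (a + Q)) :=
            mul_le_mul hτ1 hb0 (abs_nonneg _) hQ0.le
        _ = 1 / 2 ^ a := by
            rw [pow_add]
            field_simp
    · intro l hl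
      unfold hp
      rw [hpt_c _ _ hc hGd hl, add_sub_cancel_left]
      unfold Pool.D2G30.ext
      rw [dif_pos hl, hyy, hy₀, hy₁]
      show |(2 ^ g l * (b₀ (some (c l)) - eval b₀ (G l)) + τ * (2 ^ g l * (b (some (c l)) -
        eval b (G l)) - 2 ^ g l * (b₀ (some (c l)) - eval b₀ (G l)))) / 2 ^ g l| ≤ _
      have e1 : (2 ^ g l * (b₀ (some (c l)) - eval b₀ (G l)) + τ * (2 ^ g l * (b (some (c l)) -
        eval b (G l)) - 2 ^ g l * (b₀ (some (c l)) - eval b₀ (G l)))) / 2 ^ g l =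
        (b₀ (some (c l)) - eval b₀ (G l)) + τ * ((b (some (c l)) - eval b (G l)) -
          (b₀ (some (c l)) - eval b₀ (G l))) := by
        field_simp
      rw [e1]
      refine (abs_add_le _ _).trans ((add_le_add (h0l l hl) ?_).trans
        (le_of_eq (b := 2 ^ x / 2 ^ g l + 2 ^ x / 2 ^ g l) rfl |>.trans (le_of_eq ?_)))
      · rw [abs_mul, abs_of_nonneg hτ0]
        calc τ * _ ≤ 2 ^ Q * (2 ^ x / 2 ^ (g l + Q)) :=
              mul_le_mul hτ1 (hbl l hl) (abs_nonneg _) hQ0.le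
          _ = 2 ^ x / 2 ^ g l := by
              rw [pow_add]
              field_simp
      · rw [pow_succ]
        ring
  -- the polynomial in one variable
  obtain ⟨q, hq⟩ : ∃ q : Polynomial ℝ, q = MvPolynomial.aeval (fun o' => Polynomial.C (y₀ o') +
      Polynomial.C (2 ^ Q * (y₁ o' - y₀ o')) * Polynomial.X) (pull c g G r R) := ⟨_, rfl⟩
  have hqe : ∀ σ : ℝ, q.eval σ = eval (yy (2 ^ Q * σ)) (pull c g G r R) := by
    intro σ
    rw [hq, Pool.D2G30.eval_aev, hyy]
    congr 1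
    congr 1
    funext o'
    simp only [Polynomial.eval_add, Polynomial.eval_mul, Polynomial.eval_C, Polynomial.eval_X]
    ring
  have hqd : q.natDegree ≤ D' * (D + 1) ^ r := by
    rw [hq]
    have h1 := natDegree_aev (K := 1) (D := D' * (D + 1) ^ r) (pull c g G r R) (fun o' =>
      Polynomial.C (y₀ o') + Polynomial.C (2 ^ Q * (y₁ o' - y₀ o')) * Polynomial.X)
      (fun o' => (Polynomial.natDegree_add_le _ _).trans (max_le (by
        rw [Polynomial.natDegree_C]; exact Nat.zero_le _)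
        ((Polynomial.natDegree_C_mul_le _ _).trans (by rw [Polynomial.natDegree_X]))))
      (deg_pull hG hR)
    exact h1.trans (by rw [mul_one])
  have hqb : ∀ σ ∈ Set.Icc (0 : ℝ) 1, |q.eval σ| ≤ M' := by
    intro σ hσ
    rw [hqe]
    exact hval _ (mul_nonneg hQ0.le hσ.1) (by nlinarith [hσ.2])
  have h1 := hlip q M' hqd hqb (1 / 2 ^ Q) 0 (by
    rw [abs_of_pos (by positivity), div_le_iff₀ hQ0]
    have : (1 : ℝ) ≤ 2 ^ Q := one_le_pow₀ (by norm_num)
    linarith) (by rw [abs_zero]; norm_num)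
  have e0 : ∀ b' : Option (Fin m) → ℝ, eval (yp c g r G b') (pull c g G r R) = eval b' R := by
    intro b'
    rw [eval_pull]
    obtain ⟨k0, k1⟩ := hp_yp (s := g) hc hGd b'
    exact hRd _ _ k0 k1
  have e1 : q.eval (1 / 2 ^ Q) = eval b R := by
    have h5 : yy (2 ^ Q * (1 / 2 ^ Q)) = y₁ := by
      rw [hyy]
      funext o'
      show y₀ o' + 2 ^ Q * (1 / 2 ^ Q) * (y₁ o' - y₀ o') = y₁ o'
      field_simp
      ring
    rw [hqe, h5, hy₁, e0]
  have e2 : q.eval 0 = eval b₀ R := by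
    have h5 : yy (2 ^ Q * 0) = y₀ := by
      rw [hyy]
      funext o'
      show y₀ o' + 2 ^ Q * 0 * (y₁ o' - y₀ o') = y₀ o'
      ring
    rw [hqe, h5, hy₀, e0]
  rw [e1, e2, sub_zero, abs_of_pos (show (0 : ℝ) < 1 / 2 ^ Q by positivity)] at h1
  refine h1.trans ?_
  rw [hM']
  have h2 : C₁ * (2 ^ (c₀ + (x + 1) * D₁) * M) * (1 / 2 ^ Q) =
      (C₁ * 2 ^ (c₀ + (x + 1) * D₁)) * M / 2 ^ Q := by ring
  rw [h2]
  refine div_le_div_of_nonneg_right (mul_le_mul_of_nonneg_right ?_ hM) hQ0.le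
  calc C₁ * 2 ^ (c₀ + (x + 1) * D₁) ≤ 2 ^ C₂ * 2 ^ (c₀ + (x + 1) * D₁) :=
        mul_le_mul_of_nonneg_right (by linarith) (by positivity)
    _ = 2 ^ (C₂ + (c₀ + (x + 1) * D₁)) := by rw [← pow_add]
    _ ≤ _ := pow_le_pow_right₀ (by norm_num) (by nlinarith)

end Pool.V1E
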