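import Pool.Agent.H69.NE.Fr
import Pool.Agent.H73.D2.Tlj

/-!
# The deterministic part of `TL` for a general target over a frame

`tg_det`.
-/

set_option autoImplicit false

namespace Pool.V1E

open Finset Real MvPolynomial
open Pool.KA Pool.KSAT Pool.PB Pool.GEN Pool.D2R Pool.D2G30 Pool.ISO Pool.CHT Pool.CHX
open Pool.PB.Trl (rt rt_mem t_rt)

section

variable {m J : ℕ} {F : Fam m J} {c : ℕ → Fin m} {r D D₁ MB q₀ Q x : ℕ}
  {s : ℕ → ℕ} {qe : Fin r → ℕ} {o gf g2 : ℕ → ℕ} {B : F.Ω → Prop}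
  {Gf G2 : PtT F → ℕ → MvPolynomial (Option (Fin m)) ℝ}
  {Hf : LnT F → ℕ → MvPolynomial (Option (Fin m)) ℝ}
  {y yd : F.Ω → ℝ} {np : LnT F → Polynomial ℝ}
  {A1 A2 : PtT F → MvPolynomial (Option (Fin m)) ℝ}
  {R1 : LnT F → MvPolynomial (Option (Fin m)) ℝ} {Θ : LnT F → Fin r → Polynomial ℝ}
  {V V' : Type}

/-- The chart of the ball of a sample. -/
theorem tg_pfz (W : FrD F c r D MB q₀ Q x s qe o gf g2 B Gf G2 Hf)
    (T : TgD F c r D D₁ MB Q x s o g2 B Gf G2 y yd np A1 A2 R1 Θ)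
    (v : F.Ω → V) (v' : F.Ω → V') (ω : F.Ω) :
    Pfz c s r Q J D (kzF F c s r (o 1) Q v v' Gf A1 A2 ω) =
      PfR c s r Q (bt F ω none)
        (fun i => ⌊2 ^ Q * yp c s r (trn r (Gf (ptr F J ω))) (bt F ω) (some i)⌋)
        (trn r (Gf (ptr F J ω))) (A2 (ptr F J ω) - A1 (ptr F J ω)) := by
  show PfR c s r Q ((F.T ω : ℝ) / 2 ^ J) (crF F c s r (o 1) Q Gf ω)
    (fun l => dgt D (trn r (Gf (ptr F J ω)) l)) (dgt D (A2 (ptr F J ω)) -
      dgt D (A1 (ptr F J ω))) = _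
  rw [dgt_eq (T.dA2 _), dgt_eq (T.dA1 _), W.crn ω]
  have h1 : (fun l => dgt D (trn r (Gf (ptr F J ω)) l)) = trn r (Gf (ptr F J ω)) :=
    funext fun l => dgt_eq (trn_deg (W.dG0 _) l)
  rw [h1]
  rfl

theorem tg_pgz (W : FrD F c r D MB q₀ Q x s qe o gf g2 B Gf G2 Hf)
    (T : TgD F c r D D₁ MB Q x s o g2 B Gf G2 y yd np A1 A2 R1 Θ)
    (v : F.Ω → V) (v' : F.Ω → V') (ω : F.Ω) :
    Pgz c s r (o 1) Q J D (kzF F c s r (o 1) Q v v' Gf A1 A2 ω) =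
      PgR c s r (o 1) Q (bt F ω none)
        (fun i => ⌊2 ^ Q * yp c s r (trn r (Gf (ptr F J ω))) (bt F ω) (some i)⌋)
        (trn r (Gf (ptr F J ω))) (A2 (ptr F J ω) - A1 (ptr F J ω)) := by
  show PgR c s r (o 1) Q ((F.T ω : ℝ) / 2 ^ J) (crF F c s r (o 1) Q Gf ω)
    (fun l => dgt D (trn r (Gf (ptr F J ω)) l)) (dgt D (A2 (ptr F J ω)) -
      dgt D (A1 (ptr F J ω))) = _
  rw [dgt_eq (T.dA2 _), dgt_eq (T.dA1 _), W.crn ω]
  have h1 : (fun l => dgt D (trn r (Gf (ptr F J ω)) l)) = trn r (Gf (ptr F J ω)) :=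
    funext fun l => dgt_eq (trn_deg (W.dG0 _) l)
  rw [h1]
  rfl

end

/-- **The deterministic part of `TL`, general target.** -/
theorem tg_det (D D₁ r K : ℕ) (hK : 1 ≤ K) (hK' : D * (D + 1) ^ r ≤ K) : ∃ C : ℕ,
    ∀ {m J : ℕ} {F : Fam m J} {c : ℕ → Fin m} {MB q₀ Q x : ℕ} {s : ℕ → ℕ}
    {qe : Fin r → ℕ} {o gf g2 : ℕ → ℕ} {B : F.Ω → Prop}
    {Gf G2 : PtT F → ℕ → MvPolynomial (Option (Fin m)) ℝ}
    {Hf : LnT F → ℕ → MvPolynomial (Option (Fin m)) ℝ}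
    {y yd : F.Ω → ℝ} {np : LnT F → Polynomial ℝ}
    {A1 A2 : PtT F → MvPolynomial (Option (Fin m)) ℝ}
    {R1 : LnT F → MvPolynomial (Option (Fin m)) ℝ} {Θ : LnT F → Fin r → Polynomial ℝ},
    FrD F c r D MB q₀ Q x s qe o gf g2 B Gf G2 Hf →
    TgD F c r D D₁ MB Q x s o g2 B Gf G2 y yd np A1 A2 R1 Θ →
    ∀ {V V' : Type} (v : F.Ω → V) (v' : F.Ω → V') (vL : LnT F → V) (D' : ℕ),
    D ≤ D' → D₁ ≤ D' →
    TLd K r D' Q MB (2 ^ (J - o 1)) (2 ^ (C * (x + 1))) B (slam F (o 1)) (twF F (o 1))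
      (kzF F c s r (o 1) Q v v' Gf A1 A2)
      (kaF F c s r (o 1) Q v Gf A1)
      (fun ω => eL c s r (o 1) qe (frH F r q₀ Hf (slam F (o 1) ω)) (slam F (o 1) ω))
      (Xe r qe) (Pfz c s r Q J D) (Pgz c s r (o 1) Q J D)
      (ctF F c s r (o 1) q₀ Q qe Hf R1 vL)
      (scF F c s r (o 1) q₀ Q qe Gf Hf)
      (fun L => xL c s r (o 1) Q (frH F r q₀ Hf L) L)
      (nT F s r (o 1) np R1) Θ := by
  obtain ⟨C₁, hbd⟩ := tg_bd D r
  obtain ⟨C₂, hpos⟩ := fr_pos D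
  obtain ⟨C₄, hC₄, huc⟩ := Pool.Agent.H40.FR.unit_coef (max D D₁)
  obtain ⟨n₄, hn₄⟩ := pow_unbounded_of_one_lt C₄ (one_lt_two (α := ℝ))
  obtain ⟨n₅, hn₅⟩ := pow_unbounded_of_one_lt (mvC K r) (one_lt_two (α := ℝ))
  obtain ⟨n₆, hn₆⟩ := pow_unbounded_of_one_lt ((r : ℝ) + 1) (one_lt_two (α := ℝ))
  obtain ⟨n₇, hn₇⟩ := pow_unbounded_of_one_lt ((K + 1 : ℝ) ^ r * lgC K ^ r)
    (one_lt_two (α := ℝ))
  refine ⟨C₁ + 2 * C₂ + n₄ + n₅ + n₆ + n₇ + 4, ?_⟩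
  intro m J F c MB q₀ Q x s qe o gf g2 B Gf G2 Hf y yd np A1 A2 R1 Θ W T V V' v v' vL D' hD1 hD2
  have h1J : o 1 ≤ J := by have := W.oJ; have := W.o2; omega
  obtain ⟨Y, hY⟩ : ∃ Y : ℝ, Y = 2 ^ ((C₁ + 2 * C₂ + n₄ + n₅ + n₆ + n₇ + 4) * (x + 1)) :=
    ⟨_, rfl⟩
  rw [← hY]
  obtain ⟨N, hN⟩ : ∃ N, N = x + 1 := ⟨_, rfl⟩
  rw [← hN] at hY
  have hN1 : 1 ≤ N := by omega
  have hYk : ∀ {k : ℕ}, k ≤ (C₁ + 2 * C₂ + n₄ + n₅ + n₆ + n₇ + 4) * N → (2 : ℝ) ^ k ≤ Y := by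
    intro k hk
    rw [hY]
    exact pow_le_pow_right₀ (by norm_num) hk
  obtain ⟨Y₁, hY₁⟩ : ∃ Y₁ : ℝ, Y₁ = 2 ^ (C₁ * N) := ⟨_, rfl⟩
  obtain ⟨Y₂, hY₂⟩ : ∃ Y₂ : ℝ, Y₂ = 2 ^ (C₂ * N) := ⟨_, rfl⟩
  have hY10 : 0 < Y₁ := by rw [hY₁]; positivity
  have hY20 : 0 < Y₂ := by rw [hY₂]; positivity
  have hY21 : 1 ≤ Y₂ := by rw [hY₂]; exact one_le_pow₀ (by norm_num)
  have hY1Y : Y₁ ≤ Y := by
    rw [hY₁]
    exact hYk (Nat.mul_le_mul_right _ (by omega))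
  have hnN : ∀ k : ℕ, k ≤ k * N := fun k => Nat.le_mul_of_pos_right _ hN1
  -- the nodes
  have hnd : ∀ β : Gr K r, (∀ i, 0 ≤ nd K β i) ∧ ∀ i, nd K β i ≤ 1 := fun β =>
    ⟨nd_nonneg β, nd_le_one β⟩
  have bf : ∀ ω, B ω → ∀ β : Gr K r, |eval (nd K β) (Pfz c s r Q J D (kzF F c s r (o 1) Q v v'
      Gf A1 A2 ω))| ≤ Y₁ := by
    intro ω hω β
    rw [tg_pfz W T v v' ω, hY₁, hN]
    exact (hbd W T ω hω (nd K β) (hnd β).1 (hnd β).2).1
  have bg : ∀ ω, B ω → ∀ (β : Gr K r) j, |eval (nd K β) (Pgz c s r (o 1) Q J D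
      (kzF F c s r (o 1) Q v v' Gf A1 A2 ω) j)| ≤ Y₁ := by
    intro ω hω β j
    rw [tg_pgz W T v v' ω, hY₁, hN]
    refine Fin.cases ?_ (fun i => ?_) j
    · exact (hbd W T ω hω (nd K β) (hnd β).1 (hnd β).2).2.1
    · exact (hbd W T ω hω (nd K β) (hnd β).1 (hnd β).2).2.2 i
  have dgf : ∀ z : KzT m r V V', (Pfz c s r Q J D z).totalDegree ≤ K := fun z =>
    (pf_deg (fun l => dgt_deg D _) ((totalDegree_sub _ _).trans
      (max_le (dgt_deg D _) (dgt_deg D _)))).trans hK'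
  have dgg : ∀ (z : KzT m r V V') j, (Pgz c s r (o 1) Q J D z j).totalDegree ≤ K := fun z j =>
    (pg_deg (fun l => dgt_deg D _) ((totalDegree_sub _ _).trans
      (max_le (dgt_deg D _) (dgt_deg D _))) j).trans hK'
  -- the positions
  have hsx : ∀ ω, B ω → (∀ i : Fin r, -1 ≤ scF F c s r (o 1) q₀ Q qe Gf Hf ω i +
      xL c s r (o 1) Q (frH F r q₀ Hf (slam F (o 1) ω)) (slam F (o 1) ω) i) ∧
      ∀ i : Fin r, scF F c s r (o 1) q₀ Q qe Gf Hf ω i +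
      xL c s r (o 1) Q (frH F r q₀ Hf (slam F (o 1) ω)) (slam F (o 1) ω) i ≤ 2 := by
    intro ω hω
    have h2 : ∀ i : Fin r, 0 ≤ xL c s r (o 1) Q (frH F r q₀ Hf (slam F (o 1) ω))
        (slam F (o 1) ω) i ∧ xL c s r (o 1) Q (frH F r q₀ Hf (slam F (o 1) ω))
        (slam F (o 1) ω) i < 1 := fun i => ⟨Int.fract_nonneg _, Int.fract_lt_one _⟩
    refine ⟨fun i => ?_, fun i => ?_⟩
    · have h3 := abs_le.1 (hpos W ω hω i).1
      linarith [(h2 i).1]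
    · have h3 := abs_le.1 (hpos W ω hω i).1
      linarith [(h2 i).2]
  have hfc : ∀ ω, (∀ i : Fin r, -1 ≤ frc c s r Q (trn r (Gf (ptr F J ω))) (bt F ω) i) ∧
      ∀ i : Fin r, frc c s r Q (trn r (Gf (ptr F J ω))) (bt F ω) i ≤ 2 := by
    intro ω
    refine ⟨fun i => ?_, fun i => ?_⟩
    · have := Int.fract_nonneg ((2 : ℝ) ^ Q * yp c s r (trn r (Gf (ptr F J ω))) (bt F ω) (some i))
      show -1 ≤ Int.fract _
      linarith
    · have := Int.fract_lt_one ((2 : ℝ) ^ Q * yp c s r (trn r (Gf (ptr F J ω))) (bt F ω) (some i))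
      show Int.fract _ ≤ 2
      linarith
  have hmv0 := mvC_nonneg K r
  have hMV : ∀ ω, B ω → ∀ R : MvPolynomial (Fin r) ℝ, R.totalDegree ≤ K →
      (∀ β : Gr K r, |eval (nd K β) R| ≤ Y₁) →
      |eval (frc c s r Q (trn r (Gf (ptr F J ω))) (bt F ω)) R -
        eval (fun i => scF F c s r (o 1) q₀ Q qe Gf Hf ω i +
        xL c s r (o 1) Q (frH F r q₀ Hf (slam F (o 1) ω)) (slam F (o 1) ω) i) R| ≤
      2 ^ n₅ * (Y₂ / 2 ^ MB) * Y₁ := by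
    intro ω hω R hR hb
    have h1 := mv_pt hK R hR hb (hfc ω).1 (hfc ω).2 (hsx ω hω).1 (hsx ω hω).2
      (δ := Y₂ / 2 ^ MB) (by positivity) (fun i => by
        rw [abs_sub_comm, hY₂, hN]
        exact (hpos W ω hω i).2.1)
    refine h1.trans ?_
    exact mul_le_mul_of_nonneg_right (mul_le_mul_of_nonneg_right hn₅.le (by positivity)) hY10.le
  have hpw : ∀ {a b : ℕ}, a ≤ b → (2 : ℝ) ^ a ≤ 2 ^ b := fun h =>
    pow_le_pow_right₀ (by norm_num) h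
  refine ⟨?_, ?_, ?_, ?_, ?_, ?_, dgf, dgg, ?_, fun ω hω β => (bf ω hω β).trans hY1Y,
    fun ω hω β j => (bg ω hω β j).trans hY1Y, fun ω hω i => (hpos W ω hω i).1, ?_,
    fun L i => Int.fract_nonneg _, fun L i => Int.fract_lt_one _, ?_, ?_, ?_, ?_, ?_, ?_⟩
  · -- Tlt
    intro ω _
    exact Nat.mod_lt _ (by positivity)
  · -- ZT
    intro ω ω' _ _ h
    have h2 : F.T ω = F.T ω' := congrArg (fun z => z.2.2.1) h
    show F.T ω % _ = F.T ω' % _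
    rw [h2]
  · -- Za
    intro ω ω' _ _ h
    exact congrArg Prod.snd h
  · -- aT
    intro ω ω' _ _ h
    have h2 : F.T ω = F.T ω' := congrArg (fun z => z.2.1) h
    show F.T ω % _ = F.T ω' % _
    rw [h2]
  · -- LE
    intro ω ω' _ _ h

    rw [h]
  · -- Xb
    intro ω hω j
    refine Fin.cases ?_ (fun i => ?_) j
    · show |(1 : ℝ)| ≤ Y
      rw [abs_one]
      have := hYk (Nat.zero_le _)
      rwa [pow_zero] at this
    · refine ((hpos W ω hω i).2.2.1).trans ?_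
      rw [← hN]
      exact hYk (Nat.mul_le_mul_right _ (by omega))
  · -- grd
    intro ω _ i
    exact pg_grd i
  · -- sc
    intro ω ω' _ _ h
    have h1 : F.T ω = F.T ω' := congrArg (fun z => z.2.2.2.1) h
    have h2 : crF F c s r (o 1) Q Gf ω = crF F c s r (o 1) Q Gf ω' :=
      congrArg (fun z => z.2.2.2.2) h
    have h3 : cL c s r (o 1) Q (frH F r q₀ Hf (slam F (o 1) ω)) (slam F (o 1) ω) 0 =
        cL c s r (o 1) Q (frH F r q₀ Hf (slam F (o 1) ω')) (slam F (o 1) ω') 0 :=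
      congrArg (fun z => z.1.2.2.2) h
    have h4 : eL c s r (o 1) qe (frH F r q₀ Hf (slam F (o 1) ω)) (slam F (o 1) ω) =
        eL c s r (o 1) qe (frH F r q₀ Hf (slam F (o 1) ω')) (slam F (o 1) ω') :=
      congrArg (fun z => z.2.1) h
    have h5 : rt F (o 1) ω = rt F (o 1) ω' := by
      unfold Pool.PB.Trl.rt
      rw [h1]
    unfold scF
    rw [h2, h3, h4, h5]
  · -- dgn
    intro L
    unfold nT
    refine (Polynomial.natDegree_C_mul_le _ _).trans ((Polynomial.natDegree_sub_le _ _).trans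
      (max_le ((T.dnp L).trans hD2) ?_))
    have h1 := natDegree_aev (K := 1) (D := D) (R1 L) (lc (o 1) L) (natDegree_lc _ _)
      (T.dR1 L)
    omega
  · -- bdn
    intro ω hω j
    have h2 := huc (np (slam F (o 1) ω) - MvPolynomial.aeval (lc (o 1) (slam F (o 1) ω))
      (R1 (slam F (o 1) ω))) (2 ^ x / 2 ^ s r)
      (by
        refine (Polynomial.natDegree_sub_le _ _).trans (max_le ((T.dnp _).trans
          (le_max_right _ _)) ?_)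
        have h1 := natDegree_aev (K := 1) (D := D) (R1 (slam F (o 1) ω))
          (lc (o 1) (slam F (o 1) ω)) (natDegree_lc _ _) (T.dR1 _)
        exact h1.trans (by rw [mul_one]; exact le_max_left _ _)) (T.own1 ω hω) j
    unfold nT
    rw [Polynomial.coeff_C_mul, abs_mul, abs_of_pos (show (0 : ℝ) < 2 ^ s r by positivity)]
    refine (mul_le_mul_of_nonneg_left h2 (by positivity)).trans ?_
    have h3 : 2 ^ s r * (C₄ * (2 ^ x / 2 ^ s r)) ≤ 2 ^ n₄ * 2 ^ x := by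
      calc 2 ^ s r * (C₄ * (2 ^ x / 2 ^ s r)) = C₄ * 2 ^ x := by field_simp
        _ ≤ _ := mul_le_mul_of_nonneg_right hn₄.le (by positivity)
    refine h3.trans ?_
    rw [← pow_add]
    refine hYk ?_
    calc n₄ + x ≤ n₄ * N + 1 * N := by have := hnN n₄; omega
      _ = (n₄ + 1) * N := by ring
      _ ≤ _ := Nat.mul_le_mul_right _ (by omega)
  · -- val
    intro ω hω
    have h1 := tg_val W T hω
    have h2 := hMV ω hω _ (dgf _) (bf ω hω)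
    rw [tg_pfz W T v v' ω] at h2 ⊢
    have h3 := abs_add_le ((nT F s r (o 1) np R1 (slam F (o 1) ω)).eval
      (rt F (o 1) ω) - eval (frc c s r Q (trn r (Gf (ptr F J ω))) (bt F ω)) (PfR c s r Q
        (bt F ω none) (fun i => ⌊2 ^ Q * yp c s r (trn r (Gf (ptr F J ω))) (bt F ω) (some i)⌋)
        (trn r (Gf (ptr F J ω))) (A2 (ptr F J ω) - A1 (ptr F J ω)))) _ |>.trans
      (add_le_add h1 h2)
    rw [sub_add_sub_cancel] at h3
    refine h3.trans ?_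
    rw [le_div_iff₀ (by positivity), add_mul, div_mul_cancel₀ _ (by positivity)]
    have e1 : 2 ^ n₅ * (Y₂ / 2 ^ MB) * Y₁ * 2 ^ MB = 2 ^ n₅ * Y₂ * Y₁ := by
      field_simp
    rw [e1, hY₁, hY₂, ← pow_add, ← pow_add]
    have k1 : (2 : ℝ) ^ x ≤ 2 ^ (n₅ + C₂ * N + C₁ * N + N) := hpw (by omega)
    have k2 : (2 : ℝ) ^ (n₅ + C₂ * N + C₁ * N) ≤ 2 ^ (n₅ + C₂ * N + C₁ * N + N) := hpw (by omega)
    have k3 : (2 : ℝ) ^ (n₅ + C₂ * N + C₁ * N + N) * 2 ≤ Y := by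
      rw [← pow_succ]
      refine hYk ?_
      calc n₅ + C₂ * N + C₁ * N + N + 1 ≤ n₅ * N + C₂ * N + C₁ * N + N + N := by
            have := hnN n₅
            omega
        _ = (n₅ + C₂ + C₁ + 2) * N := by ring
        _ ≤ _ := Nat.mul_le_mul_right _ (by omega)
    linarith
  · -- vel
    intro ω hω
    have h1 := tg_vel W T hω
    have hZ : ∀ j, |eval (frc c s r Q (trn r (Gf (ptr F J ω))) (bt F ω)) (Pgz c s r (o 1) Q J D
        (kzF F c s r (o 1) Q v v' Gf A1 A2 ω) j) -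
        eval (fun i => scF F c s r (o 1) q₀ Q qe Gf Hf ω i +
        xL c s r (o 1) Q (frH F r q₀ Hf (slam F (o 1) ω)) (slam F (o 1) ω) i)
        (Pgz c s r (o 1) Q J D (kzF F c s r (o 1) Q v v' Gf A1 A2 ω) j)| ≤ 2 ^ n₅ * (Y₂ / 2 ^ MB) * Y₁ := fun j =>
      hMV ω hω _ (dgg _ j) fun β => bg ω hω β j
    have hZ0 : ∀ j, |eval (frc c s r Q (trn r (Gf (ptr F J ω))) (bt F ω)) (Pgz c s r (o 1) Q J D
        (kzF F c s r (o 1) Q v v' Gf A1 A2 ω) j)| ≤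
        2 ^ n₇ * Y₁ := fun j =>
      (val_small hK _ (dgg _ j) (fun β => bg ω hω β j) (hfc ω).1 (hfc ω).2).trans
        (mul_le_mul_of_nonneg_right hn₇.le hY10.le)
    rw [tg_pgz W T v v' ω] at hZ hZ0 ⊢
    rw [Fin.sum_univ_succ]
    -- the two sums
    obtain ⟨a, ha⟩ : ∃ a : Fin (r + 1) → ℝ, a = fun j => eval (frc c s r Q
      (trn r (Gf (ptr F J ω))) (bt F ω)) (PgR c s r (o 1) Q (bt F ω none)
        (fun i => ⌊2 ^ Q * yp c s r (trn r (Gf (ptr F J ω))) (bt F ω) (some i)⌋)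
        (trn r (Gf (ptr F J ω))) (A2 (ptr F J ω) - A1 (ptr F J ω)) j) := ⟨_, rfl⟩
    obtain ⟨b, hb⟩ : ∃ b : Fin (r + 1) → ℝ, b = fun j => eval
      (fun i => scF F c s r (o 1) q₀ Q qe Gf Hf ω i +
        xL c s r (o 1) Q (frH F r q₀ Hf (slam F (o 1) ω)) (slam F (o 1) ω) i)
      (PgR c s r (o 1) Q (bt F ω none)
        (fun i => ⌊2 ^ Q * yp c s r (trn r (Gf (ptr F J ω))) (bt F ω) (some i)⌋)
        (trn r (Gf (ptr F J ω))) (A2 (ptr F J ω) - A1 (ptr F J ω)) j) := ⟨_, rfl⟩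
    have hab : ∀ j, |a j - b j| ≤ 2 ^ n₅ * (Y₂ / 2 ^ MB) * Y₁ := fun j => by
      rw [ha, hb]
      exact hZ j
    have ha0 : ∀ j, |a j| ≤ 2 ^ n₇ * Y₁ := fun j => by
      rw [ha]
      exact hZ0 j
    obtain ⟨X, hX⟩ : ∃ X : Fin (r + 1) → ℝ, X = Xe r qe (eL c s r (o 1) qe
      (frH F r q₀ Hf (slam F (o 1) ω)) (slam F (o 1) ω)) := ⟨_, rfl⟩
    have hX0 : X 0 = 1 := by rw [hX]; rfl
    have hXs : ∀ i : Fin r, |X i.succ| ≤ Y₂ := fun i => by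
      rw [hX, hY₂, hN]
      exact (hpos W ω hω i).2.2.1
    have hXv : ∀ i : Fin r, |(Polynomial.derivative (hL c s r (o 1)
        (trn r (Gf (ptr F J ω))) (slam F (o 1) ω) (some i))).eval (rt F (o 1) ω) - X i.succ| ≤
        Y₂ / 2 ^ MB := fun i => by
      rw [hX, hY₂, hN]
      exact (hpos W ω hω i).2.2.2
    obtain ⟨y', hy'⟩ : ∃ y' : Fin r → ℝ, y' = fun i => (Polynomial.derivative (hL c s r (o 1)
        (trn r (Gf (ptr F J ω))) (slam F (o 1) ω) (some i))).eval (rt F (o 1) ω) := ⟨_, rfl⟩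
    have hXv' : ∀ i : Fin r, |y' i - X i.succ| ≤ Y₂ / 2 ^ MB := fun i => by
      rw [hy']
      exact hXv i
    obtain ⟨nd', hnd'⟩ : ∃ t : ℝ, t = (Polynomial.derivative (nT F s r (o 1) np R1 (slam F (o 1) ω))).eval (rt F (o 1) ω) := ⟨_, rfl⟩
    have h1' : |nd' - (a 0 + ∑ i : Fin r, y' i * a i.succ)| ≤ 2 ^ x / 2 ^ (MB - Q) := by
      rw [hnd', ha, hy']
      exact h1
    have hgoal : |nd' - (X 0 * b 0 + ∑ i : Fin r, X i.succ * b i.succ)| ≤ Y / 2 ^ (MB - Q) := by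
      rw [hX0, one_mul]
      have e1 : nd' - (b 0 + ∑ i : Fin r, X i.succ * b i.succ) =
          (nd' - (a 0 + ∑ i : Fin r, y' i * a i.succ)) + ((a 0 - b 0) +
          ∑ i : Fin r, ((y' i - X i.succ) * a i.succ + X i.succ * (a i.succ - b i.succ))) := by
        have e2 : ∑ i : Fin r, ((y' i - X i.succ) * a i.succ + X i.succ * (a i.succ - b i.succ)) =
            ∑ i : Fin r, y' i * a i.succ - ∑ i : Fin r, X i.succ * b i.succ := by
          rw [← Finset.sum_sub_distrib]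
          exact Finset.sum_congr rfl fun i _ => by ring
        rw [e2]
        ring
      rw [e1]
      obtain ⟨Λ, hΛ⟩ : ∃ Λ : ℝ, Λ = 2 ^ n₅ * (Y₂ / 2 ^ MB) * Y₁ := ⟨_, rfl⟩
      rw [← hΛ] at hab
      have hΛ0 : 0 ≤ Λ := by rw [hΛ]; positivity
      have t1 : ∀ i : Fin r, |(y' i - X i.succ) * a i.succ + X i.succ * (a i.succ - b i.succ)| ≤
          Y₂ / 2 ^ MB * (2 ^ n₇ * Y₁) + Y₂ * Λ := by
        intro i
        refine (abs_add_le _ _).trans (add_le_add ?_ ?_)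
        · rw [abs_mul]
          exact mul_le_mul (hXv' i) (ha0 _) (abs_nonneg _) (by positivity)
        · rw [abs_mul]
          exact mul_le_mul (hXs i) (hab _) (abs_nonneg _) hY20.le
      have t2 : |∑ i : Fin r, ((y' i - X i.succ) * a i.succ +
          X i.succ * (a i.succ - b i.succ))| ≤ r * (Y₂ / 2 ^ MB * (2 ^ n₇ * Y₁) + Y₂ * Λ) := by
        refine (Finset.abs_sum_le_sum_abs _ _).trans ?_
        calc ∑ i : Fin r, |(y' i - X i.succ) * a i.succ + X i.succ * (a i.succ - b i.succ)| ≤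
            ∑ _i : Fin r, (Y₂ / 2 ^ MB * (2 ^ n₇ * Y₁) + Y₂ * Λ) :=
              Finset.sum_le_sum fun i _ => t1 i
          _ = _ := by
              rw [Finset.sum_const, Finset.card_univ, Fintype.card_fin, nsmul_eq_mul]
      have t3 := (abs_add_le (nd' - (a 0 + ∑ i : Fin r, y' i * a i.succ)) ((a 0 - b 0) +
          ∑ i : Fin r, ((y' i - X i.succ) * a i.succ + X i.succ * (a i.succ - b i.succ)))).trans
        (add_le_add h1' ((abs_add_le _ _).trans (add_le_add (hab 0) t2)))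
      refine t3.trans ?_
      -- numbers
      have hMQ : (1 : ℝ) / 2 ^ MB ≤ 1 / 2 ^ (MB - Q) :=
        one_div_le_one_div_of_le (by positivity) (hpw (by omega))
      obtain ⟨i₀, hi₀⟩ : ∃ i₀ : ℝ, i₀ = 1 / 2 ^ (MB - Q) := ⟨_, rfl⟩
      have hi0 : 0 < i₀ := by rw [hi₀]; positivity
      have b1 : Λ ≤ 2 ^ (n₅ + C₂ * N + C₁ * N) * i₀ := by
        rw [hΛ, hi₀, pow_add, pow_add, ← hY₁, ← hY₂]
        calc 2 ^ n₅ * (Y₂ / 2 ^ MB) * Y₁ = 2 ^ n₅ * Y₂ * Y₁ * (1 / 2 ^ MB) := by ring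
          _ ≤ _ := mul_le_mul_of_nonneg_left hMQ (by positivity)
      have b2 : Y₂ / 2 ^ MB * (2 ^ n₇ * Y₁) ≤ 2 ^ (n₇ + C₂ * N + C₁ * N) * i₀ := by
        rw [hi₀, pow_add, pow_add, ← hY₁, ← hY₂]
        calc Y₂ / 2 ^ MB * (2 ^ n₇ * Y₁) = 2 ^ n₇ * Y₂ * Y₁ * (1 / 2 ^ MB) := by ring
          _ ≤ _ := mul_le_mul_of_nonneg_left hMQ (by positivity)
      have b3 : Y₂ * Λ ≤ 2 ^ (n₅ + 2 * (C₂ * N) + C₁ * N) * i₀ := by
        calc Y₂ * Λ ≤ Y₂ * (2 ^ (n₅ + C₂ * N + C₁ * N) * i₀) :=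
              mul_le_mul_of_nonneg_left b1 hY20.le
          _ = _ := by
              rw [hY₂, ← mul_assoc, ← pow_add]
              congr 2
              ring
      obtain ⟨E, hE⟩ : ∃ E, E = n₅ + n₇ + 2 * (C₂ * N) + C₁ * N + N := ⟨_, rfl⟩
      have c1 : (2 : ℝ) ^ x / 2 ^ (MB - Q) ≤ 2 ^ E * i₀ := by
        rw [hi₀, mul_one_div]
        exact div_le_div_of_nonneg_right (hpw (by omega)) (by positivity)
      have c2 : Λ ≤ 2 ^ E * i₀ := b1.trans (mul_le_mul_of_nonneg_right (hpw (by omega)) hi0.le)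
      have c3 : Y₂ / 2 ^ MB * (2 ^ n₇ * Y₁) + Y₂ * Λ ≤ 2 ^ E * i₀ + 2 ^ E * i₀ :=
        add_le_add (b2.trans (mul_le_mul_of_nonneg_right (hpw (by omega)) hi0.le))
          (b3.trans (mul_le_mul_of_nonneg_right (hpw (by omega)) hi0.le))
      have c4 : (r : ℝ) * (Y₂ / 2 ^ MB * (2 ^ n₇ * Y₁) + Y₂ * Λ) ≤
          r * (2 ^ E * i₀ + 2 ^ E * i₀) := mul_le_mul_of_nonneg_left c3 (Nat.cast_nonneg r)
      have c5 : 2 ^ E * i₀ + (2 ^ E * i₀ + r * (2 ^ E * i₀ + 2 ^ E * i₀)) =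
          2 * ((r : ℝ) + 1) * (2 ^ E * i₀) := by ring
      have c6 : 2 * ((r : ℝ) + 1) * (2 ^ E * i₀) ≤ 2 ^ (n₆ + E + 1) * i₀ := by
        rw [pow_succ, pow_add]
        have : ((r : ℝ) + 1) * (2 ^ E * i₀) ≤ 2 ^ n₆ * (2 ^ E * i₀) :=
          mul_le_mul_of_nonneg_right hn₆.le (by positivity)
        nlinarith
      have c7 : (2 : ℝ) ^ (n₆ + E + 1) ≤ Y := by
        refine hYk ?_
        rw [hE]
        have := hnN n₅
        have := hnN n₆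
        have := hnN n₇
        calc n₆ + (n₅ + n₇ + 2 * (C₂ * N) + C₁ * N + N) + 1 ≤
            n₆ * N + (n₅ * N + n₇ * N + 2 * (C₂ * N) + C₁ * N + N) + N := by omega
          _ = (n₆ + n₅ + n₇ + 2 * C₂ + C₁ + 2) * N := by ring
          _ ≤ _ := Nat.mul_le_mul_right _ (by omega)
      have c8 : (2 : ℝ) ^ (n₆ + E + 1) * i₀ ≤ Y * i₀ := mul_le_mul_of_nonneg_right c7 hi0.le
      have c9 : Y / 2 ^ (MB - Q) = Y * i₀ := by rw [hi₀, mul_one_div]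
      rw [c9]
      linarith
    rw [hnd', hX, hb] at hgoal
    exact hgoal
  · -- dgT
    intro L i
    exact (T.dT L i).trans hD2
  · -- cl
    intro ω hω i
    have h1 := tg_cl W T hω i
    have h2 := hMV ω hω _ (dgg _ i.succ) (fun β => bg ω hω β i.succ)
    rw [tg_pgz W T v v' ω] at h2 ⊢
    have h3 := (abs_add_le ((Θ (slam F (o 1) ω) i).eval (rt F (o 1) ω) -
      eval (frc c s r Q (trn r (Gf (ptr F J ω))) (bt F ω)) (PgR c s r (o 1) Q (bt F ω none)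
        (fun i => ⌊2 ^ Q * yp c s r (trn r (Gf (ptr F J ω))) (bt F ω) (some i)⌋)
        (trn r (Gf (ptr F J ω))) (A2 (ptr F J ω) - A1 (ptr F J ω)) i.succ)) _).trans
      (add_le_add h1 h2)
    rw [sub_add_sub_cancel] at h3
    refine h3.trans ?_
    have hMQ : (1 : ℝ) / 2 ^ MB ≤ 1 / 2 ^ (MB - Q) :=
      one_div_le_one_div_of_le (by positivity) (hpw (by omega))
    have k1 : 2 ^ n₅ * (Y₂ / 2 ^ MB) * Y₁ ≤ 2 ^ (n₅ + C₂ * N + C₁ * N) / 2 ^ (MB - Q) := by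
      rw [pow_add, pow_add, ← hY₁, ← hY₂]
      calc 2 ^ n₅ * (Y₂ / 2 ^ MB) * Y₁ = 2 ^ n₅ * Y₂ * Y₁ * (1 / 2 ^ MB) := by ring
        _ ≤ 2 ^ n₅ * Y₂ * Y₁ * (1 / 2 ^ (MB - Q)) := mul_le_mul_of_nonneg_left hMQ (by positivity)
        _ = _ := by ring
    refine (add_le_add le_rfl k1).trans ?_
    rw [← add_div]
    refine div_le_div_of_nonneg_right ?_ (by positivity)
    obtain ⟨E, hE⟩ : ∃ E, E = N + n₅ + C₂ * N + C₁ * N := ⟨_, rfl⟩
    have k2 : (2 : ℝ) ^ x ≤ 2 ^ E := hpw (by omega)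
    have k3 : (2 : ℝ) ^ (n₅ + C₂ * N + C₁ * N) ≤ 2 ^ E := hpw (by omega)
    have k4 : (2 : ℝ) ^ E * 2 ≤ Y := by
      rw [← pow_succ]
      refine hYk ?_
      rw [hE]
      have := hnN n₅
      calc N + n₅ + C₂ * N + C₁ * N + 1 ≤ N + n₅ * N + C₂ * N + C₁ * N + N := by omega
        _ = (n₅ + C₂ + C₁ + 2) * N := by ring
        _ ≤ _ := Nat.mul_le_mul_right _ (by omega)
    linarith

end Pool.V1E
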